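import Pool.Agent.P.MP_bf60a1_an.RA.Ent2

/-! Definitions and small tools. -/

set_option autoImplicit false

namespace Pool.Agent.P.MP_246241_nt.EK

open Finset Matrix Real
open Pool.Agent.P.MP_bf60a1_an.RA

abbrev Vc (D : ℕ) := Fin D → ℤ
abbrev Mt (D : ℕ) := Matrix (Fin D) (Fin D) ℤ
abbrev Gl (D : ℕ) := (Mt D)ˣ

section alg
variable {D : ℕ}

/-- the point of projective space mod `p^i` given by `u`, as the set of forms killing it -/
def Dl (p i : ℕ) (u : Vc D) : Set (Vc D) := {ρ | (p : ℤ) ^ i ∣ ρ ⬝ᵥ u}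
/-- the action on sets of forms -/
def act (g : Gl D) (X : Set (Vc D)) : Set (Vc D) := {ρ | ρ ᵥ* (g : Mt D) ∈ X}
def Prim (p : ℕ) (u : Vc D) : Prop := ∃ j, ¬ (p : ℤ) ∣ u j
def Far (p G i : ℕ) (X : Set (Vc D)) : Prop :=
  ∀ ρ ∈ X, (∀ j, (G : ℤ) * |ρ j| ^ D ≤ (p : ℤ) ^ i) → ρ = 0
def Span (p G i : ℕ) (u : Vc D) : Prop :=
  ∀ v : Vc D, (∃ a b, ¬ (p : ℤ) ∣ u a * v b - u b * v a) →
    ∃ ρ ∈ Dl p i u, (∀ j, |ρ j| ^ D ≤ (G : ℤ) * (p : ℤ) ^ i) ∧ ¬ (p : ℤ) ∣ ρ ⬝ᵥ v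
def Bd (g : Mt D) (R : ℕ) : Prop := ∀ i j, |g i j| ≤ (R : ℤ)
/-- `c` is a small basis matrix of `X` -/
def Bas (p B e : ℕ) (X : Set (Vc D)) (c : Mt D) : Prop :=
  (∀ ρ, ρ ∈ X ↔ ∃ σ : Vc D, ρ = σ ᵥ* c) ∧ |c.det| = (p : ℤ) ^ e ∧
    ∀ i j, |c i j| ^ D ≤ (B : ℤ) * (p : ℤ) ^ e

theorem mem_Dl {p i : ℕ} {u ρ : Vc D} : ρ ∈ Dl p i u ↔ (p : ℤ) ^ i ∣ ρ ⬝ᵥ u := Iff.rfl
theorem mem_act {g : Gl D} {X : Set (Vc D)} {ρ : Vc D} :
    ρ ∈ act g X ↔ ρ ᵥ* (g : Mt D) ∈ X := Iff.rfl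
theorem act_one (X : Set (Vc D)) : act 1 X = X := by ext ρ; simp [mem_act]
theorem act_mul (g h : Gl D) (X : Set (Vc D)) : act (g * h) X = act g (act h X) := by
  ext ρ; simp [mem_act]
theorem act_Dl (p i : ℕ) (g : Gl D) (u : Vc D) :
    act g (Dl p i u) = Dl p i ((g : Mt D) *ᵥ u) := by
  ext ρ; simp [mem_act, mem_Dl, dotProduct_mulVec]
theorem act_inj (g : Gl D) {X Y : Set (Vc D)} (h : act g X = act g Y) : X = Y := by
  have := congrArg (act g⁻¹) h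
  rwa [← act_mul, ← act_mul, inv_mul_cancel, act_one, act_one] at this
theorem Dl_zero (p : ℕ) (u : Vc D) : Dl p 0 u = Set.univ := by ext ρ; simp [mem_Dl]
/-- lower levels are read off from higher levels -/
theorem Dl_down {p : ℕ} (hp : 0 < p) (i e : ℕ) (u : Vc D) :
    Dl p i u = {ρ | ((p : ℤ) ^ e) • ρ ∈ Dl p (i + e) u} := by
  ext ρ
  have : ((p : ℤ) ^ e) ≠ 0 := by positivity
  simp only [mem_Dl, Set.mem_ofPred_eq, smul_dotProduct, smul_eq_mul, pow_add]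
  rw [mul_comm ((p : ℤ) ^ i), mul_dvd_mul_iff_left this]
theorem Dl_of_le {p : ℕ} (hp : 0 < p) {i L : ℕ} (h : i ≤ L) {u u' : Vc D}
    (e : Dl p L u = Dl p L u') : Dl p i u = Dl p i u' := by
  obtain ⟨k, rfl⟩ := Nat.exists_eq_add_of_le h
  rw [Dl_down hp i k u, Dl_down hp i k u', e]
/-- proportional vectors give the same point -/
theorem Dl_congr {p i : ℕ} {u u' : Vc D} {l : ℤ} (hl : IsCoprime l (p : ℤ))
    (h : ∀ j, (p : ℤ) ^ i ∣ u' j - l * u j) : Dl p i u' = Dl p i u := by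
  ext ρ
  have h1 : (p : ℤ) ^ i ∣ ρ ⬝ᵥ u' - l * (ρ ⬝ᵥ u) := by
    simp only [dotProduct, mul_sum, ← sum_sub_distrib]
    exact dvd_sum fun j _ => by
      have := (h j).mul_left (ρ j)
      convert this using 1; ring
  rw [mem_Dl, mem_Dl, ← (dvd_iff_dvd_of_dvd_sub h1).symm]
  exact ⟨fun g => (hl.symm.pow_left).dvd_of_dvd_mul_left g, fun g => g.mul_left l⟩
theorem Prim.mul {p : ℕ} {u : Vc D} (h : Prim p u) (g : Gl D) : Prim p ((g : Mt D) *ᵥ u) := by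
  by_contra h1
  obtain ⟨j, hj⟩ := h
  refine hj ?_
  have e : u = ((g⁻¹ : Gl D) : Mt D) *ᵥ ((g : Mt D) *ᵥ u) := by simp
  have h3 : ∀ k, (p : ℤ) ∣ ((g : Mt D) *ᵥ u) k := fun k => by
    by_contra h2
    exact h1 ⟨k, h2⟩
  rw [e, mulVec, dotProduct]
  exact dvd_sum fun k _ => (h3 k).mul_left _
theorem det_unit (g : Gl D) : |(g : Mt D).det| = 1 :=
  Int.isUnit_iff_abs_eq.1 ((Matrix.isUnit_iff_isUnit_det _).1 g.isUnit)

end alg

section geo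
variable {n : ℕ}

/-- the matrix of `(q, r) ↦ (q, q a - p^l r)` (row vectors) -/
def Tm (p l : ℕ) (a : Vc n) : Mt (n + 1) :=
  Matrix.of fun i j => Fin.cases (Fin.cases 1 a j)
    (fun i' => Fin.cases 0 (fun j' => if i' = j' then -(p : ℤ) ^ l else 0) j) i
def Short (p H l : ℕ) (a : Vc n) : Prop :=
  ∃ w : Vc (n + 1), w ≠ 0 ∧ ∀ j, (H : ℤ) * |(w ᵥ* Tm p l a) j| ^ (n + 1) ≤ (p : ℤ) ^ (n * l)
def Frame (p B l : ℕ) (a : Vc n) (g : Gl (n + 1)) : Prop :=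
  ∀ i j, |((g : Mt (n + 1)) * Tm p l a) i j| ^ (n + 1) ≤ (B : ℤ) * (p : ℤ) ^ (n * l)
def col (g : Gl (n + 1)) : Vc (n + 1) := fun j => (g : Mt (n + 1)) j 0
open Classical in
noncomputable def fr (p B l : ℕ) (a : Vc n) : Gl (n + 1) :=
  if h : ∃ g, Frame p B l a g then h.choose else 1
/-- remove the last `s` digits -/
def pre (p s : ℕ) (a : Vc n) : Vc n := fun i => a i / (p : ℤ) ^ s
def Dg (n p e : ℕ) : Mt (n + 1) := Matrix.diagonal fun i => if i = 0 then (p : ℤ) ^ e else 1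
/-- change of level -/
def lv (p e : ℕ) (g g' : Gl (n + 1)) : Mt (n + 1) :=
  (g' : Mt (n + 1)) * Dg n p e * ((g⁻¹ : Gl (n + 1)) : Mt (n + 1))
def Good (p B T : ℕ) (x : Vc n) : Prop :=
  ∀ t ≤ T, ∀ l ≤ t, ¬ Short p B l (pre p (T - t) x) ∧ ∃ g, Frame p B l (pre p (T - t) x) g

theorem vecMul_Tm_zero (p l : ℕ) (a : Vc n) (w : Vc (n + 1)) : (w ᵥ* Tm p l a) 0 = w 0 := by
  simp [vecMul, dotProduct, Tm, Fin.sum_univ_succ]
theorem vecMul_Tm_succ (p l : ℕ) (a : Vc n) (w : Vc (n + 1)) (i : Fin n) :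
    (w ᵥ* Tm p l a) i.succ = w 0 * a i - (p : ℤ) ^ l * w i.succ := by
  simp [vecMul, dotProduct, Tm, Fin.sum_univ_succ]; ring
theorem mul_Tm_zero (p l : ℕ) (a : Vc n) (g : Mt (n + 1)) (i : Fin (n + 1)) :
    (g * Tm p l a) i 0 = g i 0 := vecMul_Tm_zero p l a (g i)
theorem mul_Tm_succ (p l : ℕ) (a : Vc n) (g : Mt (n + 1)) (i : Fin (n + 1)) (j : Fin n) :
    (g * Tm p l a) i j.succ = g i 0 * a j - (p : ℤ) ^ l * g i j.succ :=
  vecMul_Tm_succ p l a (g i) j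
theorem det_Tm (p l : ℕ) (a : Vc n) : |(Tm p l a).det| = (p : ℤ) ^ (n * l) := by
  have h : (Tm p l a).submatrix Fin.succ Fin.succ = Matrix.diagonal fun _ => -(p : ℤ) ^ l := by
    ext i j; simp [Tm, Matrix.diagonal_apply]
  rw [Matrix.det_succ_column_zero, Fin.sum_univ_succ, sum_eq_zero fun i _ => by simp [Tm]]
  simp only [Fin.succAbove_zero, h, det_diagonal]
  simp [Tm, abs_pow, ← pow_mul, mul_comm]
theorem det_frame (p l : ℕ) (a : Vc n) (g : Gl (n + 1)) :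
    |((g : Mt (n + 1)) * Tm p l a).det| = (p : ℤ) ^ (n * l) := by
  rw [det_mul, abs_mul, det_unit, det_Tm, one_mul]
theorem col_mul (γ g : Gl (n + 1)) : col (γ * g) = (γ : Mt (n + 1)) *ᵥ col g := by
  ext j; simp [col, Matrix.mul_apply, mulVec, dotProduct]
theorem fr_spec {p B l : ℕ} {a : Vc n} (h : ∃ g, Frame p B l a g) : Frame p B l a (fr p B l a) := by
  rw [fr, dif_pos h]; exact h.choose_spec
theorem pre_pre (p s s' : ℕ) (a : Vc n) : pre p s (pre p s' a) = pre p (s' + s) a := by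
  ext i
  simp only [pre, pow_add]
  exact Int.ediv_ediv_of_nonneg (by positivity)
theorem pre_zero (p : ℕ) (a : Vc n) : pre p 0 a = a := by ext i; simp [pre]
theorem Short.mono {p H H' l : ℕ} {a : Vc n} (h : Short p H' l a) (hH : H ≤ H') :
    Short p H l a := by
  obtain ⟨w, h0, h1⟩ := h
  exact ⟨w, h0, fun j => (mul_le_mul_of_nonneg_right (by exact_mod_cast hH)
    (by positivity)).trans (h1 j)⟩
theorem Frame.mono {p B B' l : ℕ} {a : Vc n} {g : Gl (n + 1)} (h : Frame p B l a g)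
    (hB : B ≤ B') : Frame p B' l a g := fun i j =>
  (h i j).trans (mul_le_mul_of_nonneg_right (by exact_mod_cast hB) (by positivity))

variable {Ω : Type}
/-- the digits up to time `t` -/
def xx (p T : ℕ) (a : Ω → Vc n) (t : ℕ) (ω : Ω) : Vc n := pre p (T - t) (a ω)
/-- the frame at time `t`, level `m` -/
noncomputable def gg (p B T : ℕ) (a : Ω → Vc n) (t m : ℕ) (ω : Ω) : Gl (n + 1) :=
  fr p B (t - m) (xx p T a t ω)
/-- the next `L` levels -/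
noncomputable def yy (p B T : ℕ) (a : Ω → Vc n) (L t m : ℕ) (ω : Ω) : Set (Vc (n + 1)) :=
  Dl p L (col (gg p B T a t m ω))
/-- the transition matrix from time `t` to time `t + k` -/
noncomputable def ga (p B T : ℕ) (a : Ω → Vc n) (k t m : ℕ) (ω : Ω) : Gl (n + 1) :=
  gg p B T a (t + k) m ω * (gg p B T a t m ω)⁻¹

theorem col_gg (p B T : ℕ) (a : Ω → Vc n) (k t m : ℕ) (ω : Ω) :
    col (gg p B T a (t + k) m ω) =
      (ga p B T a k t m ω : Mt (n + 1)) *ᵥ col (gg p B T a t m ω) := by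
  rw [← col_mul, ga, inv_mul_cancel_right]
theorem Good.frame {p B T : ℕ} {a : Ω → Vc n} {ω : Ω} (h : Good p B T (a ω)) {t : ℕ} (ht : t ≤ T)
    (m : ℕ) : Frame p B (t - m) (xx p T a t ω) (gg p B T a t m ω) :=
  fr_spec (h t ht _ (Nat.sub_le _ _)).2
theorem Good.not_short {p B T : ℕ} {a : Ω → Vc n} {ω : Ω} (h : Good p B T (a ω)) {t : ℕ}
    (ht : t ≤ T) (m : ℕ) : ¬ Short p B (t - m) (xx p T a t ω) := (h t ht _ (Nat.sub_le _ _)).1
theorem pre_xx {p T t k : ℕ} (a : Ω → Vc n) (h : t + k ≤ T) (ω : Ω) :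
    pre p k (xx p T a (t + k) ω) = xx p T a t ω := by
  rw [xx, xx, pre_pre]; congr 1; omega

end geo

section info
variable {Ω α β γ : Type} [Fintype Ω]

/-- conditional mutual information -/
noncomputable def MI (P : FP Ω) (A : Ω → α) (B : Ω → β) (C : Ω → γ) : ℝ :=
  P.Hc A C - P.Hc A fun ω => (B ω, C ω)
/-- mutual information -/
noncomputable def MI0 (P : FP Ω) (A : Ω → α) (B : Ω → β) : ℝ := P.H A - P.Hc A B

theorem MI_nonneg (P : FP Ω) (A : Ω → α) (B : Ω → β) (C : Ω → γ) : 0 ≤ MI P A B C :=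
  sub_nonneg.2 (P.Hc_mono_right A fun _ _ _ _ h => congrArg Prod.snd h)
theorem MI0_nonneg (P : FP Ω) (A : Ω → α) (B : Ω → β) : 0 ≤ MI0 P A B :=
  sub_nonneg.2 (P.Hc_le_H A B)
theorem MI_symm (P : FP Ω) (A : Ω → α) (B : Ω → β) (C : Ω → γ) : MI P A B C = MI P B A C :=
  P.Hc_symm A B C

end info

end Pool.Agent.P.MP_246241_nt.EK
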