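import Pool.Agent.P.MP_246241_nt.EK.Defs

/-! The statements of the steps. -/

set_option autoImplicit false

namespace Pool.Agent.P.MP_246241_nt.EK

open Finset Matrix Real
open Pool.Agent.P.MP_bf60a1_an.RA

/-! ### Information -/

-- deps:
def S_PINS : Prop :=
  ∀ (ι : Type) (J : Finset ι) (p q : ι → ℝ),
    (∀ j ∈ J, 0 ≤ p j ∧ 0 ≤ q j ∧ (0 < p j → 0 < q j)) → ∑ j ∈ J, p j = 1 → ∑ j ∈ J, q j ≤ 1 →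
    (∑ j ∈ J, |p j - q j|) ^ 2 ≤ 4 * ∑ j ∈ J, p j * log (p j / q j)

-- deps: PINS
def S_TV : Prop :=
  ∀ (Ω G X : Type) [Fintype Ω] [Group G] (P : FP Ω) (ac : G → X → X) (Γ : Ω → G) (Z : Ω → X)
    (A : Set X) (K : ℕ), (∀ x, ac 1 x = x) → (∀ g h x, ac (g * h) x = ac g (ac h x)) →
    (∀ ω, 0 < P.p ω → Z ω ∈ A) →
    ((P.prod P).pr fun x => ∀ ω, 0 < P.p ω → ∃ j ≤ K, ac (((Γ x.2)⁻¹ * Γ x.1) ^ j) (Z ω) ∉ A) ≤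
      4 * K * (√(MI0 P Z Γ) + √(MI0 P (fun ω => ac (Γ ω) (Z ω)) Γ))

-- deps:
def S_FANO : Prop :=
  ∀ (Ω β γ : Type) [Fintype Ω] (P : FP Ω) (W W₀ : Ω → β) (Z : Ω → γ) (F : Finset β) (B s : ℝ),
    0 < s → s ≤ 1 / 2 → (#F : ℝ) ≤ B → (∀ ω, 0 < P.p ω → W ω ∈ F) → P.Det Z W₀ →
    P.Hc W Z ≤ 2 * s + log (B / s) * P.pr fun ω => W ω ≠ W₀ ω

-- deps: TV FANO
def S_ALOC : Prop :=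
  ∀ (Ω G X β : Type) [Fintype Ω] [Group G] (P : FP Ω) (ac : G → X → X) (Γ : Ω → G) (Z : Ω → X)
    (A : Set X) (K : ℕ) (pj : X → β) (F : Finset β) (B s : ℝ),
    (∀ x, ac 1 x = x) → (∀ g h x, ac (g * h) x = ac g (ac h x)) →
    0 < s → s ≤ 1 / 2 → (#F : ℝ) ≤ B → (∀ ω, 0 < P.p ω → Z ω ∈ A ∧ pj (ac (Γ ω) (Z ω)) ∈ F) →
    (∀ ω₁ ω₂ ω₀, 0 < P.p ω₁ → 0 < P.p ω₂ → 0 < P.p ω₀ →
      pj (ac (Γ ω₁) (Z ω₀)) ≠ pj (ac (Γ ω₂) (Z ω₀)) →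
      ∀ ω, 0 < P.p ω → ∃ j ≤ K, ac (((Γ ω₂)⁻¹ * Γ ω₁) ^ j) (Z ω) ∉ A) →
    P.Hc (fun ω => pj (ac (Γ ω) (Z ω))) Z ≤ 3 * s + 8 * (K : ℝ) ^ 2 * log (B / s) ^ 2 / s *
      (MI0 P Z Γ + MI0 P (fun ω => ac (Γ ω) (Z ω)) Γ)

-- deps: ALOC
def S_CLOC : Prop :=
  ∀ (Ω G X β κ : Type) [Fintype Ω] [Group G] (P : FP Ω) (ac : G → X → X) (Γ : Ω → G) (Z : Ω → X)
    (V : Ω → κ) (A : Set X) (K : ℕ) (pj : X → β) (B s : ℝ),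
    (∀ x, ac 1 x = x) → (∀ g h x, ac (g * h) x = ac g (ac h x)) → 0 < s → s ≤ 1 / 2 →
    (∀ ω, 0 < P.p ω → Z ω ∈ A ∧ ∃ F : Finset β, (#F : ℝ) ≤ B ∧
      ∀ ω', 0 < P.p ω' → V ω' = V ω → pj (ac (Γ ω') (Z ω')) ∈ F) →
    (∀ ω₁ ω₂ ω₀ ω, 0 < P.p ω₁ → 0 < P.p ω₂ → 0 < P.p ω₀ → 0 < P.p ω →
      V ω₁ = V ω → V ω₂ = V ω → V ω₀ = V ω → pj (ac (Γ ω₁) (Z ω₀)) ≠ pj (ac (Γ ω₂) (Z ω₀)) →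
      ∃ j ≤ K, ac (((Γ ω₂)⁻¹ * Γ ω₁) ^ j) (Z ω) ∉ A) →
    P.Hc (fun ω => pj (ac (Γ ω) (Z ω))) (fun ω => (Z ω, V ω)) ≤
      3 * s + 8 * (K : ℝ) ^ 2 * log (B / s) ^ 2 / s *
        (MI P Z Γ V + MI P (fun ω => ac (Γ ω) (Z ω)) Γ V)

-- deps:
def S_OVER : Prop :=
  ∀ (Ω X G κ : Type) [Fintype Ω] (P : FP Ω) (Y : ℕ → Ω → X) (Γ : Ω → G) (C : Ω → κ)
    (m a b L : ℕ), (∀ i, P.Det (Y (i + 1)) (Y i)) → b + m ≤ L →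
    ∑ i ∈ Ico a b, MI P (Y (i + m)) Γ (fun ω => (Y i ω, C ω)) ≤ m * MI P (Y L) Γ C

/-! ### Points modulo powers of `p` -/

-- deps:
def S_PROJ : Prop :=
  ∀ (D p i : ℕ) (u u' : Vc D), p.Prime → Prim p u → Prim p u' → Dl p i u = Dl p i u' →
    ∃ l : ℤ, IsCoprime l (p : ℤ) ∧ ∀ j, (p : ℤ) ^ i ∣ u' j - l * u j

-- deps: PROJ
def S_POR : Prop :=
  ∀ (D p G i m : ℕ) (γ₁ γ₂ : Gl D) (u₀ u : Vc D), p.Prime → 1 ≤ m → m ≤ i → G ^ 2 ≤ p ^ m →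
    (∀ a b, (p : ℤ) ^ m ∣ (γ₁ : Mt D) a b - (γ₂ : Mt D) a b) → Prim p u₀ → Prim p u →
    Dl p i u₀ = Dl p i u → act γ₁ (Dl p i u) = act γ₂ (Dl p i u) →
    act γ₁ (Dl p (i + 1) u₀) ≠ act γ₂ (Dl p (i + 1) u₀) → Span p G i u →
    ∃ j ≤ p ^ m, ¬ Far p G (i + m) (act ((γ₂⁻¹ * γ₁) ^ j) (Dl p (i + m) u))

-- deps: PROJ
def S_FEW : Prop :=
  ∀ (D p i : ℕ) (w : Vc D), p.Prime → Prim p w → ∃ F : Finset (Set (Vc D)), #F ≤ p ^ D ∧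
    ∀ w', Prim p w' → Dl p i w' = Dl p i w → Dl p (i + 1) w' ∈ F

-- deps:
def S_HD : Prop :=
  ∀ (D p L : ℕ) (Ω : Type) [Fintype Ω] (P : FP Ω), 0 < p →
    (∀ u : Ω → Vc D, (P.H fun ω => Dl p L (u ω)) ≤ D * L * log p) ∧
    ∀ g : Ω → Mt D, (P.H fun ω a b => g ω a b % (p : ℤ) ^ L) ≤ D ^ 2 * L * log p

-- deps: CLOC POR FEW OVER HD
def S_SUM : Prop :=
  ∀ (D p G L m : ℕ) (Ω κ κ' : Type) [Fintype Ω] (P : FP Ω) (Γ : Ω → Gl D) (u : Ω → Vc D)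
    (C : Ω → κ) (W : Ω → κ') (s : ℝ), p.Prime → 0 < s → s ≤ 1 / 2 → 1 ≤ m → 2 * m ≤ L →
    G ^ 2 ≤ p ^ m → P.Det W u → P.Det W C →
    (∀ ω, 0 < P.p ω → Prim p (u ω) ∧ ∀ i ≤ L, Far p G i (Dl p i (u ω)) ∧ Span p G i (u ω)) →
    P.Hc (fun ω => Dl p (L - m) ((Γ ω : Mt D) *ᵥ u ω)) W ≤ D ^ 2 * m * log p + 3 * s * L +
      8 * ((p : ℝ) ^ m) ^ 2 * log ((p : ℝ) ^ D / s) ^ 2 / s * m *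
        (MI P (fun ω => Dl p L (u ω)) Γ C + MI P (fun ω => Dl p L ((Γ ω : Mt D) *ᵥ u ω)) Γ C)

/-! ### The Liouville step -/

-- deps:
def S_EIG : Prop :=
  ∀ (D : ℕ) (N : Matrix (Fin D) (Fin D) ℂ) (R : ℝ) (μ : ℂ) (w : Fin D → ℂ),
    (∀ i j, ‖N i j‖ ≤ R) → w ≠ 0 → N *ᵥ w = μ • w → ‖μ‖ ≤ D * R

-- deps:
def S_COEF : Prop :=
  ∀ (D : ℕ) (N : Mt D) (ρ : ℝ), 1 ≤ ρ →
    (∀ (μ : ℂ) (w : Fin D → ℂ), w ≠ 0 → N.map (Int.cast : ℤ → ℂ) *ᵥ w = μ • w → ‖μ‖ ≤ ρ) →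
    ∀ i, |(N.charpoly.coeff i : ℝ)| ≤ (2 * ρ) ^ D

-- deps: EIG COEF
def S_SING : Prop :=
  ∀ D : ℕ, ∃ a : ℕ, ∀ (p G R e L : ℕ) (N : Mt D) (u : Vc D) (l : ℤ), p.Prime → 2 ≤ R →
    Prim p u → Far p G e (Dl p e u) → G * R ^ a ≤ p ^ e → (D + 1) * e ≤ L → Bd N R →
    (∀ j, (p : ℤ) ^ L ∣ (N *ᵥ u) j - l * u j) → N.det = 0 → N = 0

-- deps:
def S_CHAR : Prop :=
  ∀ (D : ℕ) (S : Finset (Matrix (Fin D) (Fin D) ℂ)), (∀ g ∈ S, ∀ h ∈ S, g * h = h * g) →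
    ∃ X : Finset (Matrix (Fin D) (Fin D) ℂ → ℂ), #X ≤ D ∧
      (∀ χ ∈ X, ∃ w : Fin D → ℂ, w ≠ 0 ∧ ∀ g ∈ S, g *ᵥ w = χ g • w) ∧
      ∀ g ∈ S, ∀ h ∈ S, ∀ (μ : ℂ) (w : Fin D → ℂ), w ≠ 0 → g *ᵥ w = μ • (h *ᵥ w) →
        ∃ χ ∈ X, χ g = μ * χ h

-- deps: EIG COEF CHAR
def S_CNT : Prop :=
  ∀ D : ℕ, ∃ C : ℝ, ∀ (S : Finset (Gl D)) (R : ℕ), 1 ≤ R → (∀ g ∈ S, ∀ h ∈ S, g * h = h * g) →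
    (∀ g ∈ S, Bd (g : Mt D) R ∧ Bd ((g⁻¹ : Gl D) : Mt D) R) →
    (∀ g ∈ S, ∀ h ∈ S, ((g : Mt D) - (h : Mt D)).det = 0 → g = h) →
    (#S : ℝ) ≤ C * (1 + log R) ^ D

-- deps: PROJ SING CNT
def S_FIB : Prop :=
  ∀ D : ℕ, ∃ (a : ℕ) (C : ℝ), ∀ (p G R e L : ℕ) (u : Vc D) (S : Finset (Gl D)), p.Prime → 2 ≤ R →
    Prim p u → Far p G e (Dl p e u) → G * R ^ a ≤ p ^ e → (D + 1) * e ≤ L →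
    (∀ g ∈ S, Bd (g : Mt D) R ∧ Bd ((g⁻¹ : Gl D) : Mt D) R) →
    (∀ g ∈ S, ∀ h ∈ S, Dl p L ((g : Mt D) *ᵥ u) = Dl p L ((h : Mt D) *ᵥ u)) →
    (#S : ℝ) ≤ C * (1 + log R) ^ D

/-! ### Geometry of numbers -/

-- deps:
def S_QUOT : Prop :=
  ∀ D : ℕ, ∃ C : ℕ, ∀ (X β Y : Mt D) (b y : ℤ), X * β = Y → (∀ i j, |β i j| ^ D ≤ b) →
    (∀ i j, |Y i j| ^ D ≤ y) → ∀ i j, |X i j| ^ D * |β.det| ^ D ≤ C * y * b ^ (D - 1)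

-- deps:
-- imports: Pool.Agent.P.MP_fc15d7_nt.TREDU
def S_FRAME : Prop :=
  ∀ n : ℕ, ∃ a : ℕ, ∀ (p H l : ℕ) (x : Vc n), 0 < p → 2 ≤ H → ¬ Short p H l x →
    ∃ g, Frame p (H ^ a) l x g

-- deps: QUOT
def S_STEP : Prop :=
  ∀ n : ℕ, ∃ a : ℕ, ∀ (p B l k : ℕ) (x x' : Vc n) (g g' : Gl (n + 1)), 0 < p → 2 ≤ B →
    pre p k x' = x → Frame p B l x g → Frame p B (l + k) x' g' →
    Bd ((g' * g⁻¹ : Gl (n + 1)) : Mt (n + 1)) (B ^ a * p ^ k) ∧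
      Bd (((g' * g⁻¹)⁻¹ : Gl (n + 1)) : Mt (n + 1)) (B ^ a * p ^ k)

-- deps:
def S_BOX : Prop :=
  ∀ D R : ℕ, ∃ F : Finset (Mt D), #F ≤ (2 * R + 1) ^ (D * D) ∧ ∀ g, Bd g R → g ∈ F

-- deps: QUOT
def S_MULT : Prop :=
  ∀ n : ℕ, ∃ a : ℕ, ∀ (p B l : ℕ) (g : Gl (n + 1)), 0 < p → 2 ≤ B →
    ∃ F : Finset (Vc n), #F ≤ B ^ a ∧ ∀ x, Frame p B l x g → x ∈ F

-- deps: QUOT
def S_LEVEL : Prop :=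
  ∀ n : ℕ, ∃ a : ℕ, ∀ (p B l e : ℕ) (x : Vc n) (g g' : Gl (n + 1)), 0 < p → 2 ≤ B →
    Frame p B (l + e) x g → Frame p B l x g' →
    Bas p (B ^ a) e (Dl p e (col g)) (lv p e g g') ∧ lv p e g g' *ᵥ col g = (p : ℤ) ^ e • col g'

-- deps: LEVEL
def S_REG : Prop :=
  ∀ n : ℕ, ∃ a : ℕ, ∀ (p B l i : ℕ) (x : Vc n) (g g' : Gl (n + 1)), p.Prime → 2 ≤ B →
    Frame p B (l + i) x g → Frame p B l x g' → ¬ Short p B l x →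
    Prim p (col g) ∧ Far p (B ^ a) i (Dl p i (col g)) ∧ Span p (B ^ a) i (col g)

-- deps: QUOT BOX
def S_AMB : Prop :=
  ∀ D : ℕ, ∃ a : ℕ, ∀ (p B e : ℕ) (X : Set (Vc D)), 0 < p → 2 ≤ B →
    ∃ F : Finset (Mt D), #F ≤ B ^ a ∧ ∀ c, Bas p B e X c → c ∈ F

/-! ### The decrement -/

-- deps:
def S_TEL : Prop :=
  ∀ (D p B L N : ℕ) (M : ℝ) (Ω : Type) [Fintype Ω] (P : FP Ω) (u u' : ℕ → Ω → Vc D)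
    (γ : ℕ → Ω → Gl D) (c c' : ℕ → Ω → Mt D), 0 < p → 1 ≤ M →
    (∀ e X, ∃ F : Finset (Mt D), (#F : ℝ) ≤ M ∧ ∀ c, Bas p B e X c → c ∈ F) →
    (∀ j ≤ N, ∀ ω, 0 < P.p ω → u' j ω = (γ j ω : Mt D) *ᵥ u j ω ∧
      Bas p B (j * L) (Dl p (j * L) (u 0 ω)) (c j ω) ∧
      Bas p B (j * L) (Dl p (j * L) (u' 0 ω)) (c' j ω) ∧
      c j ω *ᵥ u 0 ω = (p : ℤ) ^ (j * L) • u j ω ∧
      c' j ω * (γ 0 ω : Mt D) = (γ j ω : Mt D) * c j ω) →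
    (P.H fun ω => Dl p (N * L) (u 0 ω)) +
      ∑ j ∈ range N, (MI P (fun ω => Dl p L (u j ω)) (γ j) (c j) +
        MI P (fun ω => Dl p L (u' j ω)) (γ j) (c j)) ≤
      ∑ j ∈ range N, (P.H fun ω => Dl p L (u' j ω)) + 2 * P.H (γ 0) + 5 * N * log M

-- deps: FIB STEP MULT REG
def S_LIO : Prop :=
  ∀ n : ℕ, ∃ C₁ A : ℕ, ∀ (p B T t k m L : ℕ) (Ω : Type) [Fintype Ω] (P : FP Ω) (a : Ω → Vc n),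
    p.Prime → p ≤ B → B ^ A ≤ k → C₁ * k ≤ L → t + k ≤ T → m + L ≤ t →
    (∀ ω, 0 < P.p ω → Good p B T (a ω)) →
    P.H (xx p T a (t + k)) - P.H (xx p T a t) ≤
      P.Hc (yy p B T a L (t + k) m) (xx p T a t) + k / (16 * B)

-- deps: LIO SUM REG
def S_ONE : Prop :=
  ∀ n : ℕ, ∃ C₀ A : ℕ, 1 ≤ C₀ ∧ ∀ (p B T t k m : ℕ) (Ω κ : Type) [Fintype Ω] (P : FP Ω)
    (a : Ω → Vc n) (C : Ω → κ), p.Prime → p ≤ B → B ^ A ≤ k → t + k ≤ T → m + C₀ * k ≤ t →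
    (∀ ω, 0 < P.p ω → Good p B T (a ω)) → P.Det (xx p T a t) C →
    P.H (xx p T a (t + k)) - P.H (xx p T a t) ≤ k / (4 * B) + (B : ℝ) ^ A *
      (MI P (yy p B T a (C₀ * k) t m) (ga p B T a k t m) C +
        MI P (yy p B T a (C₀ * k) (t + k) m) (ga p B T a k t m) C)

-- deps: TEL STEP LEVEL AMB BOX
def S_TELC : Prop :=
  ∀ n : ℕ, ∃ A : ℕ, ∀ (p B T t k L N M : ℕ) (Ω : Type) [Fintype Ω] (P : FP Ω) (a : Ω → Vc n),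
    p.Prime → p ≤ B → 1 ≤ k → t + k ≤ T → M + N * L ≤ t → (∀ ω, 0 < P.p ω → Good p B T (a ω)) →
    ∃ c : ℕ → Ω → Mt (n + 1), (∀ j, P.Det (xx p T a t) (c j)) ∧
      P.H (yy p B T a (N * L) t M) +
        ∑ j ∈ range N, (MI P (yy p B T a L t (M + j * L)) (ga p B T a k t (M + j * L)) (c j) +
          MI P (yy p B T a L (t + k) (M + j * L)) (ga p B T a k t (M + j * L)) (c j)) ≤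
        ∑ j ∈ range N, P.H (yy p B T a L (t + k) (M + j * L)) + (B : ℝ) ^ A * (k + N)

-- deps: ONE TELC
def S_TWO : Prop :=
  ∀ n : ℕ, ∃ C₀ A : ℕ, 1 ≤ C₀ ∧ ∀ p B : ℕ, p.Prime → p ≤ B → ∃ Q : ℝ, 1 ≤ Q ∧ Q ≤ (B : ℝ) ^ A ∧
    ∀ (T t k N M : ℕ) (Ω : Type) [Fintype Ω] (P : FP Ω) (a : Ω → Vc n),
      B ^ A ≤ k → B ^ A ≤ N → t + k ≤ T → M + N * (C₀ * k) ≤ t →
      (∀ ω, 0 < P.p ω → Good p B T (a ω)) →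
      ∃ m, m + C₀ * k ≤ M + N * (C₀ * k) ∧
        P.H (yy p B T a (N * (C₀ * k)) t M) / (N * (C₀ * k) : ℕ) ≤
          P.H (yy p B T a (C₀ * k) (t + k) m) / (C₀ * k : ℕ) -
            ((P.H (xx p T a (t + k)) - P.H (xx p T a t)) / k - 1 / B / 4) / Q + 1 / B / (16 * Q)

-- deps:
def S_ITER : Prop :=
  ∀ (φ : ℕ → ℕ → ℝ) (h : ℕ → ℝ) (k : ℕ → ℕ) (Q U δ : ℝ) (T₀ T r : ℕ), 0 < δ → 1 ≤ Q → 1 ≤ U →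
    (∀ s t, 0 ≤ φ s t ∧ φ s t ≤ U) → h 0 ≤ 0 → (∀ t, h t ≤ h (t + 1) ∧ h (t + 1) ≤ h t + U) →
    (∀ s < r, 1 ≤ k s ∧ (T₀ + 2 * k s : ℝ) * U ≤ δ * T / 4 ∧ k s * U * Q ≤ δ * T / 16) →
    (∀ s < r, ∀ t, T₀ ≤ t → t + k s ≤ T → φ (s + 1) t ≤
      φ s (t + k s) - ((h (t + k s) - h t) / k s - δ / 4) / Q + δ / (16 * Q)) →
    8 * U * Q ≤ r * δ → h T ≤ δ * T

-- deps:
def S_HP : Prop :=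
  ∀ (n p T t : ℕ) (Ω : Type) [Fintype Ω] (P : FP Ω) (a : Ω → Vc n), 0 < p →
    P.H (xx p T a t) ≤ P.H (xx p T a (t + 1)) ∧
      P.H (xx p T a (t + 1)) ≤ P.H (xx p T a t) + n * log p

-- deps:
def S_NUM : Prop :=
  ∀ n C₀ A : ℕ, 1 ≤ C₀ → ∃ A' : ℕ, ∀ (B T : ℕ) (Q : ℝ), 2 ≤ B → 1 ≤ Q → Q ≤ (B : ℝ) ^ A →
    2 ^ B ^ A' ≤ T → ∃ T₀ r : ℕ, C₀ * (B ^ A * (B ^ A) ^ r) ≤ T₀ ∧
      (T₀ + 2 * (B ^ A * (B ^ A) ^ r : ℕ) : ℝ) * ((n + 1) * B) ≤ 1 / B * T / 4 ∧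
      ((B ^ A * (B ^ A) ^ r : ℕ) : ℝ) * ((n + 1) * B) * Q ≤ 1 / B * T / 16 ∧
      8 * ((n + 1) * B) * Q ≤ r * (1 / B : ℝ)

-- deps: TWO ITER HP HD NUM
def S_ENT : Prop :=
  ∀ n : ℕ, ∃ A : ℕ, ∀ (p B T : ℕ) (z : Vc n) (Ω : Type) [Fintype Ω] (P : FP Ω) (a : Ω → Vc n),
    p.Prime → p ≤ B → 2 ^ B ^ A ≤ T →
    (∀ ω, 0 < P.p ω → pre p T (a ω) = z ∧ Good p B T (a ω)) → P.H a ≤ T / B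

-- deps: ENT FRAME
def S_CORE : Prop :=
  ∀ n : ℕ, ∃ A : ℕ, 1 ≤ A ∧ ∀ (p H T : ℕ) (z : Vc n), p.Prime → p ≤ H → 2 ^ H ^ A ≤ T →
    ∃ S : Finset (Vc n), log (#S) ≤ T / H ∧ ∀ x, pre p T x = z →
      (∀ t ≤ T, ∀ l ≤ t, ¬ Short p H l (pre p (T - t) x)) → x ∈ S

/-! ### Dimension -/

-- deps:
def S_FIN : Prop :=
  ∀ (n p H T : ℕ) (α : Fin n → ℝ) (c F : ℝ), 1 ≤ n → p.Prime → 2 ≤ H → 0 < c → 0 < F →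
    (2 * F / c) ^ n < H →
    (∀ k : ℕ, 1 ≤ k → k ≤ p ^ T → ∃ i, c ≤
      ((k : ℝ) * ((padicNorm p (k : ℚ) : ℚ) : ℝ)) ^ ((1 : ℝ) / (n : ℝ)) * F *
        |(k : ℝ) * α i - ((round ((k : ℝ) * α i) : ℤ) : ℝ)|) →
    ∀ t ≤ T, ∀ l ≤ t, ¬ Short p H l (pre p (T - t) fun i => ⌊(p : ℝ) ^ T * α i⌋)

-- deps:
def S_DIM : Prop :=
  ∀ (n p : ℕ) (E : Set (Fin n → ℝ)), 2 ≤ p →
    (∀ ε : ℝ, 0 < ε → ∀ T₁ : ℕ, ∃ T ≥ T₁, ∃ F : Finset (Vc n), log (#F) ≤ ε * T ∧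
      ∀ α ∈ E, (fun i => ⌊(p : ℝ) ^ T * α i⌋) ∈ F) → dimH E = 0

-- deps: CORE FIN DIM
def S_PIECE : Prop :=
  ∀ n : ℕ, 1 ≤ n → ∃ κ : ℝ, 0 < κ ∧ ∀ (p : ℕ) (c : ℝ) (z : Vc n), p.Prime → 0 < c →
    dimH {α : Fin n → ℝ | (fun i => ⌊α i⌋) = z ∧ ∀ k : ℕ, 1 ≤ k → ∃ i, c ≤
      ((k : ℝ) * ((padicNorm p (k : ℚ) : ℚ) : ℝ)) ^ ((1 : ℝ) / (n : ℝ)) *
        max 1 (log (log k)) ^ κ * |(k : ℝ) * α i - ((round ((k : ℝ) * α i) : ℤ) : ℝ)|} = 0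

-- deps: PIECE
def S_MAIN : Prop :=
  ∀ n : ℕ, 1 ≤ n → ∃ κ : ℝ, 0 < κ ∧ ∀ p : ℕ, p.Prime →
    dimH {α : Fin n → ℝ | ¬ ∀ ε : ℝ, 0 < ε → ∀ N : ℕ, ∃ k : ℕ, N ≤ k ∧ 0 < k ∧ ∀ i : Fin n,
      ((k : ℝ) * ((padicNorm p (k : ℚ) : ℚ) : ℝ)) ^ ((1 : ℝ) / (n : ℝ)) * log (log k) ^ κ *
        |(k : ℝ) * α i - ((round ((k : ℝ) * α i) : ℤ) : ℝ)| < ε} = 0

end Pool.Agent.P.MP_246241_nt.EK
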