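import Pool.Agent.P.MP_246241_nt.EK.If

/-! Step ALOC. -/

set_option autoImplicit false

namespace Pool.Agent.P.MP_246241_nt.EK

open Finset Matrix Real
open Pool.Agent.P.MP_bf60a1_an.RA

namespace ALOCc

theorem amgm {x a s : ℝ} (hs : 0 < s) (ha : 0 ≤ a) : x * √a ≤ s / 2 + x ^ 2 / (2 * s) * a := by
  have h1 : √a ^ 2 = a := Real.sq_sqrt ha
  have h2 : 0 ≤ (s - x * √a) ^ 2 / (2 * s) := by positivity
  have h3 : (s - x * √a) ^ 2 / (2 * s) = s / 2 + x ^ 2 / (2 * s) * √a ^ 2 - x * √a := by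
    field_simp
    ring
  rw [h3, h1] at h2
  linarith

theorem fin {K L a b s r h : ℝ} (hs : 0 < s) (ha : 0 ≤ a) (hb : 0 ≤ b) (hL : 0 ≤ L)
    (hr : r ≤ 4 * K * (√a + √b)) (hh : h ≤ 2 * s + L * r) :
    h ≤ 3 * s + 8 * K ^ 2 * L ^ 2 / s * (a + b) := by
  have h1 := amgm (x := 4 * K * L) hs ha
  have h2 := amgm (x := 4 * K * L) hs hb
  have h3 : L * r ≤ L * (4 * K * (√a + √b)) := mul_le_mul_of_nonneg_left hr hL
  have h4 : (4 * K * L) ^ 2 / (2 * s) = 8 * K ^ 2 * L ^ 2 / s := by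
    field_simp
    ring
  rw [h4] at h1 h2
  nlinarith

end ALOCc

theorem p_ALOC (hTV : S_TV) (hFANO : S_FANO) :
    S_ALOC := by
  intro Ω G X β _ _ P ac Γ Z A K pj F B s h1 hmul hs hs2 hF hZ hsep
  have hT := hTV Ω G X P ac Γ Z A K h1 hmul fun ω hω => (hZ ω hω).1
  have hρ : ((P.prod P).pr fun x => pj (ac (Γ x.1) (Z x.1)) ≠ pj (ac (Γ x.2) (Z x.1))) ≤
      4 * K * (√(MI0 P Z Γ) + √(MI0 P (fun ω => ac (Γ ω) (Z ω)) Γ)) := by
    refine le_trans ((P.prod P).pr_mono fun x hx h => ?_) hT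
    obtain ⟨hx1, hx2⟩ := P.prod_pos hx
    exact hsep x.1 x.2 x.1 hx1 hx2 hx1 h
  have he : ((P.prod P).pr fun x => pj (ac (Γ x.1) (Z x.1)) ≠ pj (ac (Γ x.2) (Z x.1))) =
      P.E fun w => P.pr fun ω => pj (ac (Γ ω) (Z ω)) ≠ pj (ac (Γ w) (Z ω)) := by
    unfold FP.pr
    rw [FP.E_prod, FP.E_comm]
  obtain ⟨w, -, hw⟩ := P.exists_le_E fun w =>
    P.pr fun ω => pj (ac (Γ ω) (Z ω)) ≠ pj (ac (Γ w) (Z ω))
  have hFa := hFANO Ω β X P (fun ω => pj (ac (Γ ω) (Z ω))) (fun ω => pj (ac (Γ w) (Z ω))) Z F B s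
    hs hs2 hF (fun ω hω => (hZ ω hω).2) (fun ω ω' _ _ h => by simp only [h])
  have hL : 0 ≤ log (B / s) := by
    obtain ⟨ω, hω⟩ := P.exists_pos
    have hc : 1 ≤ #F := Finset.card_pos.2 ⟨_, (hZ ω hω).2⟩
    have hc' : (1 : ℝ) ≤ #F := by exact_mod_cast hc
    apply Real.log_nonneg
    rw [le_div_iff₀ hs]
    linarith
  exact ALOCc.fin hs (MI0_nonneg P _ _) (MI0_nonneg P _ _) hL (hw.trans (he ▸ hρ)) hFa

end Pool.Agent.P.MP_246241_nt.EK
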