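import Pool.Agent.P.MP_246241_nt.EK.If

/-! Step AMB. -/

set_option autoImplicit false

namespace Pool.Agent.P.MP_246241_nt.EK

open Finset Matrix Real
open Pool.Agent.P.MP_bf60a1_an.RA

namespace AMBc

theorem num (C B : ℕ) (hB : 2 ≤ B) : 2 * ((C + 1) * B) + 1 ≤ B ^ (C + 3) := by
  have h1 : C + 1 ≤ B ^ C := (Nat.lt_two_pow_self (n := C)).trans_le (Nat.pow_le_pow_left hB C)
  have h2 : (C + 1) * B ≤ B ^ C * B := Nat.mul_le_mul_right _ h1
  have h3 : 4 ≤ B * B := by nlinarith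
  have h4 : 1 ≤ (C + 1) * B := by nlinarith
  calc 2 * ((C + 1) * B) + 1 ≤ 4 * (B ^ C * B) := by omega
    _ ≤ (B * B) * (B ^ C * B) := Nat.mul_le_mul_right _ h3
    _ = B ^ (C + 3) := by ring

theorem ent {D C B : ℕ} {k q : ℤ} (hD : 0 < D) (hq : 0 < q)
    (h : |k| ^ D * q ^ D ≤ C * (B * q) * (B * q) ^ (D - 1)) : |k| ≤ (((C + 1) * B : ℕ) : ℤ) := by
  obtain ⟨d, rfl⟩ : ∃ d, D = d + 1 := ⟨D - 1, by omega⟩
  rw [Nat.add_sub_cancel] at h
  have e : (C : ℤ) * (B * q) * (B * q) ^ d = C * B ^ (d + 1) * q ^ (d + 1) := by ring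
  rw [e] at h
  have h1 : |k| ^ (d + 1) ≤ C * B ^ (d + 1) := le_of_mul_le_mul_right h (by positivity)
  have h2 : (C : ℤ) ≤ (C + 1) ^ (d + 1) :=
    (by omega : (C : ℤ) ≤ C + 1).trans (le_self_pow₀ (by omega) (by omega))
  have h3 : |k| ^ (d + 1) ≤ (((C + 1) * B : ℕ) : ℤ) ^ (d + 1) := by
    push_cast
    rw [mul_pow]
    exact h1.trans (mul_le_mul_of_nonneg_right h2 (by positivity))
  exact le_of_pow_le_pow_left₀ (by omega) (by positivity) h3

end AMBc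

theorem p_AMB (hQUOT : S_QUOT) (hBOX : S_BOX) :
    S_AMB := by
  classical
  intro D
  obtain ⟨C, hC⟩ := hQUOT D
  refine ⟨(C + 3) * (D * D), fun p B e X hp hB => ?_⟩
  by_cases h : ∃ c, Bas p B e X c
  · obtain ⟨c0, h0⟩ := h
    obtain ⟨F, hF, hF2⟩ := hBOX D ((C + 1) * B)
    refine ⟨F.image fun κ => κ * c0, ?_, fun c hc => ?_⟩
    · refine card_image_le.trans (hF.trans ?_)
      rw [pow_mul B]
      exact Nat.pow_le_pow_left (AMBc.num C B hB) _
    · have hr : ∀ i, ∃ σ : Vc D, c i = σ ᵥ* c0 := fun i =>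
        (h0.1 _).1 ((hc.1 _).2 ⟨Pi.single i 1, by rw [single_one_vecMul]; rfl⟩)
      choose σ hσ using hr
      have e1 : (Matrix.of σ : Mt D) * c0 = c := by
        ext i j
        rw [hσ i]
        rfl
      refine mem_image.2 ⟨Matrix.of σ, hF2 _ fun i j => ?_, e1⟩
      have := hC _ _ _ _ _ e1 h0.2.2 hc.2.2 i j
      rw [h0.2.1] at this
      exact AMBc.ent (Fin.pos i) (by positivity) this
  · exact ⟨∅, by simp, fun c hc => (h ⟨c, hc⟩).elim⟩

end Pool.Agent.P.MP_246241_nt.EK
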