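import Pool.Agent.P.MP_246241_nt.EK.If

/-! Step BOX. -/

set_option autoImplicit false

namespace Pool.Agent.P.MP_246241_nt.EK

open Finset Matrix Real
open Pool.Agent.P.MP_bf60a1_an.RA

theorem p_BOX :
    S_BOX := by
  intro D R
  refine ⟨(Fintype.piFinset fun _ : Fin D => Fintype.piFinset fun _ : Fin D =>
    Finset.Icc (-(R : ℤ)) (R : ℤ) : Finset (Fin D → Fin D → ℤ)), ?_, fun g hg => ?_⟩
  · have h : #(Finset.Icc (-(R : ℤ)) (R : ℤ)) = 2 * R + 1 := by
      rw [Int.card_Icc]; omega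
    have h2 : #(Fintype.piFinset fun _ : Fin D => Fintype.piFinset fun _ : Fin D =>
        Finset.Icc (-(R : ℤ)) (R : ℤ)) = (2 * R + 1) ^ (D * D) := by
      rw [Fintype.card_piFinset_const, Fintype.card_piFinset_const, h, ← pow_mul]
    exact h2.le
  · refine Fintype.mem_piFinset.2 fun i => Fintype.mem_piFinset.2 fun j => ?_
    exact Finset.mem_Icc.2 (abs_le.1 (hg i j))

end Pool.Agent.P.MP_246241_nt.EK
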