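import Pool.Agent.P.MP_246241_nt.EK.If

/-! Step CHAR. -/

set_option autoImplicit false

namespace Pool.Agent.P.MP_246241_nt.EK

open Finset Matrix Real
open Pool.Agent.P.MP_bf60a1_an.RA

namespace CHARc

lemma common {D : ℕ} (S : Finset (Matrix (Fin D) (Fin D) ℂ)) :
    (∀ g ∈ S, ∀ h ∈ S, g * h = h * g) → ∀ U : Submodule ℂ (Fin D → ℂ), U ≠ ⊥ →
      (∀ g ∈ S, ∀ w ∈ U, g *ᵥ w ∈ U) →
      ∃ w ∈ U, w ≠ 0 ∧ ∀ g ∈ S, ∃ c : ℂ, g *ᵥ w = c • w := by
  classical
  induction S using Finset.induction_on with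
  | empty =>
    intro _ U hU _
    obtain ⟨w, hw, h0⟩ := (Submodule.ne_bot_iff U).1 hU
    exact ⟨w, hw, h0, by simp⟩
  | insert g S hg ih =>
    intro hc U hU hinv
    have hm : ∀ w ∈ U, Matrix.toLin' g w ∈ U := fun w hw => by
      rw [Matrix.toLin'_apply]; exact hinv g (mem_insert_self _ _) w hw
    have : Nontrivial U := Submodule.nontrivial_iff_ne_bot.2 hU
    obtain ⟨c, hcc⟩ := Module.End.exists_eigenvalue ((Matrix.toLin' g).restrict hm)
    obtain ⟨v, hv⟩ := hcc.exists_hasEigenvector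
    have hv1 : g *ᵥ (v : Fin D → ℂ) = c • (v : Fin D → ℂ) := by
      have := congrArg (fun z : U => (z : Fin D → ℂ)) hv.apply_eq_smul
      simpa [LinearMap.restrict_apply, Matrix.toLin'_apply] using this
    have hv0 : (v : Fin D → ℂ) ≠ 0 := fun h => hv.2 (Subtype.ext h)
    have mem : ∀ w : Fin D → ℂ, w ∈ U ⊓ Module.End.eigenspace (Matrix.toLin' g) c ↔
        w ∈ U ∧ g *ᵥ w = c • w := fun w => by
      rw [Submodule.mem_inf, Module.End.mem_eigenspace_iff, Matrix.toLin'_apply]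
    obtain ⟨w, hw, h0, hall⟩ := ih
      (fun a ha b hb => hc a (mem_insert_of_mem ha) b (mem_insert_of_mem hb))
      (U ⊓ Module.End.eigenspace (Matrix.toLin' g) c)
      ((Submodule.ne_bot_iff _).2 ⟨v, (mem v).2 ⟨v.2, hv1⟩, hv0⟩)
      (fun a ha w hw => by
        rw [mem] at hw ⊢
        refine ⟨hinv a (mem_insert_of_mem ha) w hw.1, ?_⟩
        rw [mulVec_mulVec, hc g (mem_insert_self _ _) a (mem_insert_of_mem ha), ← mulVec_mulVec,
          hw.2, mulVec_smul])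
    rw [mem] at hw
    refine ⟨w, hw.1, h0, fun a ha => ?_⟩
    rcases mem_insert.1 ha with rfl | ha
    · exact ⟨c, hw.2⟩
    · exact hall a ha

lemma indep {ι V : Type} [AddCommGroup V] [Module ℂ V] (f : ι → Module.End ℂ V)
    (hf : ∀ i j, Commute (f i) (f j)) :
    iSupIndep fun χ : ι → ℂ => ⨅ i, (f i).eigenspace (χ i) := by
  have hind := Module.End.independent_iInf_maxGenEigenspace_of_forall_mapsTo f
    (fun i j φ => Module.End.mapsTo_maxGenEigenspace_of_comm (hf j i) φ)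
  refine hind.mono fun χ => iInf_mono fun i => ?_
  exact ((f i).genEigenspace (χ i)).monotone le_top

lemma fin {ι V : Type} [AddCommGroup V] [Module ℂ V] [Module.Finite ℂ V]
    (p : ι → Submodule ℂ V) (hp : iSupIndep p) :
    ∃ Y : Finset ι, #Y ≤ Module.finrank ℂ V ∧ ∀ i, i ∈ Y ↔ p i ≠ ⊥ := by
  classical
  let _ := hp.fintypeNeBotOfFiniteDimensional
  refine ⟨(univ : Finset {i // p i ≠ ⊥}).image Subtype.val,
    card_image_le.trans ?_, fun i => ?_⟩
  · rw [card_univ]; exact hp.subtype_ne_bot_le_finrank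
  · simp

end CHARc

theorem p_CHAR :
    S_CHAR := by
  classical
  intro D S hc
  let f : S → Module.End ℂ (Fin D → ℂ) := fun g => Matrix.toLin' (g : Matrix (Fin D) (Fin D) ℂ)
  have hf : ∀ i j : S, Commute (f i) (f j) := fun i j => by
    refine LinearMap.ext fun w => ?_
    simp only [f, Module.End.mul_apply, Matrix.toLin'_apply, mulVec_mulVec, hc i i.2 j j.2]
  obtain ⟨Y, hY, hYm⟩ := CHARc.fin _ (CHARc.indep f hf)
  have memp : ∀ (χ : S → ℂ) (w : Fin D → ℂ), w ∈ (⨅ i, (f i).eigenspace (χ i)) ↔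
      ∀ i : S, (i : Matrix (Fin D) (Fin D) ℂ) *ᵥ w = χ i • w := fun χ w => by
    simp only [Submodule.mem_iInf, Module.End.mem_eigenspace_iff, f, Matrix.toLin'_apply]
  obtain ⟨ex, exs⟩ : ∃ ex : (S → ℂ) → Matrix (Fin D) (Fin D) ℂ → ℂ,
      ∀ (χ : S → ℂ) (g) (h : g ∈ S), ex χ g = χ ⟨g, h⟩ :=
    ⟨fun χ g => if h : g ∈ S then χ ⟨g, h⟩ else 0, fun χ g h => dif_pos h⟩
  refine ⟨Y.image ex, ?_, ?_, ?_⟩
  · refine card_image_le.trans ?_
    simpa using hY
  · intro χ hχ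
    obtain ⟨ψ, hψ, rfl⟩ := mem_image.1 hχ
    obtain ⟨w, hw, h0⟩ := (Submodule.ne_bot_iff _).1 ((hYm ψ).1 hψ)
    exact ⟨w, h0, fun g hg => by rw [exs _ g hg]; exact (memp _ w).1 hw ⟨g, hg⟩⟩
  · intro g hg h hh μ w h0 hw
    have mem : ∀ v : Fin D → ℂ, v ∈ LinearMap.ker (Matrix.toLin' (g - μ • h)) ↔
        g *ᵥ v = μ • (h *ᵥ v) := fun v => by
      rw [LinearMap.mem_ker, Matrix.toLin'_apply, sub_mulVec, smul_mulVec, sub_eq_zero]
    obtain ⟨v, hv, hv0, hall⟩ := CHARc.common S hc (LinearMap.ker (Matrix.toLin' (g - μ • h)))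
      ((Submodule.ne_bot_iff _).2 ⟨w, (mem w).2 hw, h0⟩)
      (fun a ha v hv => by
        rw [mem] at hv ⊢
        rw [mulVec_mulVec, mulVec_mulVec, hc g hg a ha, hc h hh a ha, ← mulVec_mulVec,
          ← mulVec_mulVec, hv, mulVec_smul])
    choose c hcv using hall
    have hpv := (memp (fun i => c i i.2) v).2 fun i => hcv i i.2
    refine ⟨ex fun i => c i i.2, mem_image.2 ⟨fun i => c i i.2,
      (hYm _).2 ((Submodule.ne_bot_iff _).2 ⟨v, hpv, hv0⟩), rfl⟩, ?_⟩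
    rw [exs _ g hg, exs _ h hh]
    rw [mem, hcv g hg, hcv h hh, smul_smul] at hv
    exact smul_left_injective ℂ hv0 hv

end Pool.Agent.P.MP_246241_nt.EK
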