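import Pool.Agent.P.MP_246241_nt.EK.If

/-! Step CLOC. -/

set_option autoImplicit false

namespace Pool.Agent.P.MP_246241_nt.EK

open Finset Matrix Real
open Pool.Agent.P.MP_bf60a1_an.RA

theorem p_CLOC (hALOC : S_ALOC) :
    S_CLOC := by
  intro Ω G X β κ _ _ P ac Γ Z V A K pj B s h1 hmul hs hs2 hF hA
  have key : ∀ w, 0 < P.p w →
      (P.cv V (V w)).Hc (fun ω => pj (ac (Γ ω) (Z ω))) Z ≤
        3 * s + 8 * (K : ℝ) ^ 2 * log (B / s) ^ 2 / s *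
          (((P.cv V (V w)).H Z - (P.cv V (V w)).Hc Z Γ) +
            ((P.cv V (V w)).H (fun ω => ac (Γ ω) (Z ω)) -
              (P.cv V (V w)).Hc (fun ω => ac (Γ ω) (Z ω)) Γ)) := by
    intro w hw
    obtain ⟨-, F, hFB, hF'⟩ := hF w hw
    refine hALOC Ω G X β (P.cv V (V w)) ac Γ Z A K pj F B s h1 hmul hs hs2 hFB
      (fun ω hω => ⟨(hF ω (P.cv_pos hω)).1, hF' ω (P.cv_pos hω) (P.cv_eq hw hω)⟩) ?_
    intro ω₁ ω₂ ω₀ a1 a2 a0 hne ω hω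
    have e := P.cv_eq hw hω
    exact hA ω₁ ω₂ ω₀ ω (P.cv_pos a1) (P.cv_pos a2) (P.cv_pos a0) (P.cv_pos hω)
      ((P.cv_eq hw a1).trans e.symm) ((P.cv_eq hw a2).trans e.symm)
      ((P.cv_eq hw a0).trans e.symm) hne
  have h := P.E_mono key
  rw [FP.E_Hc_cv, FP.E_add, FP.E_const, FP.E_mul_left, FP.E_add, FP.E_sub, FP.E_sub,
    FP.E_H_cv, FP.E_H_cv, FP.E_Hc_cv, FP.E_Hc_cv] at h
  exact h

end Pool.Agent.P.MP_246241_nt.EK
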