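import Pool.Agent.P.MP_246241_nt.EK.If

/-! Step CNT. -/

set_option autoImplicit false

namespace Pool.Agent.P.MP_246241_nt.EK

open Finset Matrix Real
open Pool.Agent.P.MP_bf60a1_an.RA

namespace CNTc

variable {D : ℕ}

/-- an integer matrix read over the complex numbers -/
noncomputable def cm (N : Mt D) : Matrix (Fin D) (Fin D) ℂ := (Int.castRingHom ℂ).mapMatrix N

theorem cm_eq (N : Mt D) : cm N = N.map (Int.cast : ℤ → ℂ) := rfl
theorem cm_mul (A B : Mt D) : cm (A * B) = cm A * cm B := map_mul _ _ _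
theorem cm_sub (A B : Mt D) : cm (A - B) = cm A - cm B := map_sub _ _ _
theorem cm_one : cm (1 : Mt D) = 1 := map_one _
theorem cm_det (A : Mt D) : (cm A).det = (A.det : ℂ) :=
  ((Int.castRingHom ℂ).map_det A).symm
theorem cm_bd {A : Mt D} {R : ℕ} (h : Bd A R) (i j : Fin D) : ‖cm A i j‖ ≤ (R : ℝ) := by
  have : cm A i j = ((A i j : ℤ) : ℂ) := rfl
  rw [this, Complex.norm_intCast]
  exact_mod_cast h i j

theorem inv_eig (g : Gl D) {w : Fin D → ℂ} (hw : w ≠ 0) {μ : ℂ}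
    (h : cm (g : Mt D) *ᵥ w = μ • w) :
    μ ≠ 0 ∧ cm ((g⁻¹ : Gl D) : Mt D) *ᵥ w = μ⁻¹ • w := by
  have e : μ • (cm ((g⁻¹ : Gl D) : Mt D) *ᵥ w) = w := by
    rw [← mulVec_smul, ← h, mulVec_mulVec, ← cm_mul, Units.inv_mul, cm_one, one_mulVec]
  have h0 : μ ≠ 0 := by
    rintro rfl
    exact hw (by rw [← e, zero_smul])
  refine ⟨h0, ?_⟩
  conv_rhs => rw [← e]
  rw [smul_smul, inv_mul_cancel₀ h0, one_smul]

theorem root_mem (N : Mt D) {w : Fin D → ℂ} (hw : w ≠ 0) {μ : ℂ} (h : cm N *ᵥ w = μ • w) :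
    μ ∈ (N.charpoly.map (Int.castRingHom ℂ)).roots := by
  rw [Polynomial.mem_roots (N.charpoly_monic.map _).ne_zero, Polynomial.IsRoot.def,
    ← Matrix.charpoly_map, Matrix.eval_charpoly, ← Matrix.exists_mulVec_eq_zero_iff]
  refine ⟨w, hw, ?_⟩
  have : N.map (Int.castRingHom ℂ) = cm N := rfl
  rw [sub_mulVec, this, h]
  ext i
  simp [scalar_apply]

theorem ratio {a b : ℝ} (ha : 0 < a) (hb : 0 < b) (h : ⌊log a⌋ = ⌊log b⌋) : a ≤ 3 * b := by
  have h1 : log a < log b + 1 := by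
    have := Int.lt_floor_add_one (log a)
    have := Int.floor_le (log b)
    rw [h] at *
    linarith
  have h2 : a < b * exp 1 := by
    rw [← exp_log ha, ← exp_log hb, ← exp_add]
    exact exp_lt_exp.2 h1
  have := exp_one_lt_d9
  nlinarith

end CNTc

open CNTc in
theorem p_CNT (hEIG : S_EIG) (hCOEF : S_COEF) (hCHAR : S_CHAR) :
    S_CNT := by
  classical
  intro D
  rcases Nat.eq_zero_or_pos D with rfl | hD
  · refine ⟨1, fun S R _ _ _ _ => ?_⟩
    have : #S ≤ 1 := card_le_one.2 fun a _ b _ => Units.ext (Subsingleton.elim _ _)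
    simpa using this
  have hfin := Polynomial.bUnion_roots_finite (Int.castRingHom ℂ) D
    (Set.finite_Icc (-(6 : ℤ) ^ D) (6 ^ D))
  set Zs := hfin.toFinset with hZs
  refine ⟨#Zs * (2 * log D + 3) ^ D, fun S R hR hcomm hbd hdet => ?_⟩
  have hD1 : (1 : ℝ) ≤ D := by exact_mod_cast hD
  have hR1 : (1 : ℝ) ≤ R := by exact_mod_cast hR
  have lD := log_nonneg hD1
  have lR := log_nonneg hR1
  rcases S.eq_empty_or_nonempty with rfl | ⟨g0, hg0⟩
  · simp only [card_empty, Nat.cast_zero]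
    positivity
  obtain ⟨X, hX, hev, hch⟩ := hCHAR D (S.image fun g : Gl D => cm (g : Mt D)) (by
    intro a ha b hb
    obtain ⟨g, hg, rfl⟩ := mem_image.1 ha
    obtain ⟨h, hh, rfl⟩ := mem_image.1 hb
    rw [← cm_mul, ← cm_mul, ← Units.val_mul, hcomm g hg h hh, Units.val_mul])
  have him : ∀ g ∈ S, cm (g : Mt D) ∈ S.image fun g : Gl D => cm (g : Mt D) :=
    fun g hg => mem_image_of_mem _ hg
  have hne : ∀ χ ∈ X, ∀ g ∈ S, χ (cm (g : Mt D)) ≠ 0 := fun χ hχ g hg => by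
    obtain ⟨w, hw, h⟩ := hev χ hχ
    exact (inv_eig g hw (h _ (him g hg))).1
  set K : ℕ := ⌈log (D * R)⌉₊ with hK
  have hDR : (0 : ℝ) < D * R := by positivity
  let cell : Gl D → X → ℤ := fun g χ => ⌊log ‖χ.1 (cm (g : Mt D))‖⌋
  have hcell : ∀ g ∈ S, cell g ∈ Fintype.piFinset fun _ : X => Icc (-(K : ℤ)) K := by
    intro g hg
    rw [Fintype.mem_piFinset]
    rintro ⟨χ, hχ⟩
    obtain ⟨w, hw, h⟩ := hev χ hχ
    have h1 := h _ (him g hg)
    obtain ⟨h0, h2⟩ := inv_eig g hw h1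
    have a1 := hEIG D _ R _ w (cm_bd (hbd g hg).1) hw h1
    have a2 := hEIG D _ R _ w (cm_bd (hbd g hg).2) hw h2
    have p0 : 0 < ‖χ (cm (g : Mt D))‖ := norm_pos_iff.2 h0
    rw [norm_inv] at a2
    have b1 := log_le_log p0 a1
    have b2 := log_le_log (inv_pos.2 p0) a2
    rw [log_inv] at b2
    have b3 : log (D * R) ≤ K := Nat.le_ceil _
    rw [mem_Icc]
    constructor
    · rw [Int.le_floor]; push_cast; linarith
    · have : ((⌊log ‖χ (cm (g : Mt D))‖⌋ : ℤ) : ℝ) ≤ ((K : ℤ) : ℝ) := by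
        push_cast; exact (Int.floor_le _).trans (b1.trans b3)
      exact_mod_cast this
  obtain ⟨χ0, hχ0, -⟩ := hch _ (him g0 hg0) _ (him g0 hg0) 1 (fun _ => 1)
    (fun h => one_ne_zero (congrFun h ⟨0, hD⟩)) (one_smul _ _).symm
  obtain ⟨w0, hw0, hw1⟩ := hev χ0 hχ0
  have hfib : ∀ c ∈ S.image cell, #{g ∈ S | cell g = c} ≤ #Zs := by
    intro c hc
    obtain ⟨h, hh, rfl⟩ := mem_image.1 hc
    refine card_le_card_of_injOn (fun g => χ0 (cm (g : Mt D)) * (χ0 (cm (h : Mt D)))⁻¹) ?_ ?_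
    · intro g hg
      obtain ⟨hg, hgc⟩ := mem_filter.1 hg
      have hco := hCOEF D ((h⁻¹ * g : Gl D) : Mt D) 3 (by norm_num) (fun μ w hw he => by
        have e : cm (g : Mt D) *ᵥ w = μ • (cm (h : Mt D) *ᵥ w) := by
          rw [← mulVec_smul, ← he, ← cm_eq, mulVec_mulVec, ← cm_mul, ← Units.val_mul,
            mul_inv_cancel_left]
        obtain ⟨χ, hχ, e2⟩ := hch _ (him g hg) _ (him h hh) μ w hw e
        have p1 := norm_pos_iff.2 (hne χ hχ g hg)
        have p2 := norm_pos_iff.2 (hne χ hχ h hh)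
        have r := ratio p1 p2 (congrFun hgc ⟨χ, hχ⟩)
        rw [e2, norm_mul] at r
        exact le_of_mul_le_mul_right r p2)
      have hr : χ0 (cm (g : Mt D)) * (χ0 (cm (h : Mt D)))⁻¹ ∈
          (((h⁻¹ * g : Gl D) : Mt D).charpoly.map (Int.castRingHom ℂ)).roots := by
        refine root_mem _ hw0 ?_
        rw [Units.val_mul, cm_mul, ← mulVec_mulVec, hw1 _ (him g hg), mulVec_smul,
          (inv_eig h hw0 (hw1 _ (him h hh))).2, smul_smul]
      rw [mem_coe, hZs, Set.Finite.mem_toFinset]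
      refine Set.mem_iUnion.2 ⟨_, Set.mem_iUnion.2 ⟨⟨?_, fun i => ?_⟩,
        mem_coe.2 (Multiset.mem_toFinset.2 hr)⟩⟩
      · rw [Matrix.charpoly_natDegree_eq_dim, Fintype.card_fin]
      · have := hco i
        rw [Set.mem_Icc, ← abs_le]
        norm_num at this
        exact_mod_cast this
    · intro g hg g' hg' e
      have hg := (mem_filter.1 (mem_coe.1 hg)).1
      have hg' := (mem_filter.1 (mem_coe.1 hg')).1
      have e1 := mul_right_cancel₀ (inv_ne_zero (hne χ0 hχ0 h hh)) e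
      refine hdet g hg g' hg' ?_
      have : (cm ((g : Mt D) - (g' : Mt D))).det = 0 := by
        rw [← Matrix.exists_mulVec_eq_zero_iff]
        exact ⟨w0, hw0, by rw [cm_sub, sub_mulVec, hw1 _ (him g hg), hw1 _ (him g' hg'), e1,
          sub_self]⟩
      rw [cm_det] at this
      exact_mod_cast this
  have h1 := card_le_mul_card_image S _ hfib
  have h2 : #(S.image cell) ≤ (2 * K + 1) ^ D := by
    refine (card_le_card (image_subset_iff.2 hcell)).trans ?_
    rw [Fintype.card_piFinset, prod_const, Int.card_Icc, card_univ, Fintype.card_coe]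
    have : ((K : ℤ) + 1 - -(K : ℤ)).toNat = 2 * K + 1 := by omega
    rw [this]
    exact Nat.pow_le_pow_right (by omega) hX
  have h3 : (2 * K + 1 : ℝ) ≤ (2 * log D + 3) * (1 + log R) := by
    have : (K : ℝ) < log (D * R) + 1 := Nat.ceil_lt_add_one (log_nonneg (by nlinarith))
    rw [log_mul (by positivity) (by positivity)] at this
    nlinarith [mul_nonneg lD lR]
  have h4 : (#S : ℝ) ≤ #Zs * (2 * K + 1) ^ D := by
    exact_mod_cast h1.trans (Nat.mul_le_mul_left _ h2)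
  rw [mul_assoc, ← mul_pow]
  exact h4.trans (mul_le_mul_of_nonneg_left (pow_le_pow_left₀ (by positivity) h3 _)
    (by positivity))

end Pool.Agent.P.MP_246241_nt.EK
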