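import Pool.Agent.P.MP_246241_nt.EK.If

/-! Step COEF. -/

set_option autoImplicit false

namespace Pool.Agent.P.MP_246241_nt.EK

open Finset Matrix Real
open Pool.Agent.P.MP_bf60a1_an.RA

theorem p_COEF :
    S_COEF := by
  intro D N ρ hρ h i
  have hm : (N.map (Int.cast : ℤ → ℂ)).charpoly = N.charpoly.map (Int.castRingHom ℂ) :=
    Matrix.charpoly_map N (Int.castRingHom ℂ)
  have hmon : (N.map (Int.cast : ℤ → ℂ)).charpoly.Monic := Matrix.charpoly_monic _
  have hdeg : (N.map (Int.cast : ℤ → ℂ)).charpoly.natDegree = D := by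
    rw [Matrix.charpoly_natDegree_eq_dim, Fintype.card_fin]
  have hb := Polynomial.coeff_bdd_of_roots_le (B := ρ) (d := D) (RingHom.id ℂ) hmon
    (IsAlgClosed.splits _) hdeg.le (fun z hz => by
      rw [Polynomial.map_id] at hz
      have h0 := Polynomial.isRoot_of_mem_roots hz
      rw [Polynomial.IsRoot.def, Matrix.eval_charpoly] at h0
      obtain ⟨w, hw, e⟩ := Matrix.exists_mulVec_eq_zero_iff.2 h0
      refine h z w hw ?_
      rw [Matrix.sub_mulVec, sub_eq_zero] at e
      rw [← e]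
      ext j
      simp [Matrix.scalar_apply, Matrix.mulVec_diagonal]) i
  rw [Polynomial.map_id, hm, Polynomial.coeff_map, max_eq_left hρ] at hb
  have h1 : ‖(Int.castRingHom ℂ) (N.charpoly.coeff i)‖ = |(N.charpoly.coeff i : ℝ)| := by
    simp
  have h2 : ((D.choose (D / 2) : ℕ) : ℝ) ≤ 2 ^ D := by
    exact_mod_cast Nat.choose_le_two_pow D (D / 2)
  rw [h1] at hb
  calc _ ≤ ρ ^ D * (D.choose (D / 2) : ℕ) := hb
    _ ≤ ρ ^ D * 2 ^ D := by gcongr
    _ = (2 * ρ) ^ D := by rw [mul_pow, mul_comm]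

end Pool.Agent.P.MP_246241_nt.EK
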