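import Pool.Agent.P.MP_246241_nt.EK.If

/-! Step CORE. -/

set_option autoImplicit false

namespace Pool.Agent.P.MP_246241_nt.EK

open Finset Matrix Real
open Pool.Agent.P.MP_bf60a1_an.RA

theorem p_CORE (hENT : S_ENT) (hFRAME : S_FRAME) :
    S_CORE := by
  classical
  intro n
  obtain ⟨a, ha⟩ := hFRAME n
  obtain ⟨A, hA⟩ := hENT n
  refine ⟨(a + 1) * A + 1, Nat.le_add_left _ _, fun p H T z hp hH hT => ?_⟩
  have h2 : 2 ≤ H := hp.two_le.trans hH
  have hB : H ≤ H ^ (a + 1) := Nat.le_self_pow (Nat.succ_ne_zero a) H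
  have hB' : H ^ a ≤ H ^ (a + 1) := Nat.pow_le_pow_right (by omega) (Nat.le_succ a)
  have hT' : 2 ^ (H ^ (a + 1)) ^ A ≤ T := by
    refine le_trans (Nat.pow_le_pow_right (by norm_num) ?_) hT
    rw [← pow_mul]
    exact Nat.pow_le_pow_right (by omega) (Nat.le_succ _)
  have hpT : (0 : ℤ) < (p : ℤ) ^ T := by have := hp.pos; positivity
  obtain ⟨S, hS⟩ : ∃ S : Finset (Vc n), S = (Fintype.piFinset fun i =>
      Finset.Ico ((p : ℤ) ^ T * z i) ((p : ℤ) ^ T * (z i + 1))).filter
        fun x => pre p T x = z ∧ Good p (H ^ (a + 1)) T x := ⟨_, rfl⟩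
  refine ⟨S, ?_, fun x hx hs => ?_⟩
  · rcases S.eq_empty_or_nonempty with h0 | h0
    · rw [h0]; simp only [card_empty, Nat.cast_zero, log_zero]; positivity
    · have c0 : (0 : ℝ) < #S := by exact_mod_cast h0.card_pos
      let P : FP S := ⟨fun _ => 1 / #S, fun _ => by positivity, by
        rw [sum_const, card_univ, Fintype.card_coe, nsmul_eq_mul]; field_simp⟩
      have k := hA p (H ^ (a + 1)) T z S P Subtype.val hp (hH.trans hB) hT' fun ω _ =>
        (mem_filter.1 (hS.le ω.2)).2
      have e : log (#S) ≤ P.H Subtype.val := P.le_E fun ω _ => by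
        have : P.cl Subtype.val ω = 1 / #S := by
          simp only [FP.cl, FP.pr, FP.E]
          rw [sum_eq_single ω]
          · rw [ind_pos rfl, mul_one]
          · intro b _ hb
            rw [ind_neg fun h => hb (Subtype.ext h), mul_zero]
          · intro h; exact absurd (mem_univ ω) h
        rw [this, one_div, log_inv, neg_neg]
      refine e.trans (k.trans (div_le_div_of_nonneg_left (Nat.cast_nonneg _) ?_ ?_))
      · exact_mod_cast (by omega : 0 < H)
      · exact_mod_cast hB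
  · rw [hS, mem_filter, Fintype.mem_piFinset]
    refine ⟨fun i => ?_, hx, fun t ht l hl => ⟨fun h => hs t ht l hl (h.mono hB), ?_⟩⟩
    · have e : x i / (p : ℤ) ^ T = z i := congrFun hx i
      rw [← e, Finset.mem_Ico]
      exact ⟨Int.mul_ediv_self_le hpT.ne', Int.lt_mul_ediv_self_add hpT |>.trans_eq (by ring)⟩
    · obtain ⟨g, hg⟩ := ha p H l _ hp.pos h2 (hs t ht l hl)
      exact ⟨g, hg.mono hB'⟩

end Pool.Agent.P.MP_246241_nt.EK
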