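import Pool.Agent.P.MP_246241_nt.EK.If

/-! Step DIM. -/

set_option autoImplicit false

namespace Pool.Agent.P.MP_246241_nt.EK

open Finset Matrix Real
open Pool.Agent.P.MP_bf60a1_an.RA

namespace DIMc

lemma bound {b : ℕ} (hb : 2 ≤ b) {s : ℝ} (l : ℕ) {c : ℝ}
    (hc : c ≤ exp (s * log b * l)) : c * (((b : ℝ) ^ l)⁻¹) ^ s ≤ 1 := by
  have hb0 : (0 : ℝ) < b := by exact_mod_cast (by omega : 0 < b)
  have hp : (0 : ℝ) < ((b : ℝ) ^ l)⁻¹ := by positivity
  have e : (((b : ℝ) ^ l)⁻¹) ^ s = exp (-(s * log b * l)) := by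
    rw [Real.rpow_def_of_pos hp, Real.log_inv, Real.log_pow]; congr 1; ring
  rw [e]
  calc c * exp (-(s * log b * l)) ≤ exp (s * log b * l) * exp (-(s * log b * l)) :=
        mul_le_mul_of_nonneg_right hc (exp_pos _).le
    _ = 1 := by rw [← Real.exp_add]; simp

lemma diam {n : ℕ} {Q : ℝ} (hQ : 0 < Q) (v : Vc n) :
    Metric.ediam {α : Fin n → ℝ | (fun i => ⌊Q * α i⌋) = v} ≤ ENNReal.ofReal Q⁻¹ := by
  refine Metric.ediam_le fun x hx y hy => ?_
  rw [edist_le_ofReal (by positivity), dist_pi_le_iff (by positivity)]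
  intro i
  have h : ⌊Q * x i⌋ = ⌊Q * y i⌋ := (congrFun hx i).trans (congrFun hy i).symm
  have h1 := (Int.abs_sub_lt_one_of_floor_eq_floor h).le
  rw [← mul_sub, abs_mul, abs_of_pos hQ] at h1
  rw [Real.dist_eq, ← one_div, le_div_iff₀ hQ, mul_comm]
  exact h1

end DIMc

theorem p_DIM :
    S_DIM := by
  intro n b E hb h
  have hb1 : (1 : ℝ) < b := by exact_mod_cast (by omega : 1 < b)
  refine le_antisymm ?_ zero_le
  refine ENNReal.le_of_forall_pos_le_add fun s hs _ => ?_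
  rw [zero_add]
  refine dimH_le_of_hausdorffMeasure_ne_top ?_
  have hs' : (0 : ℝ) < s := hs
  choose T hT F hF hE using h ((s : ℝ) * log b) (mul_pos hs' (Real.log_pos hb1))
  have hTt : Filter.Tendsto T Filter.atTop Filter.atTop :=
    Filter.tendsto_atTop_mono hT Filter.tendsto_id
  have hr : Filter.Tendsto (fun l : ℕ => ENNReal.ofReal (((b : ℝ) ^ T l)⁻¹)) Filter.atTop
      (nhds 0) := by
    rw [← ENNReal.ofReal_zero]
    exact ENNReal.tendsto_ofReal
      ((tendsto_pow_atTop_atTop_of_one_lt hb1).comp hTt).inv_tendsto_atTop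
  have hQ : ∀ l, (0 : ℝ) < (b : ℝ) ^ T l := fun l => by positivity
  have key := MeasureTheory.Measure.hausdorffMeasure_le_liminf_sum (ι := fun l : ℕ => F l)
    (s : ℝ) E (fun l : ℕ => ENNReal.ofReal (((b : ℝ) ^ T l)⁻¹)) hr
    (fun l v => {α : Fin n → ℝ | (fun i => ⌊(b : ℝ) ^ T l * α i⌋) = (v : Vc n)})
    (Filter.Eventually.of_forall fun l v => DIMc.diam (hQ l) v.1)
    (Filter.Eventually.of_forall fun l α hα => Set.mem_iUnion.2 ⟨⟨_, hE l α hα⟩, rfl⟩)
  refine ne_top_of_le_ne_top ENNReal.one_ne_top (key.trans ?_)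
  refine Filter.liminf_le_of_frequently_le' (Filter.Eventually.frequently ?_)
  refine Filter.Eventually.of_forall fun l => ?_
  refine (sum_le_sum fun v _ => ENNReal.rpow_le_rpow (DIMc.diam (hQ l) v.1) hs'.le).trans ?_
  have hp : (0 : ℝ) ≤ ((b : ℝ) ^ T l)⁻¹ := by positivity
  simp only [sum_const, card_univ, Fintype.card_coe, nsmul_eq_mul]
  rw [ENNReal.ofReal_rpow_of_nonneg hp hs'.le, ← ENNReal.ofReal_natCast,
    ← ENNReal.ofReal_mul (Nat.cast_nonneg _)]
  refine ENNReal.ofReal_le_one.2 (DIMc.bound hb (T l) ?_)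
  rcases Nat.eq_zero_or_pos (F l).card with h0 | h0
  · rw [h0, Nat.cast_zero]; exact (exp_pos _).le
  · exact (Real.log_le_iff_le_exp (by exact_mod_cast h0)).1 (hF l)

end Pool.Agent.P.MP_246241_nt.EK
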