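import Pool.Agent.P.MP_246241_nt.EK.If

/-! Step EIG. -/

set_option autoImplicit false

namespace Pool.Agent.P.MP_246241_nt.EK

open Finset Matrix Real
open Pool.Agent.P.MP_bf60a1_an.RA

theorem p_EIG :
    S_EIG := by
  intro D N R μ w hN hw he
  obtain ⟨a, ha⟩ : ∃ a, w a ≠ 0 := by
    by_contra h
    push Not at h
    exact hw (funext h)
  obtain ⟨i, -, hi⟩ := exists_max_image (univ : Finset (Fin D)) (fun j => ‖w j‖) ⟨a, mem_univ a⟩
  have hpos : 0 < ‖w i‖ := lt_of_lt_of_le (norm_pos_iff.2 ha) (hi a (mem_univ a))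
  have h1 : μ * w i = ∑ j, N i j * w j := by
    have := congrFun he i
    rw [Pi.smul_apply, smul_eq_mul] at this
    rw [← this]; rfl
  have h2 : ‖μ‖ * ‖w i‖ ≤ ∑ _j : Fin D, R * ‖w i‖ := by
    rw [← norm_mul, h1]
    refine (norm_sum_le _ _).trans (sum_le_sum fun j _ => ?_)
    rw [norm_mul]
    exact mul_le_mul (hN i j) (hi j (mem_univ j)) (norm_nonneg _)
      ((norm_nonneg _).trans (hN i j))
  rw [sum_const, card_univ, Fintype.card_fin, nsmul_eq_mul, ← mul_assoc] at h2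
  exact le_of_mul_le_mul_right h2 hpos

end Pool.Agent.P.MP_246241_nt.EK
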