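import Pool.Agent.P.MP_246241_nt.EK.If

/-! Step ENT. -/

set_option autoImplicit false

namespace Pool.Agent.P.MP_246241_nt.EK

open Finset Matrix Real
open Pool.Agent.P.MP_bf60a1_an.RA

theorem p_ENT (hTWO : S_TWO) (hITER : S_ITER) (hHP : S_HP) (hHD : S_HD) (hNUM : S_NUM) :
    S_ENT := by
  intro n
  obtain ⟨C₀, A, hC, h2⟩ := hTWO n
  obtain ⟨A', hN⟩ := hNUM n C₀ A hC
  refine ⟨A', fun p B T z Ω _ P a hp hpB hT hG => ?_⟩
  obtain ⟨Q, hQ1, hQ2, h3⟩ := h2 p B hp hpB
  have hB2 : 2 ≤ B := hp.two_le.trans hpB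
  obtain ⟨T₀, r, n1, n2, n3, n4⟩ := hN B T Q hB2 hQ1 hQ2 hT
  have hB : (2 : ℝ) ≤ B := by exact_mod_cast hB2
  have hBA : 1 ≤ B ^ A := Nat.one_le_pow _ _ (by omega)
  have hlog : log p ≤ B := by
    have h1 : (0 : ℝ) < p := by exact_mod_cast hp.pos
    have h4 : (p : ℝ) ≤ B := by exact_mod_cast hpB
    linarith [log_le_sub_one_of_pos h1]
  have hlog0 : 0 ≤ log p := log_natCast_nonneg p
  set k : ℕ → ℕ := fun s => B ^ A * (B ^ A) ^ s with hk
  have k1 : ∀ s, B ^ A ≤ k s := fun s =>
    Nat.le_mul_of_pos_right _ (Nat.one_le_pow _ _ hBA)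
  have k2 : ∀ s ≤ r, k s ≤ k r := fun s hs =>
    Nat.mul_le_mul_left _ (Nat.pow_le_pow_right hBA hs)
  have k3 : ∀ s, C₀ * k (s + 1) = B ^ A * (C₀ * k s) := fun s => by simp only [hk]; ring
  set f : ℕ → ℕ → ℕ → ℝ := fun s t m =>
    if m + C₀ * k s ≤ T₀ then P.H (yy p B T a (C₀ * k s) t m) / (C₀ * k s : ℕ) else 0 with hf
  have f0 : ∀ s t m, 0 ≤ f s t m := fun s t m => by
    simp only [hf]
    split_ifs
    · exact div_nonneg (P.H_nonneg _) (Nat.cast_nonneg _)
    · exact le_rfl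
  have f1 : ∀ s t m, f s t m ≤ (n + 1) * B := fun s t m => by
    simp only [hf]
    split_ifs
    · have hL : (0 : ℝ) < (C₀ * k s : ℕ) := by
        exact_mod_cast Nat.mul_pos hC (lt_of_lt_of_le hBA (k1 s))
      rw [div_le_iff₀ hL]
      have := (hHD (n + 1) p (C₀ * k s) Ω P hp.pos).1 fun ω => col (gg p B T a t m ω)
      refine le_trans this ?_
      have h5 := mul_le_mul_of_nonneg_left hlog
        (show (0 : ℝ) ≤ ((n + 1 : ℕ) : ℝ) * (C₀ * k s : ℕ) by positivity)
      refine h5.trans (le_of_eq ?_)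
      push_cast
      ring
    · positivity
  have hne : (range (T₀ + 1)).Nonempty := ⟨0, by simp⟩
  have hU : (1 : ℝ) ≤ (n + 1) * B := by
    have : (0 : ℝ) ≤ n := Nat.cast_nonneg n
    nlinarith
  have key := hITER (fun s t => (range (T₀ + 1)).sup' hne (f s t)) (fun t => P.H (xx p T a t)) k Q
    ((n + 1) * B) (1 / B) T₀ T r (by positivity) hQ1 hU
    (fun s t => ⟨(f0 s t 0).trans (le_sup' (f s t) (by simp)), sup'_le _ _ fun m _ => f1 s t m⟩)
    (by
      refine le_of_eq ?_
      rw [← P.H_const z]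
      exact P.H_ae fun ω hω => (hG ω hω).1)
    (fun t => by
      obtain ⟨a1, a2⟩ := hHP n p T t Ω P a hp.pos
      refine ⟨a1, a2.trans ?_⟩
      have : (n : ℝ) * log p ≤ n * B := mul_le_mul_of_nonneg_left hlog (Nat.cast_nonneg n)
      nlinarith)
    (fun s hs => by
      have h5 : (k s : ℝ) ≤ k r := by exact_mod_cast k2 s hs.le
      refine ⟨hBA.trans (k1 s), le_trans ?_ n2, le_trans ?_ n3⟩
      · exact mul_le_mul_of_nonneg_right (by linarith) (by positivity)
      · exact mul_le_mul_of_nonneg_right (mul_le_mul_of_nonneg_right h5 (by positivity))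
          (by linarith))
    (fun s hs t ht htT => by
      have main : ∀ m, m + C₀ * k (s + 1) ≤ T₀ → f (s + 1) t m ≤
          (range (T₀ + 1)).sup' hne (f s (t + k s)) -
            ((P.H (xx p T a (t + k s)) - P.H (xx p T a t)) / k s - 1 / B / 4) / Q +
              1 / B / (16 * Q) := by
        intro m hm
        obtain ⟨m', hm', h6⟩ := h3 T t (k s) (B ^ A) m Ω P a (k1 s) le_rfl htT
          (by rw [← k3]; omega) fun ω hω => (hG ω hω).2
        rw [← k3] at hm' h6
        have h7 : m' + C₀ * k s ≤ T₀ := hm'.trans hm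
        have h8 : f s (t + k s) m' ≤ (range (T₀ + 1)).sup' hne (f s (t + k s)) :=
          le_sup' (f s (t + k s)) (mem_range.2 (by omega))
        simp only [hf, if_pos h7] at h8
        simp only [hf, if_pos hm]
        linarith
      refine sup'_le _ _ fun m _ => ?_
      by_cases hm : m + C₀ * k (s + 1) ≤ T₀
      · exact main m hm
      · have h9 : 0 + C₀ * k (s + 1) ≤ T₀ := by
          have := Nat.mul_le_mul_left C₀ (k2 (s + 1) hs)
          simp only [hk] at this ⊢
          omega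
        refine le_trans ?_ ((f0 (s + 1) t 0).trans (main 0 h9))
        simp only [hf, if_neg hm, le_refl])
    n4
  have e : xx p T a T = a := by
    funext ω
    rw [xx, Nat.sub_self, pre_zero]
  simp only [e] at key
  rwa [one_div, ← div_eq_inv_mul] at key

end Pool.Agent.P.MP_246241_nt.EK
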