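import Pool.Agent.P.MP_246241_nt.EK.If

/-! Step FANO. -/

set_option autoImplicit false

namespace Pool.Agent.P.MP_246241_nt.EK

open Finset Matrix Real
open Pool.Agent.P.MP_bf60a1_an.RA

namespace FANOc

theorem one {Ω β : Type} [Fintype Ω] (Q : FP Ω) (W : Ω → β) (b : β) (F : Finset β) {B s : ℝ}
    (h0 : 0 < s) (h1 : s ≤ 1 / 2) (hB : (#F : ℝ) ≤ B) (hF : ∀ ω, 0 < Q.p ω → W ω ∈ F) :
    Q.H W ≤ 2 * s + log (B / s) * Q.pr fun ω => W ω ≠ b := by
  classical
  obtain ⟨ω₀, hω₀⟩ := Q.exists_pos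
  have hB0 : 0 < B := lt_of_lt_of_le (by exact_mod_cast card_pos.2 ⟨_, hF ω₀ hω₀⟩) hB
  have hs : 0 < 1 - s := by linarith
  have hg : ∀ a, 0 < ind (b = a) * (1 - s) + s / B := fun a =>
    add_pos_of_nonneg_of_pos (mul_nonneg (ind_nonneg _) hs.le) (div_pos h0 hB0)
  have hS : ∑ a ∈ F, (ind (b = a) * (1 - s) + s / B) ≤ 1 := by
    rw [sum_add_distrib, sum_const, nsmul_eq_mul]
    have e1 : ∑ a ∈ F, ind (b = a) * (1 - s) ≤ 1 - s := by
      refine (sum_le_sum_of_subset_of_nonneg (subset_insert b F) fun a _ _ =>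
        mul_nonneg (ind_nonneg _) hs.le).trans (le_of_eq ?_)
      exact sum_ind_eq _ (fun _ => 1 - s) (mem_insert_self b F)
    have e2 : (#F : ℝ) * (s / B) ≤ s := by
      rw [← mul_div_assoc, div_le_iff₀ hB0, mul_comm]
      exact mul_le_mul_of_nonneg_left hB h0.le
    linarith
  have h := Q.gibbs W (g := fun ω => ind (b = W ω) * (1 - s) + s / B) (S := 1)
    (fun ω _ => hg _) ((Q.E_div_cl_le W (g := fun a => ind (b = a) * (1 - s) + s / B) F
      (fun a _ => (hg a).le) fun ω hω => Or.inr ⟨hF ω hω, le_rfl⟩).trans hS)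
  have h2 : (Q.E fun ω => -(2 * s + log (B / s) * ind (W ω ≠ b))) ≤
      Q.E fun ω => log (ind (b = W ω) * (1 - s) + s / B) := Q.E_mono fun ω _ => by
    by_cases e : W ω = b
    · rw [ind_pos e.symm, ind_neg (not_not.2 e), one_mul, mul_zero, add_zero]
      have h3 : log (1 - s) ≤ log (1 - s + s / B) :=
        log_le_log hs (le_add_of_nonneg_right (div_pos h0 hB0).le)
      have h4 := one_sub_inv_le_log_of_pos hs
      have h5 : (1 - s)⁻¹ ≤ 1 + 2 * s := by
        rw [inv_le_iff_one_le_mul₀ hs]; nlinarith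
      linarith
    · rw [ind_neg (Ne.symm e), ind_pos e, zero_mul, zero_add, mul_one, ← inv_div B s, log_inv]
      linarith
  rw [Q.E_neg, Q.E_add, Q.E_const, Q.E_mul_left] at h2
  rw [log_one] at h
  unfold FP.pr
  linarith

end FANOc

theorem p_FANO :
    S_FANO := by
  intro Ω β γ _ P W W₀ Z F B s h0 h1 hB hF hD
  rw [← P.E_H_cv]
  have ht := P.tower Z fun _ ω => ind (W ω ≠ W₀ ω)
  calc (P.E fun ω => (P.cv Z (Z ω)).H W)
      ≤ P.E fun ω => 2 * s + log (B / s) * (P.cv Z (Z ω)).E fun x => ind (W x ≠ W₀ x) := by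
        refine P.E_mono fun ω hω => ?_
        refine (FANOc.one _ W (W₀ ω) F h0 h1 hB fun x hx => hF x (P.cv_pos hx)).trans (le_of_eq ?_)
        congr 2
        exact FP.E_congr _ fun x hx => by rw [hD x ω (P.cv_pos hx) hω (P.cv_eq hω hx)]
    _ = _ := by rw [P.E_add, P.E_const, P.E_mul_left, ht]; rfl

end Pool.Agent.P.MP_246241_nt.EK
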