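import Pool.Agent.P.MP_246241_nt.EK.If

/-! Step FEW. -/

set_option autoImplicit false

namespace Pool.Agent.P.MP_246241_nt.EK

open Finset Matrix Real
open Pool.Agent.P.MP_bf60a1_an.RA

theorem p_FEW (hPROJ : S_PROJ) :
    S_FEW := by
  classical
  intro D p i w hp hw
  have hp0 : (0 : ℤ) < p := by exact_mod_cast hp.pos
  refine ⟨(Fintype.piFinset fun _ : Fin D => Ico (0 : ℤ) p).image
    fun z => Dl p (i + 1) fun j => w j + (p : ℤ) ^ i * z j, card_image_le.trans ?_, ?_⟩
  · simp [Fintype.card_piFinset]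
  · intro w' hw' h
    obtain ⟨l, hl, h1⟩ := hPROJ D p i w' w hp hw' hw h
    choose c hc using h1
    refine mem_image.2 ⟨fun j => (-c j) % p, Fintype.mem_piFinset.2 fun j =>
      mem_Ico.2 ⟨Int.emod_nonneg _ hp0.ne', Int.emod_lt_of_pos _ hp0⟩, Dl_congr hl fun j => ?_⟩
    refine ⟨-((-c j) / p), ?_⟩
    have e := Int.emod_add_mul_ediv (-c j) p
    linear_combination hc j + (p : ℤ) ^ i * e

end Pool.Agent.P.MP_246241_nt.EK
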