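import Pool.Agent.P.MP_246241_nt.EK.If

/-! Step FIB. -/

set_option autoImplicit false

namespace Pool.Agent.P.MP_246241_nt.EK

open Finset Matrix Real
open Pool.Agent.P.MP_bf60a1_an.RA

namespace FIBc
variable {D R a b : ℕ} {g h : Mt D}

theorem bd_mul (hR : 2 ≤ R) (hg : Bd g (R ^ a)) (hh : Bd h (R ^ b)) :
    Bd (g * h) (R ^ (D + a + b)) := fun i j => by
  have h1 : D ≤ R ^ D := Nat.lt_two_pow_self.le.trans (Nat.pow_le_pow_left hR D)
  rw [Matrix.mul_apply]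
  refine (abs_sum_le_sum_abs _ _).trans ((sum_le_card_nsmul _ _ ((R ^ a : ℕ) * (R ^ b : ℕ) : ℤ)
    fun k _ => ?_).trans ?_)
  · rw [abs_mul]; exact mul_le_mul (hg i k) (hh k j) (abs_nonneg _) (by positivity)
  · rw [card_univ, Fintype.card_fin, nsmul_eq_mul, pow_add, pow_add, mul_assoc]
    exact_mod_cast Nat.mul_le_mul_right _ h1

theorem bd_sub (hR : 2 ≤ R) (hg : Bd g (R ^ a)) (hh : Bd h (R ^ a)) :
    Bd (g - h) (R ^ (a + 1)) := fun i j => by
  have h1 : R ^ a + R ^ a ≤ R ^ (a + 1) := by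
    rw [pow_succ, ← mul_two]; exact Nat.mul_le_mul_left _ hR
  rw [Matrix.sub_apply]
  exact (abs_sub _ _).trans ((add_le_add (hg i j) (hh i j)).trans (by exact_mod_cast h1))

theorem comm_dvd {u : Vc D} {q l m : ℤ} (hg : ∀ j, q ∣ (g *ᵥ u) j - l * u j)
    (hh : ∀ j, q ∣ (h *ᵥ u) j - m * u j) (i : Fin D) : q ∣ (g * h - h * g) i ⬝ᵥ u := by
  choose w hw using hg
  choose w' hw' using hh
  have e1 : g *ᵥ u = l • u + q • w := funext fun j => by
    simp only [Pi.add_apply, Pi.smul_apply, smul_eq_mul, ← hw]; ring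
  have e2 : h *ᵥ u = m • u + q • w' := funext fun j => by
    simp only [Pi.add_apply, Pi.smul_apply, smul_eq_mul, ← hw']; ring
  refine ⟨(m • w - l • w' + g *ᵥ w' - h *ᵥ w) i, ?_⟩
  change ((g * h - h * g) *ᵥ u) i = _
  rw [sub_mulVec, ← mulVec_mulVec, ← mulVec_mulVec, e1, e2, mulVec_add, mulVec_add, mulVec_smul,
    mulVec_smul, mulVec_smul, mulVec_smul, e1, e2]
  simp only [Pi.add_apply, Pi.sub_apply, Pi.smul_apply, smul_eq_mul]
  ring

end FIBc

theorem p_FIB (hPROJ : S_PROJ) (hSING : S_SING) (hCNT : S_CNT) :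
    S_FIB := by
  classical
  intro D
  obtain ⟨a, ha⟩ := hSING D
  obtain ⟨C, hC⟩ := hCNT D
  refine ⟨(D + 1 + 1 + 1) * a + (D + (D + 1 + 1) + (D + 1 + 1) + 1) * D, |C| * (D + 2) ^ D,
    fun p G R e L u S hp hR hu hF hG hL hB hS => ?_⟩
  have l0 : 0 ≤ log (R : ℝ) := log_natCast_nonneg R
  rcases S.eq_empty_or_nonempty with rfl | ⟨g0, h0⟩
  · rw [card_empty, Nat.cast_zero]; positivity
  have hR0 : 0 < R := by omega
  have key : ∀ g ∈ S.image (g0⁻¹ * ·), (Bd (g : Mt D) (R ^ (D + 1 + 1)) ∧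
      Bd ((g⁻¹ : Gl D) : Mt D) (R ^ (D + 1 + 1))) ∧
      ∃ l : ℤ, ∀ j, (p : ℤ) ^ L ∣ ((g : Mt D) *ᵥ u) j - l * u j := fun g' hg' => by
    obtain ⟨g, hg, rfl⟩ := mem_image.1 hg'
    have b1 := hB g hg
    have b2 := hB g0 h0
    rw [← pow_one R] at b1 b2
    refine ⟨⟨FIBc.bd_mul hR b2.2 b1.1, ?_⟩, ?_⟩
    · rw [_root_.mul_inv_rev, inv_inv]; exact FIBc.bd_mul hR b1.2 b2.1
    · refine (hPROJ D p L u _ hp hu (hu.mul _) ?_).imp fun l h => h.2
      rw [← act_Dl, act_mul, act_Dl, hS g hg g0 h0, ← act_Dl, ← act_mul, inv_mul_cancel, act_one]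
  have h1 := hC (S.image (g0⁻¹ * ·)) (R ^ (D + 1 + 1)) (Nat.pow_pos hR0) (fun g hg h hh => ?_)
    (fun g hg => (key g hg).1) fun g hg h hh hd => ?_
  · rw [card_image_of_injective _ (mul_right_injective _), Nat.cast_pow, log_pow] at h1
    refine h1.trans ((mul_le_mul (le_abs_self C) (pow_le_pow_left₀ (by positivity)
      (show _ ≤ ((D : ℝ) + 2) * (1 + log R) by push_cast; nlinarith) D) (by positivity)
      (abs_nonneg C)).trans_eq (by rw [mul_pow, mul_assoc]))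
  · obtain ⟨⟨b1, -⟩, l, hl⟩ := key g hg
    obtain ⟨⟨b2, -⟩, m, hm⟩ := key h hh
    have b3 := FIBc.bd_sub hR (FIBc.bd_mul hR b1 b2) (FIBc.bd_mul hR b2 b1)
    refine Units.ext (sub_eq_zero.1 (funext fun i => hF _ ((pow_dvd_pow _ (by nlinarith)).trans
      (FIBc.comm_dvd hl hm i)) fun j => ?_))
    have h2 : G * (R ^ (D + (D + 1 + 1) + (D + 1 + 1) + 1)) ^ D ≤ p ^ e :=
      (Nat.mul_le_mul_left G (by
        rw [← pow_mul]; exact Nat.pow_le_pow_right hR0 (Nat.le_add_left _ _))).trans hG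
    exact (mul_le_mul_of_nonneg_left (pow_le_pow_left₀ (abs_nonneg _) (b3 i j) D)
      (Nat.cast_nonneg G)).trans (by exact_mod_cast h2)
  · obtain ⟨⟨b1, -⟩, l, hl⟩ := key g hg
    obtain ⟨⟨b2, -⟩, m, hm⟩ := key h hh
    refine Units.ext (sub_eq_zero.1 (ha p G _ e L _ u (l - m) hp
      (hR.trans (Nat.le_self_pow (by omega) R)) hu hF ?_ hL (FIBc.bd_sub hR b1 b2)
      (fun j => ?_) hd))
    · exact (Nat.mul_le_mul_left G (by
        rw [← pow_mul]; exact Nat.pow_le_pow_right hR0 (Nat.le_add_right _ _))).trans hG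
    · have h3 := dvd_sub (hl j) (hm j)
      rwa [sub_sub_sub_comm, ← sub_mul, ← Pi.sub_apply, ← sub_mulVec] at h3

end Pool.Agent.P.MP_246241_nt.EK
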