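import Pool.Agent.P.MP_246241_nt.EK.If

/-! Step FIN. -/

set_option autoImplicit false

namespace Pool.Agent.P.MP_246241_nt.EK

open Finset Matrix Real
open Pool.Agent.P.MP_bf60a1_an.RA

namespace FINc

theorem pre_floor {n p T t : ℕ} (hp : 0 < p) (ht : t ≤ T) (α : Fin n → ℝ) :
    (pre p (T - t) fun i => ⌊(p : ℝ) ^ T * α i⌋) = fun i => ⌊(p : ℝ) ^ t * α i⌋ := by
  obtain ⟨s, rfl⟩ := Nat.exists_eq_add_of_le ht
  ext i
  have h0 : (0 : ℝ) < (p : ℝ) ^ s := by positivity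
  have h := Int.floor_div_natCast ((p : ℝ) ^ (t + s) * α i) (p ^ s)
  simp only [pre, Nat.add_sub_cancel_left]
  push_cast at h
  rw [← h]
  congr 1
  rw [pow_add]
  field_simp

theorem norm_le {p : ℕ} (hp : p.Prime) (m q : ℕ) :
    ((p ^ m * q : ℕ) : ℝ) * ((padicNorm p ((p ^ m * q : ℕ) : ℚ) : ℚ) : ℝ) ≤ q := by
  have := Fact.mk hp
  have h1 : padicNorm p ((p ^ m * q : ℕ) : ℚ) ≤ (p : ℚ) ^ (-m : ℤ) := by
    have := (padicNorm.dvd_iff_norm_le (p := p) (n := m) (z := ((p ^ m * q : ℕ) : ℤ))).1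
      (by push_cast; exact Dvd.intro _ rfl)
    simpa using this
  have h2 : ((padicNorm p ((p ^ m * q : ℕ) : ℚ) : ℚ) : ℝ) ≤ (p : ℝ) ^ (-m : ℤ) := by
    have h3 := (Rat.cast_le (K := ℝ)).2 h1
    rwa [Rat.cast_zpow, Rat.cast_natCast] at h3
  have h0 : (0 : ℝ) < (p : ℝ) ^ m := by have := hp.pos; positivity
  refine (mul_le_mul_of_nonneg_left h2 (by positivity)).trans (le_of_eq ?_)
  rw [_root_.zpow_neg, _root_.zpow_natCast]
  push_cast
  field_simp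

theorem round_bd (a : ℝ) (q r : ℤ) :
    |(q.natAbs : ℝ) * a - ((round ((q.natAbs : ℝ) * a) : ℤ) : ℝ)| ≤ |(q : ℝ) * a - r| := by
  have e : (q.natAbs : ℝ) = |(q : ℝ)| := by rw [Nat.cast_natAbs, Int.cast_abs]
  rw [e]
  rcases le_total 0 (q : ℝ) with h | h
  · rw [abs_of_nonneg h]; exact round_le _ r
  · rw [abs_of_nonpos h]
    refine (round_le _ (-r)).trans (le_of_eq ?_)
    rw [← abs_neg]
    congr 1
    push_cast
    ring

end FINc

open FINc in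
theorem p_FIN :
    S_FIN := by
  intro n p H T α c F hn hp hH hc hF hlt hk t ht l hl
  rw [pre_floor hp.pos ht]
  rintro ⟨w, hw0, hw⟩
  set x : Vc n := fun i => ⌊(p : ℝ) ^ t * α i⌋ with hx
  obtain ⟨j0, hj0⟩ := Finite.exists_max fun j => |(w ᵥ* Tm p l x) j|
  set W : ℤ := |(w ᵥ* Tm p l x) j0| with hW
  have hW0 : 0 ≤ W := abs_nonneg _
  have hHW : (H : ℤ) * W ^ (n + 1) ≤ (p : ℤ) ^ (n * l) := hw j0
  have hp1 : (1 : ℤ) ≤ p := by exact_mod_cast hp.pos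
  have hH2 : (2 : ℤ) ≤ H := by exact_mod_cast hH
  have hpl : (0 : ℤ) < (p : ℤ) ^ l := by positivity
  have hWl : W < (p : ℤ) ^ l := by
    by_contra h
    have h1 : ((p : ℤ) ^ l) ^ (n + 1) ≤ W ^ (n + 1) := pow_le_pow_left₀ hpl.le (not_lt.1 h) _
    have h2 : (p : ℤ) ^ (n * l) ≤ ((p : ℤ) ^ l) ^ (n + 1) := by
      rw [← pow_mul]; exact pow_le_pow_right₀ hp1 (by nlinarith)
    have h3 : (0 : ℤ) < (p : ℤ) ^ (n * l) := by positivity
    nlinarith
  have hq : |w 0| ≤ W := by simpa only [vecMul_Tm_zero] using hj0 0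
  have hr : ∀ i, |w 0 * x i - (p : ℤ) ^ l * w i.succ| ≤ W := fun i => by
    simpa only [vecMul_Tm_succ] using hj0 i.succ
  have hq0 : w 0 ≠ 0 := by
    intro h
    refine hw0 (funext fun j => ?_)
    refine Fin.cases h (fun i => ?_) j
    by_contra h1
    have h2 := hr i
    rw [h, zero_mul, zero_sub, abs_neg, abs_mul, abs_of_pos hpl] at h2
    have h3 : 1 ≤ |w i.succ| := Int.one_le_abs h1
    nlinarith
  obtain ⟨m, rfl⟩ := Nat.exists_eq_add_of_le hl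
  have hqn : (w 0).natAbs ≤ p ^ l := by
    have : ((w 0).natAbs : ℤ) ≤ (p : ℤ) ^ l := by rw [Int.natCast_natAbs]; exact hq.trans hWl.le
    exact_mod_cast this
  obtain ⟨i, hi⟩ := hk (p ^ m * (w 0).natAbs)
    (Nat.mul_pos (pow_pos hp.pos _) (Int.natAbs_pos.2 hq0))
    ((Nat.mul_le_mul_left _ hqn).trans (by
      rw [← pow_add, add_comm]; exact Nat.pow_le_pow_right hp.pos ht))
  have hWr : (0 : ℝ) ≤ W := by exact_mod_cast hW0
  have hqr : |(w 0 : ℝ)| ≤ W := by exact_mod_cast hq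
  have hP : (0 : ℝ) < (p : ℝ) ^ l := by exact_mod_cast hpl
  have h1 := (norm_le hp m (w 0).natAbs).trans
    (show ((w 0).natAbs : ℝ) ≤ W by rw [Nat.cast_natAbs, Int.cast_abs]; exact hqr)
  have h2 : |((p ^ m * (w 0).natAbs : ℕ) : ℝ) * α i -
      ((round (((p ^ m * (w 0).natAbs : ℕ) : ℝ) * α i) : ℤ) : ℝ)| ≤ 2 * W / (p : ℝ) ^ l := by
    have e : ((p ^ m * (w 0).natAbs : ℕ) : ℝ) * α i = ((w 0).natAbs : ℝ) * ((p : ℝ) ^ m * α i) := by
      rw [Nat.cast_mul, Nat.cast_pow]; ring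
    rw [e]
    refine (round_bd _ (w 0) (w i.succ)).trans ?_
    rw [le_div_iff₀ hP, ← abs_of_pos hP, ← abs_mul]
    have e2 : ((w 0 : ℝ) * ((p : ℝ) ^ m * α i) - w i.succ) * (p : ℝ) ^ l =
        (w 0 : ℝ) * ((p : ℝ) ^ (l + m) * α i - x i) + ((w 0 : ℝ) * x i - (p : ℝ) ^ l * w i.succ) := by
      rw [pow_add]; ring
    have h3 : |(w 0 : ℝ) * x i - (p : ℝ) ^ l * w i.succ| ≤ W := by exact_mod_cast hr i
    have h4 : |(p : ℝ) ^ (l + m) * α i - x i| ≤ 1 := by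
      rw [abs_le]
      have a1 := Int.floor_le ((p : ℝ) ^ (l + m) * α i)
      have a2 := Int.lt_floor_add_one ((p : ℝ) ^ (l + m) * α i)
      simp only [hx]
      constructor <;> linarith
    rw [e2]
    refine (abs_add_le _ _).trans ?_
    rw [abs_mul]
    have := mul_le_mul hqr h4 (abs_nonneg _) hWr
    linarith
  have hn0 : n ≠ 0 := by omega
  have h5 : c ≤ (W : ℝ) ^ ((1 : ℝ) / (n : ℝ)) * F * (2 * W / (p : ℝ) ^ l) := by
    refine hi.trans (mul_le_mul (mul_le_mul_of_nonneg_right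
      (rpow_le_rpow (mul_nonneg (Nat.cast_nonneg _) ?_) h1 (by positivity)) hF.le) h2
      (abs_nonneg _) (by positivity))
    exact_mod_cast padicNorm.nonneg _
  have h6 := pow_le_pow_left₀ hc.le h5 n
  have hp0 := hp.pos
  rw [mul_pow, mul_pow, one_div, rpow_inv_natCast_pow hWr hn0, div_pow, mul_pow, ← pow_mul,
    ← mul_div_assoc, le_div_iff₀ (by positivity), mul_comm l n] at h6
  have h7 : (H : ℝ) * (W : ℝ) ^ (n + 1) ≤ (p : ℝ) ^ (n * l) := by exact_mod_cast hHW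
  rw [div_pow, div_lt_iff₀ (by positivity), mul_pow] at hlt
  have hPn : (0 : ℝ) < (p : ℝ) ^ (n * l) := by have := hp.pos; positivity
  have hH0 : (0 : ℝ) ≤ H := Nat.cast_nonneg _
  have a1 := mul_le_mul_of_nonneg_left h6 hH0
  have a2 := mul_le_mul_of_nonneg_left h7 (show (0 : ℝ) ≤ 2 ^ n * F ^ n by positivity)
  have a3 := mul_lt_mul_of_pos_right hlt hPn
  rw [pow_succ] at a2
  nlinarith

end Pool.Agent.P.MP_246241_nt.EK
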