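import Pool.Agent.P.MP_246241_nt.EK.If
import Pool.Agent.P.MP_fc15d7_nt.TREDU

/-! Step FRAME. -/

set_option autoImplicit false

namespace Pool.Agent.P.MP_246241_nt.EK

open Finset Matrix Real
open Pool.Agent.P.MP_bf60a1_an.RA

namespace FRAMEc

theorem mu_le {n : ℕ} {μ : Fin (n + 1) → ℝ} {C Δ : ℝ} (hΔ : 0 < Δ) (hμ : ∀ i, 0 < μ i)
    (hp : ∏ i, μ i = Δ) (h : ∀ i, Δ ≤ C * μ i ^ (n + 1)) (j : Fin (n + 1)) :
    μ j ^ (n + 1) ≤ C ^ n * Δ := by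
  have h1 : Δ ^ n ≤ C ^ n * (∏ i, μ (j.succAbove i)) ^ (n + 1) := by
    calc Δ ^ n = ∏ _i : Fin n, Δ := by simp
      _ ≤ ∏ i : Fin n, C * μ (j.succAbove i) ^ (n + 1) :=
        prod_le_prod (fun _ _ => hΔ.le) fun i _ => h _
      _ = _ := by rw [prod_mul_distrib, prod_pow]; simp
  rw [Fin.prod_univ_succAbove _ j] at hp
  refine le_of_mul_le_mul_right ?_ (pow_pos hΔ n)
  calc μ j ^ (n + 1) * Δ ^ n ≤ μ j ^ (n + 1) * (C ^ n * (∏ i, μ (j.succAbove i)) ^ (n + 1)) :=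
        mul_le_mul_of_nonneg_left h1 (pow_pos (hμ j) _).le
    _ = C ^ n * (μ j * ∏ i, μ (j.succAbove i)) ^ (n + 1) := by rw [mul_pow]; ring
    _ = _ := by rw [hp]; ring

end FRAMEc

open FRAMEc in
theorem p_FRAME :
    S_FRAME := by
  intro n
  obtain ⟨K, hK, hR⟩ := Pool.Agent.P.MP_fc15d7_nt.t_REDU (n + 1)
  obtain ⟨b, hb⟩ := pow_unbounded_of_one_lt (K ^ ((n + 1) * (n + 1))) (one_lt_two (α := ℝ))
  refine ⟨b + n, fun p H l x hp hH hs => ?_⟩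
  have hΔ : (0 : ℝ) < (p : ℝ) ^ (n * l) := by positivity
  have hdet : |((Tm p l x)ᵀ.map (Int.cast : ℤ → ℝ)).det| = (p : ℝ) ^ (n * l) := by
    have := (Int.castRingHom ℝ).map_det (Tm p l x)ᵀ
    rw [RingHom.mapMatrix_apply, det_transpose] at this
    have e : ((Tm p l x)ᵀ.map (Int.cast : ℤ → ℝ)).det = ((Tm p l x).det : ℝ) := this.symm
    rw [e, ← Int.cast_abs, det_Tm]; push_cast; rfl
  obtain ⟨V, μ, hV, hμ, hpr, hb'⟩ := hR ((Tm p l x)ᵀ.map (Int.cast : ℤ → ℝ)) (by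
    intro h; rw [h, abs_zero] at hdet; exact hΔ.ne hdet)
  have hU : IsUnit Vᵀ := (isUnit_iff_isUnit_det _).2 (by rwa [det_transpose])
  have hent : ∀ j i, ((|(Vᵀ * Tm p l x) j i| : ℤ) : ℝ) ≤ K * μ j := fun j i => by
    refine le_of_eq_of_le ?_ (hb' i j).2
    rw [Int.cast_abs]
    congr 1
    simp [Matrix.mul_apply, mul_comm]
  have hent' : ∀ j i, ((|(Vᵀ * Tm p l x) j i| : ℤ) : ℝ) ^ (n + 1) ≤
      K ^ (n + 1) * μ j ^ (n + 1) := fun j i => by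
    rw [← mul_pow]
    exact pow_le_pow_left₀ (by exact_mod_cast abs_nonneg _) (hent j i) _
  have hH' : (2 : ℝ) ≤ H := by exact_mod_cast hH
  have hlow : ∀ j, (p : ℝ) ^ (n * l) ≤ (H * K ^ (n + 1)) * μ j ^ (n + 1) := fun j => by
    have hne : Vᵀ j ≠ 0 := fun h => by
      have : Vᵀ.det = 0 := det_eq_zero_of_row_eq_zero j fun i => congrFun h i
      rw [det_transpose] at this
      exact hV.ne_zero this
    have : ¬ ∀ i, (H : ℤ) * |(Vᵀ j ᵥ* Tm p l x) i| ^ (n + 1) ≤ (p : ℤ) ^ (n * l) :=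
      fun h => hs ⟨_, hne, h⟩
    obtain ⟨i, hi⟩ := not_forall.1 this
    have h2 : (p : ℝ) ^ (n * l) ≤ H * ((|(Vᵀ * Tm p l x) j i| : ℤ) : ℝ) ^ (n + 1) := by
      exact_mod_cast (not_le.1 hi).le
    rw [mul_assoc]
    exact h2.trans (mul_le_mul_of_nonneg_left (hent' j i) (by positivity))
  refine ⟨hU.unit, fun j i => ?_⟩
  have h3 := mu_le hΔ hμ (hpr.trans hdet) hlow j
  have h4 : ((|(Vᵀ * Tm p l x) j i| : ℤ) : ℝ) ^ (n + 1) ≤ (H : ℝ) ^ (b + n) * (p : ℝ) ^ (n * l) := by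
    have hK0 : 0 ≤ K := by linarith
    calc _ ≤ K ^ (n + 1) * ((H * K ^ (n + 1)) ^ n * (p : ℝ) ^ (n * l)) :=
          (hent' j i).trans (mul_le_mul_of_nonneg_left h3 (by positivity))
      _ = K ^ ((n + 1) * (n + 1)) * ((H : ℝ) ^ n * (p : ℝ) ^ (n * l)) := by ring
      _ ≤ (H : ℝ) ^ b * ((H : ℝ) ^ n * (p : ℝ) ^ (n * l)) :=
          mul_le_mul_of_nonneg_right (hb.le.trans (pow_le_pow_left₀ (by norm_num) hH' b))
            (by positivity)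
      _ = _ := by ring
  rw [IsUnit.unit_spec]
  exact_mod_cast h4

end Pool.Agent.P.MP_246241_nt.EK
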