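import Pool.Agent.P.MP_246241_nt.EK.If

/-! Step HD. -/

set_option autoImplicit false

namespace Pool.Agent.P.MP_246241_nt.EK

open Finset Matrix Real
open Pool.Agent.P.MP_bf60a1_an.RA

namespace HDc

theorem mem_res {p L : ℕ} (hp : 0 < p) (x : ℤ) :
    x % (p : ℤ) ^ L ∈ Finset.Ico (0 : ℤ) ((p : ℤ) ^ L) := by
  have h : (0 : ℤ) < (p : ℤ) ^ L := by positivity
  exact Finset.mem_Ico.2 ⟨Int.emod_nonneg _ h.ne', Int.emod_lt_of_pos _ h⟩

theorem card_res (p L : ℕ) : (Finset.Ico (0 : ℤ) ((p : ℤ) ^ L)).card = p ^ L := by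
  rw [Int.card_Ico, sub_zero, ← Nat.cast_pow, Int.toNat_natCast]

end HDc

theorem p_HD :
    S_HD := by
  intro D p L Ω _ P hp
  refine ⟨fun u => ?_, fun g => ?_⟩
  · have h1 : P.Det (fun ω j => u ω j % (p : ℤ) ^ L) fun ω => Dl p L (u ω) := by
      intro ω ω' _ _ h
      refine Dl_congr (l := 1) isCoprime_one_left fun j => ?_
      rw [one_mul]
      exact Int.ModEq.dvd (congrFun h j).symm
    refine (P.H_mono h1).trans ?_
    have h2 := P.H_le_log (Z := fun ω j => u ω j % (p : ℤ) ^ L)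
      (Fintype.piFinset fun _ : Fin D => Finset.Ico (0 : ℤ) ((p : ℤ) ^ L))
      (c := (p : ℝ) ^ (D * L)) (fun ω _ => Fintype.mem_piFinset.2 fun j => HDc.mem_res hp _)
      (by
        rw [Fintype.card_piFinset]
        simp only [HDc.card_res, prod_const, card_univ, Fintype.card_fin]
        rw [← pow_mul, mul_comm L D]; push_cast; exact le_rfl)
    rw [log_pow] at h2
    push_cast at h2
    exact h2
  · have h2 := P.H_le_log (Z := fun ω a b => g ω a b % (p : ℤ) ^ L)
      (Fintype.piFinset fun _ : Fin D => Fintype.piFinset fun _ : Fin D =>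
        Finset.Ico (0 : ℤ) ((p : ℤ) ^ L))
      (c := (p : ℝ) ^ (D ^ 2 * L))
      (fun ω _ => Fintype.mem_piFinset.2 fun a => Fintype.mem_piFinset.2 fun b => HDc.mem_res hp _)
      (by
        simp only [Fintype.card_piFinset, HDc.card_res, prod_const, card_univ, Fintype.card_fin]
        rw [← pow_mul, ← pow_mul, show L * (D * D) = D ^ 2 * L by ring]; push_cast; exact le_rfl)
    rw [log_pow] at h2
    push_cast at h2
    exact h2

end Pool.Agent.P.MP_246241_nt.EK
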