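import Pool.Agent.P.MP_246241_nt.EK.If

/-! Step HP. -/

set_option autoImplicit false

namespace Pool.Agent.P.MP_246241_nt.EK

open Finset Matrix Real
open Pool.Agent.P.MP_bf60a1_an.RA

theorem p_HP :
    S_HP := by
  intro n p T t Ω _ P a hp
  have hl : 0 ≤ (n : ℝ) * log p := mul_nonneg (Nat.cast_nonneg _) (log_natCast_nonneg _)
  by_cases h : t + 1 ≤ T
  · refine ⟨P.H_mono fun ω ω' _ _ e => by rw [← pre_xx a h, ← pre_xx a h, e], ?_⟩
    refine (P.H_le_add _ (xx p T a t)).trans (add_le_add le_rfl ?_)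
    have hp' : (0 : ℤ) < p := by exact_mod_cast hp
    have := P.Hc_le_E (Z := xx p T a (t + 1)) (V := xx p T a t) (N := fun _ => (p : ℝ) ^ n)
      fun ω _ => ⟨Fintype.piFinset fun i => Ico (p * xx p T a t ω i) (p * xx p T a t ω i + p),
        by simp, fun ω' _ e => Fintype.mem_piFinset.2 fun i => by
          rw [← e, ← pre_xx a h, pre, pow_one, mem_Ico]
          have h1 := Int.mul_ediv_add_emod (xx p T a (t + 1) ω' i) p
          have h2 := Int.emod_nonneg (xx p T a (t + 1) ω' i) hp'.ne'
          have h3 := Int.emod_lt_of_pos (xx p T a (t + 1) ω' i) hp'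
          omega⟩
    rwa [FP.E_const, log_pow] at this
  · have e : xx p T a (t + 1) = xx p T a t := by
      funext ω
      rw [xx, xx, show T - (t + 1) = T - t by omega]
    rw [e]
    exact ⟨le_rfl, le_add_of_nonneg_right hl⟩

end Pool.Agent.P.MP_246241_nt.EK
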