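import Pool.Agent.P.MP_246241_nt.EK.If

/-! Step ITER. -/

set_option autoImplicit false

namespace Pool.Agent.P.MP_246241_nt.EK

open Finset Matrix Real
open Pool.Agent.P.MP_bf60a1_an.RA

namespace ITERc

theorem up {h : ℕ → ℝ} {U : ℝ} (hh : ∀ t, h t ≤ h (t + 1) ∧ h (t + 1) ≤ h t + U) (m j : ℕ) :
    h (m + j) ≤ h m + j * U := by
  induction j with
  | zero => simp
  | succ j ih =>
    have := (hh (m + j)).2
    rw [← add_assoc]
    push_cast
    linarith

theorem tel {h : ℕ → ℝ} {U δ : ℝ} {T₀ T N k : ℕ} (hU : 1 ≤ U) (h0 : h 0 ≤ 0)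
    (hh : ∀ t, h t ≤ h (t + 1) ∧ h (t + 1) ≤ h t + U) (e : T₀ + (N + k) = T + 1)
    (hk : (T₀ + 2 * k : ℝ) * U ≤ δ * T / 4) (hT : δ * T < h T) :
    k * (3 * (δ * T) / 4) ≤ ∑ i ∈ range N, (h (T₀ + i + k) - h (T₀ + i)) := by
  have e1 := sum_range_add (fun i => h (T₀ + i)) N k
  have e2 := sum_range_add (fun i => h (T₀ + i)) k N
  rw [add_comm k N, e1] at e2
  have e3 : ∑ i ∈ range N, h (T₀ + (k + i)) = ∑ i ∈ range N, h (T₀ + i + k) :=
    sum_congr rfl fun i _ => by rw [add_comm k i, add_assoc]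
  have a1 : ∑ _j ∈ range k, (h T - k * U) ≤ ∑ j ∈ range k, h (T₀ + (N + j)) := by
    refine sum_le_sum fun j hj => ?_
    have hj' := mem_range.1 hj
    obtain ⟨c, hc⟩ : ∃ c, T = T₀ + (N + j) + c := ⟨T - (T₀ + (N + j)), by omega⟩
    have b1 := up hh (T₀ + (N + j)) c
    rw [← hc] at b1
    have b2 : (c : ℝ) ≤ k := by exact_mod_cast (show c ≤ k by omega)
    nlinarith
  have a2 : ∑ j ∈ range k, h (T₀ + j) ≤ ∑ _j ∈ range k, ((T₀ : ℝ) + k) * U := by
    refine sum_le_sum fun j hj => ?_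
    have b1 := up hh 0 (T₀ + j)
    rw [zero_add] at b1
    have b2 : ((T₀ + j : ℕ) : ℝ) ≤ T₀ + k := by
      exact_mod_cast (show T₀ + j ≤ T₀ + k by have := mem_range.1 hj; omega)
    nlinarith
  rw [sum_const, card_range, nsmul_eq_mul] at a1 a2
  rw [sum_sub_distrib]
  have a3 : (k : ℝ) * (3 * (δ * T) / 4) ≤ k * (h T - k * U - (T₀ + k) * U) :=
    mul_le_mul_of_nonneg_left (by linarith) (Nat.cast_nonneg k)
  linarith

end ITERc

theorem p_ITER :
    S_ITER := by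
  intro φ h k Q U δ T₀ T r hδ hQ hU hφ h0 hh hk hs hr
  by_contra hT
  rw [not_le] at hT
  have hQ0 : 0 < Q := by linarith
  have hTU : h T ≤ T * U := by
    have := ITERc.up hh 0 T
    rw [zero_add] at this
    linarith
  have hle : ∀ s < r, T₀ + 2 * k s ≤ T := by
    intro s hsr
    have a1 := (hk s hsr).2.1
    have a0 : 0 ≤ δ * T := mul_nonneg hδ.le (Nat.cast_nonneg T)
    have a2 : (T₀ + 2 * k s : ℝ) * U ≤ T * U := by linarith
    have a3 := le_of_mul_le_mul_right a2 (by linarith)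
    exact_mod_cast a3
  have step : ∀ s < r, ∑ i ∈ range (T + 1 - T₀), φ (s + 1) (T₀ + i) ≤
      ∑ i ∈ range (T + 1 - T₀), φ s (T₀ + i) - 3 * (δ * T) / (8 * Q) := by
    intro s hsr
    obtain ⟨k1, k2, k3⟩ := hk s hsr
    have hl := hle s hsr
    obtain ⟨N, hN⟩ : ∃ N, T + 1 - T₀ = N + k s := ⟨T + 1 - T₀ - k s, by omega⟩
    have k0 : (0 : ℝ) < k s := by exact_mod_cast k1
    have t1 := ITERc.tel (N := N) hU h0 hh (by omega) k2 hT
    have a1 : ∑ j ∈ range (k s), φ (s + 1) (T₀ + (N + j)) ≤ ∑ _j ∈ range (k s), U :=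
      sum_le_sum fun j _ => (hφ _ _).2
    rw [sum_const, card_range, nsmul_eq_mul] at a1
    have a2 : ∑ i ∈ range N, φ s (T₀ + i + k s) ≤ ∑ i ∈ range (N + k s), φ s (T₀ + i) := by
      rw [add_comm N, sum_range_add]
      have e3 : ∑ i ∈ range N, φ s (T₀ + (k s + i)) = ∑ i ∈ range N, φ s (T₀ + i + k s) :=
        sum_congr rfl fun i _ => by rw [add_comm (k s) i, add_assoc]
      rw [e3]
      exact le_add_of_nonneg_left (sum_nonneg fun j _ => (hφ _ _).1)
    have a3 : ∑ i ∈ range N, φ (s + 1) (T₀ + i) ≤ ∑ i ∈ range N, (φ s (T₀ + i + k s) -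
        ((h (T₀ + i + k s) - h (T₀ + i)) / k s - δ / 4) / Q + δ / (16 * Q)) :=
      sum_le_sum fun i hi => hs s hsr _ (by omega) (by have := mem_range.1 hi; omega)
    rw [sum_add_distrib, sum_sub_distrib, ← sum_div, sum_sub_distrib, ← sum_div, sum_const,
      sum_const, card_range, nsmul_eq_mul, nsmul_eq_mul] at a3
    have a4 : 3 * (δ * T) / 4 ≤ (∑ i ∈ range N, (h (T₀ + i + k s) - h (T₀ + i))) / k s := by
      rw [le_div_iff₀ k0]; linarith
    have a5 : (N : ℝ) ≤ T := by exact_mod_cast (show N ≤ T by omega)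
    have a6 : (N : ℝ) * δ ≤ δ * T := by nlinarith
    have a7 : (δ * T / 2) / Q ≤
        ((∑ i ∈ range N, (h (T₀ + i + k s) - h (T₀ + i))) / k s - N * (δ / 4)) / Q :=
      div_le_div_of_nonneg_right (by linarith) hQ0.le
    have a8 : (N : ℝ) * (δ / (16 * Q)) ≤ (δ * T / 16) / Q := by
      rw [show (N : ℝ) * (δ / (16 * Q)) = (N * δ / 16) / Q by field_simp]
      exact div_le_div_of_nonneg_right (by linarith) hQ0.le
    have a9 : (k s : ℝ) * U ≤ (δ * T / 16) / Q := by rw [le_div_iff₀ hQ0]; exact k3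
    have e : 3 * (δ * T) / (8 * Q) = (δ * T / 2) / Q - (δ * T / 16) / Q - (δ * T / 16) / Q := by
      field_simp; ring
    rw [hN, sum_range_add, e]
    linarith
  have all : ∀ s ≤ r, ∑ i ∈ range (T + 1 - T₀), φ s (T₀ + i) ≤
      ∑ i ∈ range (T + 1 - T₀), φ 0 (T₀ + i) - s * (3 * (δ * T) / (8 * Q)) := by
    intro s
    induction s with
    | zero => intro _; simp
    | succ s ih =>
      intro hsr
      have b1 := ih (by omega)
      have b2 := step s (by omega)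
      push_cast
      linarith
  have hr0 : 0 < r := by
    rcases Nat.eq_zero_or_pos r with rfl | hr0
    · rw [Nat.cast_zero, zero_mul] at hr
      nlinarith
    · exact hr0
  have hT1 : 1 ≤ T := by
    have := hle 0 hr0
    have := (hk 0 hr0).1
    omega
  have c1 := all r le_rfl
  have c2 : 0 ≤ ∑ i ∈ range (T + 1 - T₀), φ r (T₀ + i) := sum_nonneg fun j _ => (hφ _ _).1
  have c3 : ∑ i ∈ range (T + 1 - T₀), φ 0 (T₀ + i) ≤ ∑ _i ∈ range (T + 1 - T₀), U :=
    sum_le_sum fun j _ => (hφ _ _).2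
  rw [sum_const, card_range, nsmul_eq_mul] at c3
  have c4 : ((T + 1 - T₀ : ℕ) : ℝ) ≤ 2 * T := by exact_mod_cast (show T + 1 - T₀ ≤ 2 * T by omega)
  have c5 : (1 : ℝ) ≤ T := by exact_mod_cast hT1
  have c6 : 3 * (T * U) ≤ r * (3 * (δ * T) / (8 * Q)) := by
    rw [← mul_div_assoc, le_div_iff₀ (by linarith)]
    nlinarith
  nlinarith

end Pool.Agent.P.MP_246241_nt.EK
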