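import Pool.Agent.P.MP_246241_nt.EK.If

/-! Step LEVEL. -/

set_option autoImplicit false

namespace Pool.Agent.P.MP_246241_nt.EK

open Finset Matrix Real
open Pool.Agent.P.MP_bf60a1_an.RA

namespace LEVELc
variable {n : ℕ}

theorem Dg_mul (p e : ℕ) (M : Mt (n + 1)) (i j : Fin (n + 1)) :
    (Dg n p e * M) i j = (if i = 0 then (p : ℤ) ^ e else 1) * M i j := by
  rw [Dg, Matrix.diagonal_mul]

theorem Dg_Tm (p l e : ℕ) (x : Vc n) :
    Dg n p e * Tm p (l + e) x = (p : ℤ) ^ e • Tm p l x := by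
  ext i j
  rw [Dg_mul, Matrix.smul_apply, smul_eq_mul]
  refine Fin.cases ?_ (fun i => ?_) i
  · simp [Tm]
  · refine Fin.cases ?_ (fun j => ?_) j
    · simp [Tm]
    · simp only [Tm, Matrix.of_apply, Fin.cases_succ, if_neg (Fin.succ_ne_zero i)]
      split_ifs
      · ring
      · simp

theorem det_Dg (p e : ℕ) : (Dg n p e).det = (p : ℤ) ^ e := by
  simp [Dg, det_diagonal]

theorem vecMul_Dg (p e : ℕ) (τ : Vc (n + 1)) (j : Fin (n + 1)) :
    (τ ᵥ* Dg n p e) j = τ j * if j = 0 then (p : ℤ) ^ e else 1 := by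
  rw [Dg, Matrix.vecMul_diagonal]

theorem col_eq (g : Gl (n + 1)) : col g = (g : Mt (n + 1)) *ᵥ Pi.single 0 1 := by
  ext j
  simp [col]

theorem dot_col (g : Gl (n + 1)) (ρ : Vc (n + 1)) : ρ ⬝ᵥ col g = (ρ ᵥ* (g : Mt (n + 1))) 0 := rfl

theorem lv_mul (p e : ℕ) (g g' : Gl (n + 1)) :
    lv p e g g' * (g : Mt (n + 1)) = (g' : Mt (n + 1)) * Dg n p e := by
  rw [lv, Matrix.mul_assoc, Units.inv_mul, Matrix.mul_one]

end LEVELc

open LEVELc in
theorem p_LEVEL (hQUOT : S_QUOT) :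
    S_LEVEL := by
  intro n
  obtain ⟨C, hC⟩ := hQUOT (n + 1)
  refine ⟨C + (n + 1), fun p B l e x g g' hp hB hg hg' => ⟨⟨fun ρ => ⟨fun h => ?_, ?_⟩, ?_, ?_⟩, ?_⟩⟩
  · rw [mem_Dl, dot_col] at h
    obtain ⟨t, ht⟩ := h
    have e1 : ρ ᵥ* (g : Mt (n + 1)) = Function.update (ρ ᵥ* (g : Mt (n + 1))) 0 t ᵥ* Dg n p e := by
      ext j
      rw [vecMul_Dg]
      by_cases hj : j = 0
      · subst hj
        rw [Function.update_self, if_pos rfl, ht, mul_comm]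
      · rw [Function.update_of_ne hj, if_neg hj, mul_one]
    refine ⟨Function.update (ρ ᵥ* (g : Mt (n + 1))) 0 t ᵥ* ((g'⁻¹ : Gl (n + 1)) : Mt (n + 1)), ?_⟩
    rw [vecMul_vecMul, lv, ← Matrix.mul_assoc, ← Matrix.mul_assoc, Units.inv_mul, Matrix.one_mul,
      ← vecMul_vecMul, ← e1, vecMul_vecMul, Units.mul_inv, vecMul_one]
  · rintro ⟨σ, rfl⟩
    rw [mem_Dl, dot_col, vecMul_vecMul, lv_mul, ← vecMul_vecMul, vecMul_Dg, if_pos rfl]
    exact dvd_mul_left _ _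
  · rw [lv, det_mul, det_mul, abs_mul, abs_mul, det_unit, det_unit, det_Dg, one_mul, mul_one,
      abs_of_nonneg (by positivity)]
  · intro i j
    have hp' : (0 : ℤ) < p := by exact_mod_cast hp
    have h1 := hC (lv p e g g') ((g : Mt (n + 1)) * Tm p (l + e) x)
      ((p : ℤ) ^ e • ((g' : Mt (n + 1)) * Tm p l x)) _
      (((p : ℤ) ^ e) ^ (n + 1) * ((B : ℤ) * (p : ℤ) ^ (n * l)))
      (by rw [← Matrix.mul_assoc, lv_mul, Matrix.mul_assoc, Dg_Tm, Matrix.mul_smul]) hg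
      (fun i j => by
        rw [Matrix.smul_apply, smul_eq_mul, abs_mul, mul_pow, abs_of_nonneg (by positivity)]
        exact mul_le_mul_of_nonneg_left (hg' i j) (by positivity)) i j
    rw [det_frame, Nat.add_sub_cancel] at h1
    have h2 : (C : ℤ) ≤ (B : ℤ) ^ C := by
      exact_mod_cast (Nat.lt_two_pow_self.le.trans (Nat.pow_le_pow_left hB C) : C ≤ B ^ C)
    refine le_of_mul_le_mul_right (h1.trans ?_)
      (by positivity : (0 : ℤ) < ((p : ℤ) ^ (n * (l + e))) ^ (n + 1))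
    calc _ = (C : ℤ) * ((B : ℤ) ^ (n + 1) * (p : ℤ) ^ e * ((p : ℤ) ^ (n * (l + e))) ^ (n + 1)) := by
          ring
      _ ≤ (B : ℤ) ^ C * ((B : ℤ) ^ (n + 1) * (p : ℤ) ^ e * ((p : ℤ) ^ (n * (l + e))) ^ (n + 1)) :=
          mul_le_mul_of_nonneg_right h2 (by positivity)
      _ = _ := by
          push_cast
          ring
  · rw [col_eq, col_eq, mulVec_mulVec, lv_mul, ← mulVec_mulVec, ← mulVec_smul]
    congr 1
    ext j
    by_cases hj : j = 0 <;> simp [Dg, hj]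

end Pool.Agent.P.MP_246241_nt.EK
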