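import Pool.Agent.P.MP_246241_nt.EK.If

/-! Step LIO. -/

set_option autoImplicit false

namespace Pool.Agent.P.MP_246241_nt.EK

open Finset Matrix Real
open Pool.Agent.P.MP_bf60a1_an.RA

namespace LIOc

theorem num (c0 aM aS D B k p : ℕ) (C : ℝ) (hC : log (max C 1) ≤ c0) (hp : 0 < p) (hpB : p ≤ B)
    (hk : (48 * c0 + 48 * aM + 96 ^ 2 * D ^ 2 * (aS + 2)) * B ^ 3 ≤ k) (hk1 : 1 ≤ k) :
    log (max C 1 * (1 + log ((B ^ aS * p ^ k : ℕ) : ℝ)) ^ D) + log ((B ^ aM : ℕ) : ℝ) ≤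
      k / (16 * B) := by
  have hB1 : (1 : ℝ) ≤ B := by exact_mod_cast hp.trans_le hpB
  have hp1 : (1 : ℝ) ≤ p := by exact_mod_cast hp
  have hpB' : (p : ℝ) ≤ B := by exact_mod_cast hpB
  have hk1' : (1 : ℝ) ≤ k := by exact_mod_cast hk1
  have hk' : (48 * c0 + 48 * aM + 96 ^ 2 * D ^ 2 * (aS + 2) : ℝ) * (B : ℝ) ^ 3 ≤ k := by
    exact_mod_cast hk
  have hlB : log (B : ℝ) ≤ B := (log_le_sub_one_of_pos (by linarith)).trans (by linarith)
  have hlp : log (p : ℝ) ≤ B := (log_le_sub_one_of_pos (by linarith)).trans (by linarith)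
  have hlB0 : 0 ≤ log (B : ℝ) := log_nonneg hB1
  have hlp0 : 0 ≤ log (p : ℝ) := log_nonneg hp1
  have hR : log ((B ^ aS * p ^ k : ℕ) : ℝ) = aS * log B + k * log p := by
    push_cast
    rw [log_mul (by positivity) (by positivity), log_pow, log_pow]
  obtain ⟨y, hy⟩ : ∃ y : ℝ, y = 1 + log ((B ^ aS * p ^ k : ℕ) : ℝ) := ⟨_, rfl⟩
  rw [← hy]
  rw [hR] at hy
  have hkB : (B : ℝ) ≤ k * B := le_mul_of_one_le_left (by linarith) hk1'
  have hy1 : 1 ≤ y := by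
    have : 0 ≤ aS * log (B : ℝ) + k * log (p : ℝ) := by positivity
    linarith
  have hy2 : y ≤ (aS + 2) * k * B := by
    have h1 : (aS : ℝ) * log B ≤ aS * (k * B) :=
      mul_le_mul_of_nonneg_left (hlB.trans hkB) (by positivity)
    have h2 : (k : ℝ) * log p ≤ k * B := mul_le_mul_of_nonneg_left hlp (by positivity)
    have h3 : ((aS : ℝ) + 2) * k * B = aS * (k * B) + k * B + k * B := by ring
    linarith
  have hly : log y ≤ 2 * √y := by
    have h1 : log y = 2 * log √y := by rw [log_sqrt (by linarith)]; ring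
    have h2 : log √y ≤ √y - 1 := log_le_sub_one_of_pos (sqrt_pos.2 (by linarith))
    linarith
  have hB3 : (B : ℝ) ≤ (B : ℝ) ^ 3 := le_self_pow₀ hB1 (by norm_num)
  have hB23 : (B : ℝ) ^ 2 ≤ (B : ℝ) ^ 3 := pow_le_pow_right₀ hB1 (by norm_num)
  have t0 : (0 : ℝ) ≤ 48 * c0 * (B : ℝ) ^ 3 := by positivity
  have t1 : (0 : ℝ) ≤ 48 * aM * (B : ℝ) ^ 3 := by positivity
  have t2 : (0 : ℝ) ≤ 96 ^ 2 * D ^ 2 * (aS + 2) * (B : ℝ) ^ 3 := by positivity
  rw [add_mul, add_mul] at hk'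
  have g0 : 48 * (c0 : ℝ) * B ≤ k := by
    have : 48 * (c0 : ℝ) * B ≤ 48 * c0 * (B : ℝ) ^ 3 :=
      mul_le_mul_of_nonneg_left hB3 (by positivity)
    linarith
  have g1 : 48 * (aM : ℝ) * (B : ℝ) ^ 2 ≤ k := by
    have : 48 * (aM : ℝ) * (B : ℝ) ^ 2 ≤ 48 * aM * (B : ℝ) ^ 3 :=
      mul_le_mul_of_nonneg_left hB23 (by positivity)
    linarith
  have g2 : 96 * D * B * √y ≤ k := by
    refine (pow_le_pow_iff_left₀ (by positivity) (by positivity) two_ne_zero).1 ?_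
    rw [mul_pow, sq_sqrt (by linarith)]
    have h1 : (96 * D * B : ℝ) ^ 2 * y ≤ (96 * D * B : ℝ) ^ 2 * ((aS + 2) * k * B) :=
      mul_le_mul_of_nonneg_left hy2 (by positivity)
    have h2 : 96 ^ 2 * D ^ 2 * (aS + 2) * (B : ℝ) ^ 3 ≤ k := by linarith
    have h3 : 96 ^ 2 * D ^ 2 * (aS + 2) * (B : ℝ) ^ 3 * k ≤ k * k :=
      mul_le_mul_of_nonneg_right h2 (by positivity)
    calc (96 * D * B : ℝ) ^ 2 * y ≤ (96 * D * B : ℝ) ^ 2 * ((aS + 2) * k * B) := h1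
      _ = 96 ^ 2 * D ^ 2 * (aS + 2) * (B : ℝ) ^ 3 * k := by ring
      _ ≤ k * k := h3
      _ = (k : ℝ) ^ 2 := by ring
  have hm : (0 : ℝ) < max C 1 := lt_max_of_lt_right one_pos
  rw [log_mul hm.ne' (by positivity), log_pow, Nat.cast_pow, log_pow, le_div_iff₀ (by positivity)]
  have u1 : (D : ℝ) * log y ≤ D * (2 * √y) := mul_le_mul_of_nonneg_left hly (by positivity)
  have u2 : (aM : ℝ) * log B ≤ aM * B := mul_le_mul_of_nonneg_left hlB (by positivity)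
  have u3 : (log (max C 1) + D * log y + aM * log B) * (16 * B) ≤
      (c0 + D * (2 * √y) + aM * B) * (16 * B) :=
    mul_le_mul_of_nonneg_right (by linarith) (by positivity)
  have u4 : ((c0 : ℝ) + D * (2 * √y) + aM * B) * (16 * B) =
      (48 * (c0 : ℝ) * B + 96 * D * B * √y + 48 * (aM : ℝ) * (B : ℝ) ^ 2) / 3 := by ring
  linarith

end LIOc

theorem p_LIO (hFIB : S_FIB) (hSTEP : S_STEP) (hMULT : S_MULT) (hREG : S_REG) :
    S_LIO := by
  classical
  intro n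
  obtain ⟨aF, C, hF⟩ := hFIB (n + 1)
  obtain ⟨aS, hS⟩ := hSTEP n
  obtain ⟨aM, hM⟩ := hMULT n
  obtain ⟨aR, hR⟩ := hREG n
  obtain ⟨c0, hc0⟩ := exists_nat_ge (log (max C 1))
  obtain ⟨M, hMd⟩ : ∃ M : ℕ, M = 48 * c0 + 48 * aM + 96 ^ 2 * (n + 1) ^ 2 * (aS + 2) := ⟨_, rfl⟩
  obtain ⟨c, hc⟩ : ∃ c : ℕ, c = aR + aS * aF := ⟨_, rfl⟩
  refine ⟨(n + 2) * (aF + 1), M + c + 3, ?_⟩
  intro p B T t k m L Ω _ P a hp hpB hk hL htk hmL hG
  have hp0 := hp.pos
  have hB2 : 2 ≤ B := hp.two_le.trans hpB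
  have hkM : (M + c) * B ^ 3 ≤ k := by
    refine le_trans ?_ hk
    rw [pow_add]
    exact Nat.mul_le_mul_right _ (Nat.lt_pow_self (by omega)).le
  have hk1 : 1 ≤ k := le_trans (Nat.one_le_pow _ _ (by omega)) hk
  have hB3 : B ≤ B ^ 3 := Nat.le_self_pow (by norm_num) B
  have hcB : B * c ≤ k := by nlinarith [Nat.zero_le (M * B ^ 3), Nat.mul_le_mul_left c hB3]
  obtain ⟨e, he⟩ : ∃ e, e = L / (n + 2) := ⟨_, rfl⟩
  have he1 : (n + 1 + 1) * e ≤ L := by rw [he]; exact Nat.mul_div_le L (n + 2)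
  have he2 : (aF + 1) * k ≤ e := by
    rw [he, Nat.le_div_iff_mul_le (by omega)]
    calc (aF + 1) * k * (n + 2) = (n + 2) * (aF + 1) * k := by ring
      _ ≤ L := hL
  have heL : e ≤ L := by rw [he]; exact Nat.div_le_self _ _
  have hR2 : 2 ≤ B ^ aS * p ^ k :=
    (hp.two_le.trans (Nat.le_self_pow (by omega) p)).trans
      (Nat.le_mul_of_pos_left _ (Nat.pow_pos (by omega)))
  have hGR : B ^ aR * (B ^ aS * p ^ k) ^ aF ≤ p ^ e := by
    have h1 : B ^ c ≤ p ^ k := by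
      calc B ^ c ≤ (2 ^ B) ^ c := Nat.pow_le_pow_left (Nat.lt_two_pow_self).le c
        _ = 2 ^ (B * c) := by rw [pow_mul]
        _ ≤ 2 ^ k := Nat.pow_le_pow_right (by norm_num) hcB
        _ ≤ p ^ k := Nat.pow_le_pow_left hp.two_le k
    calc B ^ aR * (B ^ aS * p ^ k) ^ aF = B ^ c * p ^ (k * aF) := by
          rw [hc, mul_pow, ← pow_mul, ← pow_mul, pow_add, mul_assoc]
      _ ≤ p ^ k * p ^ (k * aF) := Nat.mul_le_mul_right _ h1
      _ = p ^ ((aF + 1) * k) := by rw [← pow_add]; congr 1; ring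
      _ ≤ p ^ e := Nat.pow_le_pow_right hp0 he2
  have hgW : ∀ ω ω', xx p T a t ω' = xx p T a t ω → gg p B T a t m ω' = gg p B T a t m ω :=
    fun ω ω' h => by rw [gg, gg, h]
  have h1 := P.H_le_add (xx p T a (t + k)) (xx p T a t)
  have h2 := P.Hc_le_add (xx p T a (t + k)) (yy p B T a L (t + k) m) (xx p T a t)
  have h3 := P.Hc_le_add (xx p T a (t + k)) (ga p B T a k t m)
    fun ω => (yy p B T a L (t + k) m ω, xx p T a t ω)
  have h4 : P.Hc (xx p T a (t + k))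
      (fun ω => (ga p B T a k t m ω, yy p B T a L (t + k) m ω, xx p T a t ω)) ≤
      log ((B ^ aM : ℕ) : ℝ) := by
    rw [← P.E_const (log ((B ^ aM : ℕ) : ℝ))]
    refine P.Hc_le_E fun ω hω => ?_
    obtain ⟨F, hF1, hF2⟩ := hM p B (t + k - m) (gg p B T a (t + k) m ω) hp0 hB2
    refine ⟨F, by exact_mod_cast hF1, fun ω' hω' h => hF2 _ ?_⟩
    have e1 : ga p B T a k t m ω' = ga p B T a k t m ω := congrArg Prod.fst h
    have e2 := hgW ω ω' (congrArg (fun x => x.2.2) h)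
    rw [ga, ga, e2, mul_left_inj] at e1
    rw [← e1]
    exact (hG ω' hω').frame htk m
  have h5 : P.Hc (ga p B T a k t m) (fun ω => (yy p B T a L (t + k) m ω, xx p T a t ω)) ≤
      log (max C 1 * (1 + log ((B ^ aS * p ^ k : ℕ) : ℝ)) ^ (n + 1)) := by
    rw [← P.E_const (log (max C 1 * (1 + log ((B ^ aS * p ^ k : ℕ) : ℝ)) ^ (n + 1)))]
    refine P.Hc_le_E fun ω hω => ?_
    refine ⟨(univ.filter fun ω' => 0 < P.p ω' ∧ (yy p B T a L (t + k) m ω', xx p T a t ω') =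
      (yy p B T a L (t + k) m ω, xx p T a t ω)).image (ga p B T a k t m), ?_,
      fun ω' hω' h => mem_image_of_mem _ (mem_filter.2 ⟨mem_univ _, hω', h⟩)⟩
    have ht : t ≤ T := by omega
    have hfr : Frame p B (t - (m + e) + e) (xx p T a t ω) (gg p B T a t m ω) := by
      rw [show t - (m + e) + e = t - m by omega]
      exact (hG ω hω).frame ht m
    obtain ⟨r1, r2, -⟩ := hR p B (t - (m + e)) e _ _ _ hp hB2 hfr ((hG ω hω).frame ht (m + e))
      ((hG ω hω).not_short ht (m + e))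
    refine (hF p (B ^ aR) (B ^ aS * p ^ k) e L (col (gg p B T a t m ω)) _ hp hR2 r1 r2 hGR he1
      ?_ ?_).trans ?_
    · intro g hg
      obtain ⟨ω', hω', rfl⟩ := mem_image.1 hg
      have hp' := (mem_filter.1 hω').2.1
      refine hS p B (t - m) k (xx p T a t ω') (xx p T a (t + k) ω') _ _ hp0 hB2
        (pre_xx a htk ω') ((hG ω' hp').frame ht m) ?_
      rw [show t - m + k = t + k - m by omega]
      exact (hG ω' hp').frame htk m
    · have key : ∀ ω', (yy p B T a L (t + k) m ω', xx p T a t ω') =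
          (yy p B T a L (t + k) m ω, xx p T a t ω) →
          Dl p L ((ga p B T a k t m ω' : Mt (n + 1)) *ᵥ col (gg p B T a t m ω)) =
            yy p B T a L (t + k) m ω := fun ω' h => by
        rw [← hgW ω ω' (congrArg Prod.snd h), ← col_gg]
        exact congrArg Prod.fst h
      intro g hg h hh
      obtain ⟨ω₁, hω₁, rfl⟩ := mem_image.1 hg
      obtain ⟨ω₂, hω₂, rfl⟩ := mem_image.1 hh
      rw [key ω₁ (mem_filter.1 hω₁).2.2, key ω₂ (mem_filter.1 hω₂).2.2]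
    · refine mul_le_mul_of_nonneg_right (le_max_left _ _) (pow_nonneg ?_ _)
      have : 0 ≤ log ((B ^ aS * p ^ k : ℕ) : ℝ) := log_natCast_nonneg _
      linarith
  have h6 := LIOc.num c0 aM aS (n + 1) B k p C hc0 hp0 hpB
    (by rw [← hMd]; exact (Nat.mul_le_mul_right _ (Nat.le_add_right _ _)).trans hkM) hk1
  linarith

end Pool.Agent.P.MP_246241_nt.EK
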