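import Pool.Agent.P.MP_246241_nt.EK.If

/-! Step MAIN. -/

set_option autoImplicit false

namespace Pool.Agent.P.MP_246241_nt.EK

open Finset Matrix Real
open Pool.Agent.P.MP_bf60a1_an.RA

namespace MAINc

lemma unif {ι : Type} (g : ℕ → ι → ℝ) (h : ∀ k, 1 ≤ k → ∃ i, 0 < g k i) (M : ℕ) :
    ∃ c : ℝ, 0 < c ∧ ∀ k, 1 ≤ k → k < M → ∃ i, c ≤ g k i := by
  induction M with
  | zero => exact ⟨1, one_pos, fun k _ h => absurd h (Nat.not_lt_zero k)⟩
  | succ M ih =>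
    obtain ⟨c, hc, h1⟩ := ih
    by_cases hM : 1 ≤ M
    · obtain ⟨i, hi⟩ := h M hM
      refine ⟨min c (g M i), lt_min hc hi, fun k h2 h3 => ?_⟩
      rcases Nat.lt_succ_iff_lt_or_eq.1 h3 with h4 | rfl
      · obtain ⟨j, hj⟩ := h1 k h2 h4
        exact ⟨j, (min_le_left _ _).trans hj⟩
      · exact ⟨i, min_le_right _ _⟩
    · exact ⟨c, hc, fun k h2 h3 => by omega⟩

lemma loglog {k : ℕ} (h : 3 ≤ k) : 0 ≤ log (log k) := by
  refine log_nonneg ((le_log_iff_exp_le (by positivity)).2 ?_)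
  have : (3 : ℝ) ≤ k := by exact_mod_cast h
  linarith [exp_one_lt_d9]

lemma wpos {p k : ℕ} (hp : p.Prime) (hk : 1 ≤ k) :
    0 < (k : ℝ) * ((padicNorm p (k : ℚ) : ℚ) : ℝ) := by
  have := Fact.mk hp
  have h1 : (k : ℚ) ≠ 0 := by exact_mod_cast (by omega : k ≠ 0)
  have h2 : 0 < padicNorm p (k : ℚ) :=
    lt_of_le_of_ne (padicNorm.nonneg _) (padicNorm.nonzero h1).symm
  have h3 : (0 : ℝ) < k := by exact_mod_cast hk
  exact mul_pos h3 (by exact_mod_cast h2)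

end MAINc

open MAINc in
theorem p_MAIN (hPIECE : S_PIECE) :
    S_MAIN := by
  intro n hn
  obtain ⟨κ, hκ, h⟩ := hPIECE n hn
  refine ⟨κ, hκ, fun p hp => ?_⟩
  refine le_antisymm ((dimH_mono (t := ⋃ q : ℕ × Vc n, {α : Fin n → ℝ | (fun i => ⌊α i⌋) = q.2 ∧
    ∀ k : ℕ, 1 ≤ k → ∃ i, 1 / ((q.1 : ℝ) + 1) ≤
      ((k : ℝ) * ((padicNorm p (k : ℚ) : ℚ) : ℝ)) ^ ((1 : ℝ) / (n : ℝ)) *
        max 1 (log (log k)) ^ κ * |(k : ℝ) * α i - ((round ((k : ℝ) * α i) : ℤ) : ℝ)|})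
    fun α hα => ?_).trans ?_) zero_le
  · simp only [Set.mem_ofPred_eq, not_forall, not_exists, not_and, not_lt] at hα
    obtain ⟨ε, hε, N, hN⟩ := hα
    have h1 : ∀ k : ℕ, 1 ≤ k → ∃ i, 0 <
        ((k : ℝ) * ((padicNorm p (k : ℚ) : ℚ) : ℝ)) ^ ((1 : ℝ) / (n : ℝ)) *
          max 1 (log (log k)) ^ κ * |(k : ℝ) * α i - ((round ((k : ℝ) * α i) : ℤ) : ℝ)| := by
      intro k hk
      obtain ⟨i, hi⟩ := hN ((N + 1) * k) (by nlinarith) (by positivity)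
      refine ⟨i, mul_pos (mul_pos (rpow_pos_of_pos (wpos hp hk) _)
        (rpow_pos_of_pos (lt_max_of_lt_left one_pos) _)) (abs_pos.2 fun e => ?_)⟩
      have e2 : (((N + 1) * k : ℕ) : ℝ) * α i =
          ((((N : ℤ) + 1) * round ((k : ℝ) * α i) : ℤ) : ℝ) := by
        push_cast
        rw [mul_assoc, sub_eq_zero.1 e, round_intCast]
      rw [e2, round_intCast, sub_self, abs_zero, mul_zero] at hi
      exact absurd hε hi.not_gt
    obtain ⟨c, hc, h2⟩ := unif _ h1 (max N 3)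
    obtain ⟨j, hj⟩ := exists_nat_one_div_lt (lt_min hc hε)
    refine Set.mem_iUnion.2 ⟨(j, fun i => ⌊α i⌋), rfl, fun k hk => ?_⟩
    rcases lt_or_ge k (max N 3) with h3 | h3
    · obtain ⟨i, hi⟩ := h2 k hk h3
      exact ⟨i, (hj.le.trans (min_le_left _ _)).trans hi⟩
    · obtain ⟨i, hi⟩ := hN k (le_of_max_le_left h3) hk
      refine ⟨i, (hj.le.trans (min_le_right _ _)).trans (hi.trans ?_)⟩
      refine mul_le_mul_of_nonneg_right (mul_le_mul_of_nonneg_left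
        (rpow_le_rpow (loglog (le_of_max_le_right h3)) (le_max_right _ _) hκ.le)
        (rpow_pos_of_pos (wpos hp hk) _).le) (abs_nonneg _)
  · rw [dimH_iUnion]
    exact iSup_le fun q => (h p _ q.2 hp (by positivity)).le

end Pool.Agent.P.MP_246241_nt.EK
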