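import Pool.Agent.P.MP_246241_nt.EK.If

/-! Step ONE. -/

set_option autoImplicit false

namespace Pool.Agent.P.MP_246241_nt.EK

open Finset Matrix Real
open Pool.Agent.P.MP_bf60a1_an.RA

namespace ONEc

theorem le_pw {B : ℕ} (hB : 2 ≤ B) (x : ℕ) : (x : ℝ) ≤ (B : ℝ) ^ x := by
  exact_mod_cast (Nat.lt_pow_self (by omega : 1 < B)).le

theorem num1 {D E p B m : ℕ} (hp : 2 ≤ p) (hB : p ≤ B) (hm : m ≤ B ^ E) :
    (D : ℝ) ^ 2 * m * log p * (16 * B) ≤ (B : ℝ) ^ (6 + 2 * D + E) := by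
  have hB2 : (2 : ℝ) ≤ B := by exact_mod_cast hp.trans hB
  have h1 := le_pw (hp.trans hB) D
  have h2 : (m : ℝ) ≤ (B : ℝ) ^ E := by exact_mod_cast hm
  have h3 : log p ≤ B := (log_le_self (by positivity)).trans (by exact_mod_cast hB)
  have h0 : 0 ≤ log p := log_natCast_nonneg p
  have h4 : (16 : ℝ) ≤ (B : ℝ) ^ 4 := by
    calc (16 : ℝ) = 2 ^ 4 := by norm_num
      _ ≤ _ := by gcongr
  calc _ ≤ ((B : ℝ) ^ D) ^ 2 * (B : ℝ) ^ E * B * ((B : ℝ) ^ 4 * B) := by gcongr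
    _ = _ := by ring

theorem num2 {D E C p B m : ℕ} (hp : 2 ≤ p) (hB : p ≤ B) (hC : 1 ≤ C) (hm : m ≤ B ^ E)
    (hq : p ^ m ≤ B ^ E) :
    8 * ((p : ℝ) ^ m) ^ 2 * log ((p : ℝ) ^ D / (1 / (48 * C * B))) ^ 2 / (1 / (48 * C * B)) * m ≤
      (B : ℝ) ^ (24 + 3 * E + 2 * D + 3 * C) := by
  have hB2 : (2 : ℝ) ≤ B := by exact_mod_cast hp.trans hB
  have hp2 : (2 : ℝ) ≤ p := by exact_mod_cast hp
  have hpB : (p : ℝ) ≤ B := by exact_mod_cast hB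
  have hC1 : (1 : ℝ) ≤ C := by exact_mod_cast hC
  have h1 := le_pw (hp.trans hB) C
  have h2 : (m : ℝ) ≤ (B : ℝ) ^ E := by exact_mod_cast hm
  have h3 : (p : ℝ) ^ m ≤ (B : ℝ) ^ E := by exact_mod_cast hq
  have h4 : (48 : ℝ) ≤ (B : ℝ) ^ 6 := by
    calc (48 : ℝ) ≤ 2 ^ 6 := by norm_num
      _ ≤ _ := by gcongr
  have h5 : (8 : ℝ) ≤ (B : ℝ) ^ 3 := by
    calc (8 : ℝ) = 2 ^ 3 := by norm_num
      _ ≤ _ := by gcongr
  have h6 : (48 * C * B : ℝ) ≤ (B : ℝ) ^ 6 * (B : ℝ) ^ C * B := by gcongr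
  have h7 : (1 : ℝ) ≤ 48 * C * B := by nlinarith
  have h8 : (1 : ℝ) ≤ (p : ℝ) ^ D := one_le_pow₀ (by linarith)
  rw [div_div_eq_mul_div, div_one, div_div_eq_mul_div, div_one]
  have h9 : 0 ≤ log ((p : ℝ) ^ D * (48 * C * B)) := log_nonneg (by nlinarith)
  have h10 : log ((p : ℝ) ^ D * (48 * C * B)) ≤ (B : ℝ) ^ D * ((B : ℝ) ^ 6 * (B : ℝ) ^ C * B) :=
    (log_le_self (by positivity)).trans (by gcongr)
  calc _ ≤ (B : ℝ) ^ 3 * ((B : ℝ) ^ E) ^ 2 * ((B : ℝ) ^ D * ((B : ℝ) ^ 6 * (B : ℝ) ^ C * B)) ^ 2 *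
        ((B : ℝ) ^ 6 * (B : ℝ) ^ C * B) * (B : ℝ) ^ E := by gcongr
    _ = _ := by ring

end ONEc

theorem p_ONE (hLIO : S_LIO) (hSUM : S_SUM) (hREG : S_REG) :
    S_ONE := by
  intro n
  obtain ⟨C₁, A₁, h1⟩ := hLIO n
  obtain ⟨e, h2⟩ := hREG n
  refine ⟨C₁ + 2, A₁ + (24 + 3 * (2 * e + 1) + 2 * (n + 1) + 3 * (C₁ + 2)), by omega, ?_⟩
  intro p B T t k m Ω κ _ P a C hp hB hk ht hm hG hC
  have hp2 := hp.two_le
  have hB2 : 2 ≤ B := hp2.trans hB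
  have hBR : (2 : ℝ) ≤ B := by exact_mod_cast hB2
  have hpw : ∀ x, x ≤ A₁ + (24 + 3 * (2 * e + 1) + 2 * (n + 1) + 3 * (C₁ + 2)) → B ^ x ≤ k :=
    fun x hx => (Nat.pow_le_pow_right (by omega) hx).trans hk
  obtain ⟨m₀, hm1, hm2, hm3⟩ : ∃ m₀, 1 ≤ m₀ ∧ (B ^ e) ^ 2 ≤ p ^ m₀ ∧ p ^ m₀ ≤ B ^ (2 * e + 1) := by
    refine ⟨Nat.log p ((B ^ e) ^ 2) + 1, by omega, (Nat.lt_pow_succ_log_self hp.one_lt _).le, ?_⟩
    calc _ = p ^ Nat.log p ((B ^ e) ^ 2) * p := pow_succ _ _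
      _ ≤ (B ^ e) ^ 2 * B := Nat.mul_le_mul (Nat.pow_log_le_self p (by positivity)) hB
      _ = _ := by ring
  have hm4 : m₀ ≤ B ^ (2 * e + 1) := (Nat.lt_pow_self hp.one_lt).le.trans hm3
  have hm5 : m₀ ≤ k := hm4.trans (hpw _ (by omega))
  have hL : (C₁ + 2) * k = C₁ * k + 2 * k := by ring
  have g1 := h1 p B T t k m ((C₁ + 2) * k - m₀) Ω P a hp hB (hpw _ (by omega)) (by omega) ht
    (by omega) hG
  have hC0 : (0 : ℝ) < ((C₁ + 2 : ℕ) : ℝ) := by positivity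
  have hC1 : (1 : ℝ) ≤ ((C₁ + 2 : ℕ) : ℝ) := by exact_mod_cast (by omega : 1 ≤ C₁ + 2)
  have g2 := hSUM (n + 1) p (B ^ e) ((C₁ + 2) * k) m₀ Ω κ (Vc n) P (ga p B T a k t m)
    (fun ω => col (gg p B T a t m ω)) C (xx p T a t) (1 / (48 * ((C₁ + 2 : ℕ) : ℝ) * B)) hp
    (by positivity) (one_div_le_one_div_of_le (by norm_num) (by nlinarith)) hm1 (by omega) hm2
    (fun ω _ ω' _ h => by simp only [gg]; rw [h]) hC (fun ω hω => by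
      have key : ∀ i ≤ (C₁ + 2) * k, _ := fun i hi =>
        h2 p B (t - (m + i)) i (xx p T a t ω) (gg p B T a t m ω) (gg p B T a t (m + i) ω) hp hB2
          (by
            rw [show t - (m + i) + i = t - m by omega]
            exact (hG ω hω).frame (by omega) m)
          ((hG ω hω).frame (by omega) _) ((hG ω hω).not_short (by omega) _)
      exact ⟨(key 0 (by omega)).1, fun i hi => (key i hi).2⟩)
  have e1 : ∀ L, (fun ω => Dl p L ((ga p B T a k t m ω : Mt (n + 1)) *ᵥ col (gg p B T a t m ω))) =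
      yy p B T a L (t + k) m := fun L => by
    funext ω
    rw [yy, col_gg]
  rw [e1, e1] at g2
  have n1 := ONEc.num1 (D := n + 1) hp2 hB hm4
  have n2 := ONEc.num2 (D := n + 1) hp2 hB (by omega : 1 ≤ C₁ + 2) hm4 hm3
  have n3 : (B : ℝ) ^ (6 + 2 * (n + 1) + (2 * e + 1)) ≤ k := by exact_mod_cast hpw _ (by omega)
  have n4 : ((n + 1 : ℕ) : ℝ) ^ 2 * m₀ * log p ≤ k / (16 * B) := by
    rw [le_div_iff₀ (by positivity)]
    exact n1.trans n3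
  have n5 : 3 * (1 / (48 * ((C₁ + 2 : ℕ) : ℝ) * B)) * (((C₁ + 2) * k : ℕ) : ℝ) = k / (16 * B) := by
    rw [Nat.cast_mul]
    field_simp
    ring
  have n6 : (B : ℝ) ^ (24 + 3 * (2 * e + 1) + 2 * (n + 1) + 3 * (C₁ + 2)) ≤
      (B : ℝ) ^ (A₁ + (24 + 3 * (2 * e + 1) + 2 * (n + 1) + 3 * (C₁ + 2))) :=
    pow_le_pow_right₀ (by linarith) (by omega)
  have n7 : (k : ℝ) / (4 * B) = 4 * (k / (16 * B)) := by
    field_simp
    ring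
  have n8 : (0 : ℝ) ≤ k / (16 * B) := by positivity
  have n9 := mul_le_mul_of_nonneg_right (n2.trans n6) (add_nonneg
    (MI_nonneg P (yy p B T a ((C₁ + 2) * k) t m) (ga p B T a k t m) C)
    (MI_nonneg P (yy p B T a ((C₁ + 2) * k) (t + k) m) (ga p B T a k t m) C))
  change _ ≤ _ + _ * (MI P (yy p B T a ((C₁ + 2) * k) t m) _ _ + _) at g2
  linarith

end Pool.Agent.P.MP_246241_nt.EK
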