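import Pool.Agent.P.MP_246241_nt.EK.If

/-! Step OVER. -/

set_option autoImplicit false

namespace Pool.Agent.P.MP_246241_nt.EK

open Finset Matrix Real
open Pool.Agent.P.MP_bf60a1_an.RA

namespace OVERc

theorem tel (f : ℕ → ℝ) (m : ℕ) {a b : ℕ} (h : a ≤ b) :
    ∑ i ∈ Ico a b, (f (i + m) - f (i + (m + 1))) = f (a + m) - f (b + m) := by
  induction b, h using Nat.le_induction with
  | base => simp
  | succ b hb ih =>
    rw [sum_Ico_succ_top hb, ih, show b + (m + 1) = b + 1 + m by omega]
    ring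

theorem num (f : ℕ → ℝ) (g : ℝ) (hf : Antitone f) (hg : ∀ i, f i ≤ g) (a b L : ℕ) :
    ∀ m : ℕ, b + m ≤ L → ∑ i ∈ Ico a b, (f i - f (i + m)) ≤ m * (g - f L) := by
  intro m
  induction m with
  | zero => intro _; simp
  | succ m ih =>
    intro h
    have h1 := ih (by omega)
    have h2 : ∑ i ∈ Ico a b, (f (i + m) - f (i + (m + 1))) ≤ g - f L := by
      rcases le_total a b with hab | hab
      · rw [tel f m hab]
        have := hg (a + m)
        have := hf (show b + m ≤ L by omega)
        linarith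
      · rw [Ico_eq_empty_of_le hab, sum_empty]
        have := hg L
        linarith
    have h3 : ∑ i ∈ Ico a b, (f i - f (i + (m + 1))) =
        ∑ i ∈ Ico a b, (f i - f (i + m)) + ∑ i ∈ Ico a b, (f (i + m) - f (i + (m + 1))) := by
      rw [← sum_add_distrib]
      exact sum_congr rfl fun i _ => by ring
    rw [h3]
    push_cast
    linarith

end OVERc

theorem p_OVER :
    S_OVER := by
  intro Ω X G κ _ P Y Γ C m a b L hY hL
  have hD : ∀ i j, i ≤ j → P.Det (Y j) (Y i) := fun i j hij => by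
    induction j, hij using Nat.le_induction with
    | base => exact fun _ _ _ _ h => h
    | succ j _ ih => exact fun ω ω' h1 h2 h => ih ω ω' h1 h2 (hY j ω ω' h1 h2 h)
  have hf : Antitone fun i => P.Hc Γ fun ω => (Y i ω, C ω) := fun i j hij =>
    P.Hc_mono_right Γ fun ω ω' h1 h2 h =>
      Prod.ext (hD i j hij ω ω' h1 h2 (congrArg Prod.fst h)) (congrArg Prod.snd h :)
  have h := OVERc.num (fun i => P.Hc Γ fun ω => (Y i ω, C ω)) (P.Hc Γ C) hf
    (fun i => P.Hc_mono_right Γ fun _ _ _ _ h => congrArg Prod.snd h) a b L m hL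
  rw [MI_symm P (Y L)]
  refine le_trans (sum_le_sum fun i _ => ?_) h
  rw [MI_symm]
  refine sub_le_sub_left (P.Hc_mono_right Γ fun ω ω' h1 h2 h => ?_) _
  have e1 : Y (i + m) ω = Y (i + m) ω' := congrArg Prod.fst h
  have e2 : C ω = C ω' := congrArg Prod.snd h
  exact Prod.ext e1 (Prod.ext (hD i (i + m) (Nat.le_add_right _ _) ω ω' h1 h2 e1) e2)

end Pool.Agent.P.MP_246241_nt.EK
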