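import Pool.Agent.P.MP_246241_nt.EK.If

/-! Step PIECE. -/

set_option autoImplicit false

namespace Pool.Agent.P.MP_246241_nt.EK

open Finset Matrix Real
open Pool.Agent.P.MP_bf60a1_an.RA

namespace PIECEc

theorem loglog {p H A k : ℕ} (hp : p ≤ H) (hH : 2 ≤ H) (hA : 1 ≤ A) (hk : 1 ≤ k)
    (hk' : k ≤ p ^ 2 ^ H ^ A) : max 1 (log (log k)) ≤ 2 * (H : ℝ) ^ A := by
  have hH' : (2 : ℝ) ≤ H := by exact_mod_cast hH
  have h1 : (H : ℝ) ≤ (H : ℝ) ^ A := le_self_pow₀ (by linarith) (by omega)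
  have hk1 : (1 : ℝ) ≤ k := by exact_mod_cast hk
  have hlH : log H ≤ H := (log_le_sub_one_of_pos (by linarith)).trans (by linarith)
  have h2 : log k ≤ (2 : ℝ) ^ H ^ A * H := by
    have h3 : (k : ℝ) ≤ (H : ℝ) ^ 2 ^ H ^ A := by
      exact_mod_cast hk'.trans (Nat.pow_le_pow_left hp _)
    refine (log_le_log (by linarith) h3).trans ?_
    rw [log_pow]
    push_cast
    exact mul_le_mul_of_nonneg_left hlH (by positivity)
  have h4 : log ((2 : ℝ) ^ H ^ A * H) ≤ 2 * (H : ℝ) ^ A := by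
    rw [log_mul (by positivity) (by positivity), log_pow]
    push_cast
    have h5 : log 2 ≤ 1 := (log_le_sub_one_of_pos (by norm_num)).trans (by norm_num)
    have h6 : (H : ℝ) ^ A * log 2 ≤ (H : ℝ) ^ A * 1 :=
      mul_le_mul_of_nonneg_left h5 (by positivity)
    linarith
  refine max_le (by linarith) ?_
  rcases (log_nonneg hk1).eq_or_lt with h | h
  · rw [← h, log_zero]; positivity
  · exact (log_le_log h h2).trans h4

theorem small {n A H : ℕ} {c : ℝ} (hn : 1 ≤ n) (hA : 1 ≤ A) (hH : 2 ≤ H)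
    (h : 2 * ((2 / c) ^ n) ^ 2 < H) :
    (2 * (2 * (H : ℝ) ^ A) ^ (1 / (2 * n * A) : ℝ) / c) ^ n < H := by
  have hH' : (2 : ℝ) ≤ H := by exact_mod_cast hH
  have hn' : (0 : ℝ) < n := by exact_mod_cast hn
  have hA' : (0 : ℝ) < A := by exact_mod_cast hA
  have h1 : 2 * (H : ℝ) ^ A ≤ (2 * H) ^ A := by
    rw [mul_pow]
    exact mul_le_mul_of_nonneg_right (le_self_pow₀ (by norm_num) (by omega)) (by positivity)
  have h2 : (((2 * (H : ℝ) ^ A) ^ (1 / (2 * n * A) : ℝ)) ^ n) ^ 2 ≤ 2 * H := by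
    rw [← pow_mul, ← rpow_natCast, ← rpow_mul (by positivity)]
    have e : (1 / (2 * n * A) : ℝ) * ((n * 2 : ℕ) : ℝ) = (A : ℝ)⁻¹ := by
      push_cast; field_simp
    rw [e]
    refine (rpow_le_rpow (by positivity) h1 (by positivity)).trans (le_of_eq ?_)
    exact pow_rpow_inv_natCast (by positivity) (by omega)
  refine lt_of_pow_lt_pow_left₀ 2 (by positivity) ?_
  rw [mul_div_right_comm, mul_pow, mul_pow]
  have h3 := mul_le_mul_of_nonneg_left h2 (sq_nonneg ((2 / c) ^ n))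
  have h4 := mul_lt_mul_of_pos_right h (show (0 : ℝ) < H by linarith)
  nlinarith

end PIECEc

theorem p_PIECE (hCORE : S_CORE) (hFIN : S_FIN) (hDIM : S_DIM) :
    S_PIECE := by
  intro n hn
  obtain ⟨A, hA, hC⟩ := hCORE n
  have hn' : (0 : ℝ) < n := by exact_mod_cast hn
  have hA' : (0 : ℝ) < A := by exact_mod_cast hA
  refine ⟨1 / (2 * n * A), by positivity, fun p c z hp hc => ?_⟩
  refine hDIM n p _ hp.two_le fun ε hε T₁ => ?_
  obtain ⟨H, hH⟩ := exists_nat_gt ((p : ℝ) + T₁ + 1 / ε + 2 + 2 * ((2 / c) ^ n) ^ 2)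
  have a1 : (0 : ℝ) ≤ p := by positivity
  have a2 : (0 : ℝ) ≤ T₁ := by positivity
  have a3 : (0 : ℝ) < 1 / ε := by positivity
  have a4 : (0 : ℝ) ≤ 2 * ((2 / c) ^ n) ^ 2 := by positivity
  have b1 : p ≤ H := by exact_mod_cast (show (p : ℝ) ≤ H by linarith)
  have b2 : T₁ ≤ H := by exact_mod_cast (show (T₁ : ℝ) ≤ H by linarith)
  have b3 : 2 ≤ H := by exact_mod_cast (show (2 : ℝ) ≤ H by linarith)
  have b4 : (0 : ℝ) < H := by linarith
  obtain ⟨S, hS, hS'⟩ := hC p H (2 ^ H ^ A) z hp b1 le_rfl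
  refine ⟨2 ^ H ^ A, b2.trans ((Nat.le_self_pow (by omega) H).trans Nat.lt_two_pow_self.le), S,
    hS.trans ?_, fun α hα => hS' _ ?_ ?_⟩
  · rw [div_le_iff₀ b4]
    have h1 : 1 ≤ H * ε := (div_le_iff₀ hε).1 (by linarith)
    have h2 := mul_le_mul_of_nonneg_left h1 (show (0 : ℝ) ≤ ((2 ^ H ^ A : ℕ) : ℝ) by positivity)
    linarith
  · rw [← hα.1]
    funext i
    have h1 := Int.floor_div_natCast ((p : ℝ) ^ 2 ^ H ^ A * α i) (p ^ 2 ^ H ^ A)
    have h2 : ((p : ℝ) ^ 2 ^ H ^ A) ≠ 0 := pow_ne_zero _ (by exact_mod_cast hp.ne_zero)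
    push_cast at h1
    rw [mul_div_cancel_left₀ _ h2] at h1
    exact h1.symm
  · refine hFIN n p H _ α c ((2 * (H : ℝ) ^ A) ^ (1 / (2 * n * A) : ℝ)) hn hp b3 hc
      (by positivity) (PIECEc.small hn hA b3 (by linarith)) fun k hk hk' => ?_
    obtain ⟨i, hi⟩ := hα.2 k hk
    refine ⟨i, hi.trans (mul_le_mul_of_nonneg_right (mul_le_mul_of_nonneg_left
      (rpow_le_rpow (by positivity) (PIECEc.loglog b1 b3 hA hk hk') (by positivity)) ?_)
      (abs_nonneg _))⟩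
    exact rpow_nonneg (mul_nonneg (by positivity) (by exact_mod_cast padicNorm.nonneg _)) _

end Pool.Agent.P.MP_246241_nt.EK
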