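import Pool.Agent.P.MP_246241_nt.EK.If

/-! Step POR. -/

set_option autoImplicit false

namespace Pool.Agent.P.MP_246241_nt.EK

open Finset Matrix Real
open Pool.Agent.P.MP_bf60a1_an.RA

namespace PORc

theorem near {D : ℕ} {q : ℤ} {γ₁ γ₂ : Gl D} (h : ∀ a b, q ∣ (γ₁ : Mt D) a b - (γ₂ : Mt D) a b)
    (z : Vc D) (j : Fin D) : q ∣ (((γ₂⁻¹ * γ₁ : Gl D) : Mt D) *ᵥ z) j - z j := by
  have e : ((γ₂⁻¹ * γ₁ : Gl D) : Mt D) *ᵥ z - z =
      ((γ₂⁻¹ : Gl D) : Mt D) *ᵥ (((γ₁ : Mt D) - (γ₂ : Mt D)) *ᵥ z) := by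
    rw [sub_mulVec, mulVec_sub, mulVec_mulVec, mulVec_mulVec, Units.inv_mul, one_mulVec,
      Units.val_mul]
  rw [← Pi.sub_apply, e, mulVec, dotProduct]
  refine dvd_sum fun k _ => Dvd.dvd.mul_left ?_ _
  rw [mulVec, dotProduct]
  exact dvd_sum fun l _ => (h k l).mul_right _

theorem lin {D : ℕ} (M : Mt D) (a b : ℤ) (u z : Vc D) (j : Fin D) :
    (M *ᵥ fun k => a * u k + b * z k) j = a * (M *ᵥ u) j + b * (M *ᵥ z) j := by
  simp only [mulVec, dotProduct, mul_sum, ← sum_add_distrib]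
  exact sum_congr rfl fun k _ => by ring

theorem dv {a b c : ℤ} (h : a ∣ b) (e : c = b) : a ∣ c := e ▸ h

end PORc

theorem p_POR (hPROJ : S_PROJ) :
    S_POR := by
  intro D p G i m γ₁ γ₂ u₀ u hp hm hmi hG hγ hu₀ hu h0 h1 h2 hS
  have hP : Prime (p : ℤ) := Nat.prime_iff_prime_int.1 hp
  have hn := PORc.near hγ
  set g : Gl D := γ₂⁻¹ * γ₁ with hg
  have hpm : (p : ℤ) ∣ (p : ℤ) ^ m := dvd_pow_self _ (by omega)
  have hpi : (p : ℤ) ∣ (p : ℤ) ^ i := dvd_pow_self _ (by omega)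
  have hfix : Dl p i u = Dl p i ((g : Mt D) *ᵥ u) := by
    rw [← act_Dl, hg, act_mul, h1, ← act_mul, inv_mul_cancel, act_one]
  obtain ⟨l, hl, hv⟩ := hPROJ D p i u _ hp hu (hu.mul g) hfix
  choose v hv using hv
  have hv' : ∀ j, ((g : Mt D) *ᵥ u) j = l * u j + (p : ℤ) ^ i * v j := fun j => by
    rw [← hv j]; ring
  obtain ⟨j₀, hj₀⟩ := hu
  have hc₀ : IsCoprime (p : ℤ) (u j₀) := (hP.irreducible.coprime_iff_not_dvd).2 hj₀
  have hl1 : (p : ℤ) ^ m ∣ l - 1 := by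
    refine (hc₀.pow_left (m := m)).dvd_of_dvd_mul_right ?_
    have a1 := (hn u j₀).sub ((pow_dvd_pow (p : ℤ) hmi).mul_right (v j₀))
    rw [hv'] at a1
    refine PORc.dv (a1) ?_
    ring
  have hind : ∀ j : ℕ, act (g ^ j) (Dl p (i + m) u) =
      Dl p (i + m) fun k => 1 * u k + (p : ℤ) ^ i * j * v k := by
    intro j
    induction j with
    | zero => simp [act_one]
    | succ j ih =>
      rw [pow_succ', act_mul, ih, act_Dl]
      refine Dl_congr hl fun k => ?_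
      have a1 := (((hn v k).mul_left (j : ℤ)).sub (hl1.mul_right ((j + 1) * v k)))
      rw [PORc.lin, hv', pow_add]
      refine PORc.dv (mul_dvd_mul_left ((p : ℤ) ^ i) a1) ?_
      push_cast
      ring
  have hoff : ∃ a b, ¬ (p : ℤ) ∣ u a * v b - u b * v a := by
    by_contra hc
    have hc' : ∀ a b, (p : ℤ) ∣ u a * v b - u b * v a := fun a b => by
      by_contra h
      exact hc ⟨a, b, h⟩
    obtain ⟨b, a, hab⟩ := hc₀
    have hs : ∀ k, (p : ℤ) ∣ v k - a * v j₀ * u k := fun k => by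
      have a1 := ((hc' j₀ k).mul_left a).add (dvd_mul_right (p : ℤ) (b * v k))
      refine PORc.dv (a1) ?_
      linear_combination (-v k) * hab
    obtain ⟨μ, -, hz⟩ := hPROJ D p i u u₀ hp ⟨j₀, hj₀⟩ hu₀ h0.symm
    choose z hz using hz
    have hz' : u₀ = fun k => μ * u k + (p : ℤ) ^ i * z k := funext fun k => by
      rw [← hz k]; ring
    have hco : IsCoprime (l + (p : ℤ) ^ i * (a * v j₀)) (p : ℤ) := by
      obtain ⟨c, hc⟩ := hpi
      rw [hc, mul_assoc]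
      exact hl.add_mul_left_left _
    have hfix' : Dl p (i + 1) ((g : Mt D) *ᵥ u₀) = Dl p (i + 1) u₀ := by
      refine Dl_congr hco fun k => ?_
      have a1 := ((((hs k).mul_left μ).add (hpm.trans (hn z k))).sub
        ((hpm.trans hl1).mul_right (z k))).sub (hpi.mul_right (a * v j₀ * z k))
      rw [hz', PORc.lin, hv', pow_succ]
      refine PORc.dv (mul_dvd_mul_left ((p : ℤ) ^ i) a1) ?_
      ring
    refine h2 ?_
    rw [← act_Dl] at hfix'
    have e := congrArg (act γ₂) hfix'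
    rwa [← act_mul, hg, mul_inv_cancel_left] at e
  obtain ⟨ρ, ⟨c, hc⟩, hρ, hρv⟩ := hS v hoff
  obtain ⟨b, a, hab⟩ := ((hP.irreducible.coprime_iff_not_dvd).2 hρv).pow_left (m := m)
  have hpos : (0 : ℤ) < (p : ℤ) ^ m := pow_pos (by exact_mod_cast hp.pos) m
  obtain ⟨j, hj⟩ := Int.eq_ofNat_of_zero_le (Int.emod_nonneg (-c * a) hpos.ne')
  have hjl : (j : ℤ) < (p : ℤ) ^ m := hj ▸ Int.emod_lt_of_pos _ hpos
  refine ⟨j, by exact_mod_cast hjl.le, fun hF => hρv ?_⟩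
  rw [hind] at hF
  have hρ0 : ρ = 0 := by
    refine hF ρ ?_ fun k => ?_
    · have e : ρ ⬝ᵥ (fun k => 1 * u k + (p : ℤ) ^ i * j * v k) =
          (p : ℤ) ^ i * (c + j * (ρ ⬝ᵥ v)) := by
        rw [mul_add, ← hc]
        simp only [dotProduct, mul_sum, ← sum_add_distrib]
        exact sum_congr rfl fun k _ => by ring
      rw [mem_Dl, e, pow_add]
      refine mul_dvd_mul_left _ ⟨c * b - -c * a / (p : ℤ) ^ m * (ρ ⬝ᵥ v), ?_⟩
      rw [← hj, Int.emod_def]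
      linear_combination (-c) * hab
    · have a1 : (G : ℤ) ^ 2 ≤ (p : ℤ) ^ m := by exact_mod_cast hG
      calc (G : ℤ) * |ρ k| ^ D ≤ G * (G * (p : ℤ) ^ i) :=
            mul_le_mul_of_nonneg_left (hρ k) (by positivity)
        _ = (p : ℤ) ^ i * (G : ℤ) ^ 2 := by ring
        _ ≤ (p : ℤ) ^ (i + m) := by
            rw [pow_add]
            exact mul_le_mul_of_nonneg_left a1 (by positivity)
  rw [hρ0, zero_dotProduct]
  exact dvd_zero _

end Pool.Agent.P.MP_246241_nt.EK
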