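import Pool.Agent.P.MP_246241_nt.EK.If

/-! Step PROJ. -/

set_option autoImplicit false

namespace Pool.Agent.P.MP_246241_nt.EK

open Finset Matrix Real
open Pool.Agent.P.MP_bf60a1_an.RA

theorem p_PROJ :
    S_PROJ := by
  intro D p i u u' hp ⟨a, ha⟩ ⟨c, hc⟩ h
  have hp' : Prime (p : ℤ) := Nat.prime_iff_prime_int.1 hp
  rcases Nat.eq_zero_or_pos i with rfl | hi
  · exact ⟨1, isCoprime_one_left, fun j => by simp⟩
  have h1 : ∀ b, (p : ℤ) ^ i ∣ u a * u' b - u b * u' a := fun b => by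
    have h2 : (Pi.single b (u a) - Pi.single a (u b) : Vc D) ∈ Dl p i u := by
      rw [mem_Dl, sub_dotProduct, single_dotProduct, single_dotProduct, mul_comm, sub_self]
      exact dvd_zero _
    rwa [h, mem_Dl, sub_dotProduct, single_dotProduct, single_dotProduct] at h2
  obtain ⟨x, y, hy⟩ : IsCoprime ((p : ℤ) ^ i) (u a) :=
    ((Irreducible.coprime_iff_not_dvd hp'.irreducible).2 ha).pow_left
  have h3 : ∀ j, (p : ℤ) ^ i ∣ u' j - y * u' a * u j := fun j => by
    have e : u' j - y * u' a * u j = (p : ℤ) ^ i * (x * u' j) + y * (u a * u' j - u j * u' a) := by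
      linear_combination (-u' j) * hy
    rw [e]
    exact dvd_add (dvd_mul_right _ _) ((h1 j).mul_left _)
  refine ⟨y * u' a, ((Irreducible.coprime_iff_not_dvd hp'.irreducible).2 fun h4 => hc ?_).symm, h3⟩
  have h5 := dvd_add ((dvd_pow_self (p : ℤ) hi.ne').trans (h3 c)) (h4.mul_right (u c))
  simpa using h5

end Pool.Agent.P.MP_246241_nt.EK
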