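import Pool.Agent.P.MP_246241_nt.EK.If

/-! Step QUOT. -/

set_option autoImplicit false

namespace Pool.Agent.P.MP_246241_nt.EK

open Finset Matrix Real
open Pool.Agent.P.MP_bf60a1_an.RA

theorem p_QUOT :
    S_QUOT := by
  intro D
  refine ⟨D.factorial ^ D, fun X β Y b y h hb hy i j => ?_⟩
  obtain ⟨d, rfl⟩ : ∃ d, D = d + 1 := ⟨D - 1, by have := i.pos; omega⟩
  have e : (β.updateRow j (Y i)).det = X i j * β.det := by
    have : Y i = ∑ k, X i k • β k := by
      ext l; simp [← h, Matrix.mul_apply]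
    rw [this, det_updateRow_sum, smul_eq_mul]
  obtain ⟨σ, -, hσ⟩ := exists_max_image univ
    (fun σ : Equiv.Perm (Fin (d + 1)) => ∏ k, |β.updateRow j (Y i) k (σ k)|) univ_nonempty
  have h1 : |(β.updateRow j (Y i)).det| ≤
      ((d + 1).factorial : ℤ) * ∏ k, |β.updateRow j (Y i) k (σ k)| := by
    rw [← det_transpose, det_apply]
    refine (abs_sum_le_sum_abs _ _).trans ((sum_le_card_nsmul _ _ _ fun τ _ => ?_).trans_eq
      (by rw [card_univ, Fintype.card_perm, Fintype.card_fin, nsmul_eq_mul]))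
    refine le_trans (le_of_eq ?_) (hσ τ (mem_univ _))
    rcases Int.units_eq_one_or (Equiv.Perm.sign τ) with h | h <;> simp [h, abs_prod]
  have h2 : (∏ k, |β.updateRow j (Y i) k (σ k)|) ^ (d + 1) ≤ y * b ^ d := by
    rw [← prod_pow, Fin.prod_univ_succAbove _ j, updateRow_self]
    refine mul_le_mul (hy _ _) ((prod_le_prod (fun _ _ => by positivity) fun k _ => ?_).trans_eq
      (by rw [prod_const, card_univ, Fintype.card_fin])) (by positivity)
      (le_trans (by positivity) (hy i j))
    rw [updateRow_ne (Fin.succAbove_ne j k)]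
    exact hb _ _
  rw [← mul_pow, ← abs_mul, ← e]
  refine (pow_le_pow_left₀ (abs_nonneg _) h1 _).trans ?_
  rw [mul_pow, Nat.add_sub_cancel, mul_assoc, Nat.cast_pow]
  exact mul_le_mul_of_nonneg_left h2 (by positivity)

end Pool.Agent.P.MP_246241_nt.EK
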