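import Pool.Agent.P.MP_246241_nt.EK.If

/-! Step REG. -/

set_option autoImplicit false

namespace Pool.Agent.P.MP_246241_nt.EK

open Finset Matrix Real
open Pool.Agent.P.MP_bf60a1_an.RA

namespace REGc

theorem sum_pow {n : ℕ} (t : Fin (n + 1) → ℤ) (G M : ℤ) (hG : 0 ≤ G)
    (h : ∀ k, G * |t k| ^ (n + 1) ≤ M) :
    G * |∑ k, t k| ^ (n + 1) ≤ ((n + 1 : ℕ) : ℤ) ^ (n + 1) * M := by
  obtain ⟨k, -, hk⟩ := exists_max_image (univ : Finset (Fin (n + 1))) (fun k => |t k|) univ_nonempty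
  have h1 : |∑ k, t k| ≤ ((n + 1 : ℕ) : ℤ) * |t k| := by
    refine (abs_sum_le_sum_abs _ _).trans ?_
    have := sum_le_card_nsmul (univ : Finset (Fin (n + 1))) (fun k => |t k|) _ hk
    simpa using this
  calc G * |∑ k, t k| ^ (n + 1) ≤ G * (((n + 1 : ℕ) : ℤ) * |t k|) ^ (n + 1) :=
        mul_le_mul_of_nonneg_left (pow_le_pow_left₀ (abs_nonneg _) h1 _) hG
    _ = ((n + 1 : ℕ) : ℤ) ^ (n + 1) * (G * |t k| ^ (n + 1)) := by rw [mul_pow]; ring
    _ ≤ _ := mul_le_mul_of_nonneg_left (h k) (by positivity)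

theorem far {n p B l i G : ℕ} {x : Vc n} {g : Gl (n + 1)} (hp : 0 < p) (hB : 0 < B)
    (hG : (n + 1) ^ (n + 1) * B ^ 2 ≤ G) (hg : Frame p B (l + i) x g) (hs : ¬ Short p B l x) :
    Far p G i (Dl p i (col g)) := by
  intro ρ hρ hs'
  set w : Vc (n + 1) := ρ ᵥ* (g : Mt (n + 1)) with hw
  have h0 : (p : ℤ) ^ i ∣ w 0 := hρ
  obtain ⟨q, hq⟩ := h0
  set w' : Vc (n + 1) := Fin.cons q fun j => w j.succ with hw'
  have e : ∀ j, (p : ℤ) ^ i * (w' ᵥ* Tm p l x) j = (w ᵥ* Tm p (l + i) x) j := by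
    intro j
    refine Fin.cases ?_ (fun j => ?_) j
    · rw [vecMul_Tm_zero, vecMul_Tm_zero, hq]; simp [hw']
    · rw [vecMul_Tm_succ, vecMul_Tm_succ, hq]
      simp only [hw', Fin.cons_zero, Fin.cons_succ]; ring
  have hz : w' = 0 := by
    by_contra hne
    refine hs ⟨w', hne, fun j => ?_⟩
    have h1 := sum_pow (fun k => ρ k * ((g : Mt (n + 1)) * Tm p (l + i) x) k j) (G : ℤ)
      ((p : ℤ) ^ i * ((B : ℤ) * (p : ℤ) ^ (n * (l + i)))) (by positivity) fun k => by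
        rw [abs_mul, mul_pow, ← mul_assoc]
        exact mul_le_mul (hs' k) (hg k j) (by positivity) (by positivity)
    have h2 : ∑ k, ρ k * ((g : Mt (n + 1)) * Tm p (l + i) x) k j =
        (p : ℤ) ^ i * (w' ᵥ* Tm p l x) j := by
      rw [e, hw, vecMul_vecMul]; rfl
    rw [h2, abs_mul, abs_pow, Nat.abs_cast, mul_pow] at h1
    have h3 : (((n + 1 : ℕ) : ℤ) ^ (n + 1) * (B : ℤ) ^ 2) ≤ (G : ℤ) := by exact_mod_cast hG
    have hc : (0 : ℤ) < ((n + 1 : ℕ) : ℤ) ^ (n + 1) * (B : ℤ) * ((p : ℤ) ^ i) ^ (n + 1) := by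
      positivity
    refine le_of_mul_le_mul_left ?_ hc
    calc _ = (((n + 1 : ℕ) : ℤ) ^ (n + 1) * (B : ℤ) ^ 2) *
          (((p : ℤ) ^ i) ^ (n + 1) * |(w' ᵥ* Tm p l x) j| ^ (n + 1)) := by ring
      _ ≤ _ := mul_le_mul_of_nonneg_right h3 (by positivity)
      _ ≤ _ := h1
      _ = _ := by ring
  have hw0 : w = 0 := by
    ext j
    refine Fin.cases ?_ (fun j => ?_) j
    · have : q = 0 := by simpa [hw'] using congrFun hz 0
      simp [hq, this]
    · simpa [hw'] using congrFun hz j.succ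
  have : ρ = w ᵥ* ((g⁻¹ : Gl (n + 1)) : Mt (n + 1)) := by simp [hw]
  rw [this, hw0, zero_vecMul]

theorem span {D p G G' i : ℕ} {u : Vc D} {c : Mt D} (h : Bas p G i (Dl p i u) c) (hG : G ≤ G') :
    Span p G' i u := by
  rintro v ⟨a, b, hab⟩
  by_contra hn
  refine hab ?_
  have h1 : ∀ k, (p : ℤ) ∣ c k ⬝ᵥ v := fun k => by
    by_contra h2
    refine hn ⟨c k, (h.1 _).2 ⟨Pi.single k 1, by simp [single_vecMul, Matrix.row]⟩, fun j => ?_, h2⟩
    exact (h.2.2 k j).trans (mul_le_mul_of_nonneg_right (by exact_mod_cast hG) (by positivity))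
  obtain ⟨σ, hσ⟩ := (h.1 (Pi.single b (u a) - Pi.single a (u b))).1 (by
    rw [mem_Dl, sub_dotProduct, single_dotProduct, single_dotProduct, mul_comm, sub_self]
    exact dvd_zero _)
  have h3 : u a * v b - u b * v a = (σ ᵥ* c) ⬝ᵥ v := by
    rw [← hσ, sub_dotProduct, single_dotProduct, single_dotProduct]
  rw [h3, ← dotProduct_mulVec, dotProduct]
  exact dvd_sum fun k _ => (h1 k).mul_left _

end REGc

theorem p_REG (hLEVEL : S_LEVEL) :
    S_REG := by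
  intro n
  obtain ⟨a, ha⟩ := hLEVEL n
  refine ⟨a + ((n + 1) ^ (n + 1) + 2), fun p B l i x g g' hp hB hg hg' hs => ⟨?_, ?_, ?_⟩⟩
  · have h1 : Prim p (Pi.single (0 : Fin (n + 1)) (1 : ℤ) : Vc (n + 1)) :=
      ⟨0, by
        rw [Pi.single_eq_same]
        exact (Nat.prime_iff_prime_int.1 hp).not_dvd_one⟩
    have h2 := h1.mul g
    have e : (g : Mt (n + 1)) *ᵥ Pi.single 0 1 = col g := by
      ext j; simp [col, mulVec_single, Matrix.col]
    rwa [e] at h2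
  · refine REGc.far hp.pos (by omega) ?_ hg hs
    have h1 : (n + 1) ^ (n + 1) ≤ B ^ ((n + 1) ^ (n + 1)) := (Nat.lt_pow_self (by omega)).le
    calc _ ≤ B ^ ((n + 1) ^ (n + 1)) * B ^ 2 := Nat.mul_le_mul_right _ h1
      _ = B ^ ((n + 1) ^ (n + 1) + 2) := (pow_add _ _ _).symm
      _ ≤ _ := Nat.pow_le_pow_right (by omega) (by omega)
  · exact REGc.span (ha p B l i x g g' hp.pos hB hg hg').1
      (Nat.pow_le_pow_right (by omega) (by omega))

end Pool.Agent.P.MP_246241_nt.EK
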