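import Pool.Agent.P.MP_246241_nt.EK.If

/-! Step SING. -/

set_option autoImplicit false

namespace Pool.Agent.P.MP_246241_nt.EK

open Finset Matrix Real
open Pool.Agent.P.MP_bf60a1_an.RA

namespace SINGc

theorem pdvd {p l x : ℤ} (hp : Prime p) {e : ℕ} (h : p ^ (e + e) ∣ l * x) (hl : ¬ p ^ e ∣ l) :
    p ^ e ∣ x := by
  by_contra hx
  rw [pow_dvd_iff_le_emultiplicity, not_le] at hl hx
  rw [pow_dvd_iff_le_emultiplicity, emultiplicity_mul hp, Nat.cast_add] at h
  exact absurd h (not_le.2 (ENat.add_lt_add hl hx))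

theorem pow_bd {D R : ℕ} {N : Mt D} (h : Bd N R) (k : ℕ) :
    ∀ i j, |(N ^ k) i j| ≤ ((D : ℤ) * R) ^ k := by
  induction k with
  | zero =>
    intro i j
    rw [pow_zero, pow_zero, Matrix.one_apply]
    split_ifs <;> simp
  | succ k ih =>
    intro i j
    rw [pow_succ, Matrix.mul_apply]
    calc _ ≤ ∑ m, |(N ^ k) i m * N m j| := abs_sum_le_sum_abs _ _
      _ ≤ ∑ _m : Fin D, ((D : ℤ) * R) ^ k * R := sum_le_sum fun m _ => by
          rw [abs_mul]
          exact mul_le_mul (ih i m) (h m j) (abs_nonneg _) (by positivity)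
      _ = _ := by rw [sum_const, card_univ, Fintype.card_fin, nsmul_eq_mul]; ring

theorem num {D R : ℕ} (hR : 2 ≤ R) :
    (D + 1) * ((2 * (D * R)) ^ D * (D * R) ^ D) ≤ R ^ (D + (D + 2) * D + (D + 1) * D) := by
  have h1 : D + 1 ≤ R ^ D := (Nat.succ_le_of_lt Nat.lt_two_pow_self).trans
    (Nat.pow_le_pow_left hR D)
  have h2 : D * R ≤ R ^ (D + 1) := by
    rw [pow_succ]; exact Nat.mul_le_mul_right _ (by omega)
  have h3 : 2 * (D * R) ≤ R ^ (D + 2) := by
    rw [pow_succ, mul_comm 2]; exact Nat.mul_le_mul h2 hR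
  rw [pow_add, pow_add, pow_mul, pow_mul, mul_assoc]
  gcongr

end SINGc

theorem p_SING (hEIG : S_EIG) (hCOEF : S_COEF) :
    S_SING := by
  intro D
  obtain ⟨b, hb⟩ : ∃ b, b = D + (D + 2) * D + (D + 1) * D := ⟨_, rfl⟩
  refine ⟨b * D, fun p G R e L N u l hp hR _ hF hG hL hN hu hdet => ?_⟩
  rcases Nat.eq_zero_or_pos D with rfl | hD
  · exact Subsingleton.elim _ _
  have hp' : Prime (p : ℤ) := Nat.prime_iff_prime_int.1 hp
  have ker : ∀ M : Mt D, (∀ i j, |M i j| ≤ (R : ℤ) ^ b) → (∀ i, (p : ℤ) ^ e ∣ (M *ᵥ u) i) →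
      M = 0 := by
    intro M h1 h2
    funext i
    refine hF (M i) (h2 i) fun j => ?_
    calc (G : ℤ) * |M i j| ^ D ≤ G * ((R : ℤ) ^ b) ^ D := by gcongr; exact h1 i j
      _ ≤ _ := by rw [← pow_mul]; exact_mod_cast hG
  have he : e + e ≤ L := by nlinarith
  by_cases hl : (p : ℤ) ^ e ∣ l
  · refine ker N (fun i j => (hN i j).trans ?_) fun i => ?_
    · exact le_self_pow₀ (by exact_mod_cast (by omega : 1 ≤ R)) (by omega)
    · have h1 := (pow_dvd_pow (p : ℤ) (by omega : e ≤ L)).trans (hu i)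
      simpa using h1.add (hl.mul_right (u i))
  exfalso
  have hDR : 1 ≤ D * R := Nat.mul_pos hD (by omega)
  have hc : ∀ i, |N.charpoly.coeff i| ≤ (2 * ((D : ℤ) * R)) ^ D := fun i => by
    have := hCOEF D N (D * R) (by exact_mod_cast hDR) (fun μ w hw h => hEIG D _ R μ w
      (fun i j => by
        rw [Matrix.map_apply, Complex.norm_intCast]
        exact_mod_cast hN i j) hw h) i
    exact_mod_cast this
  have hbd : ∀ g : Polynomial ℤ, g.natDegree ≤ D → (∀ k, |g.coeff k| ≤ (2 * ((D : ℤ) * R)) ^ D) →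
      ∀ i j, |(Polynomial.aeval N g) i j| ≤ (R : ℤ) ^ b := by
    intro g h1 h2 i j
    rw [Polynomial.aeval_eq_sum_range' (Nat.lt_succ_of_le h1), Matrix.sum_apply]
    calc _ ≤ ∑ k ∈ range (D + 1), |(g.coeff k • N ^ k) i j| := abs_sum_le_sum_abs _ _
      _ ≤ ∑ _k ∈ range (D + 1), (2 * ((D : ℤ) * R)) ^ D * ((D : ℤ) * R) ^ D :=
          sum_le_sum fun k hk => by
            rw [Matrix.smul_apply, smul_eq_mul, abs_mul]
            refine mul_le_mul (h2 k) ((SINGc.pow_bd hN k i j).trans ?_) (abs_nonneg _)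
              (by positivity)
            exact pow_le_pow_right₀ (by exact_mod_cast hDR) (Nat.lt_succ_iff.1 (mem_range.1 hk))
      _ ≤ _ := by
          rw [sum_const, card_range, nsmul_eq_mul, hb]
          exact_mod_cast SINGc.num (D := D) hR
  have step : ∀ g : Polynomial ℤ, Polynomial.aeval N g = 0 →
      g.coeff 0 = 0 ∧ Polynomial.aeval N g.divX * N = 0 := by
    intro g hg
    rw [← Polynomial.divX_mul_X_add g, map_add, map_mul, Polynomial.aeval_X, Polynomial.aeval_C,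
      add_eq_zero_iff_eq_neg, Algebra.algebraMap_eq_smul_one, ← neg_smul] at hg
    have h1 := congrArg Matrix.det hg
    rw [det_mul, hdet, mul_zero, det_smul, det_one, mul_one] at h1
    have h2 : g.coeff 0 = 0 := neg_eq_zero.1 (pow_eq_zero_iff (by simpa using hD.ne') |>.1 h1.symm)
    refine ⟨h2, ?_⟩
    rw [hg, h2, neg_zero, zero_smul]
  have key : ∀ i, ∃ g : Polynomial ℤ, g.natDegree ≤ D ∧
      (∀ k, g.coeff k = N.charpoly.coeff (k + i)) ∧ Polynomial.aeval N g = 0 := by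
    intro i
    induction i with
    | zero => exact ⟨N.charpoly, by simp, fun _ => rfl, Matrix.aeval_self_charpoly N⟩
    | succ i ih =>
      obtain ⟨g, h1, h2, h3⟩ := ih
      have h4 : g.divX.natDegree ≤ D := Polynomial.natDegree_divX_le.trans h1
      have h5 : ∀ k, g.divX.coeff k = N.charpoly.coeff (k + (i + 1)) := fun k => by
        rw [Polynomial.coeff_divX, h2]; congr 1; omega
      refine ⟨g.divX, h4, h5, ker _ (hbd _ h4 fun k => by rw [h5]; exact hc _) fun j => ?_⟩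
      obtain ⟨M, hM⟩ : ∃ M, M = Polynomial.aeval N g.divX := ⟨_, rfl⟩
      have h6 : M * N = 0 := hM ▸ (step g h3).2
      rw [← hM]
      refine SINGc.pdvd hp' ((pow_dvd_pow _ he).trans ?_) hl
      have h7 : l * (M *ᵥ u) j = -(M *ᵥ (N *ᵥ u - l • u)) j := by
        rw [mulVec_sub, mulVec_mulVec, h6, zero_mulVec, mulVec_smul]
        simp
      rw [h7, dvd_neg, mulVec, dotProduct]
      exact dvd_sum fun k _ => (hu k).mul_left _
  obtain ⟨g, -, h2, h3⟩ := key D
  have h4 := (step g h3).1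
  have h5 : N.charpoly.coeff N.charpoly.natDegree = 1 := N.charpoly_monic
  rw [Matrix.charpoly_natDegree_eq_dim, Fintype.card_fin] at h5
  rw [h2, zero_add, h5] at h4
  exact one_ne_zero h4

end Pool.Agent.P.MP_246241_nt.EK
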