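import Pool.Agent.P.MP_246241_nt.EK.If

/-! Step STEP. -/

set_option autoImplicit false

namespace Pool.Agent.P.MP_246241_nt.EK

open Finset Matrix Real
open Pool.Agent.P.MP_bf60a1_an.RA

namespace STEPc

theorem comb {D : ℕ} {u v s t m P : ℤ} (hu : |u| ^ D ≤ m) (hv : |v| ^ D ≤ m) (hs : |s| ≤ P)
    (ht : |t| ≤ P) : |s * u + t * v| ^ D ≤ (2 * P) ^ D * m := by
  have hP : 0 ≤ P := (abs_nonneg _).trans hs
  have h1 : max |u| |v| ^ D ≤ m := by
    rcases max_choice |u| |v| with h | h <;> rwa [h]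
  have h2 : |s * u + t * v| ≤ 2 * P * max |u| |v| := by
    have a1 := mul_le_mul hs (le_max_left |u| |v|) (abs_nonneg _) hP
    have a2 := mul_le_mul ht (le_max_right |u| |v|) (abs_nonneg _) hP
    have a3 := abs_add_le (s * u) (t * v)
    rw [abs_mul, abs_mul] at a3
    linarith
  refine (pow_le_pow_left₀ (abs_nonneg _) h2 D).trans ?_
  rw [mul_pow]
  exact mul_le_mul_of_nonneg_left h1 (by positivity)

theorem fin {n C B : ℕ} {z P : ℤ} (hB : 2 ≤ B) (hP : 0 ≤ P)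
    (h : |z| ^ (n + 1) ≤ C * 2 ^ (n + 1) * (B : ℤ) ^ (n + 1) * P ^ (n + 1)) :
    |z| ≤ (B : ℤ) ^ (C + 2) * P := by
  have hB' : (2 : ℤ) ≤ B := by exact_mod_cast hB
  have h1 : (C : ℤ) ≤ ((B : ℤ) ^ C) ^ (n + 1) := by
    have a1 : C ≤ B ^ C := (Nat.lt_two_pow_self.le).trans (Nat.pow_le_pow_left hB C)
    have a2 : B ^ C ≤ (B ^ C) ^ (n + 1) := Nat.le_self_pow (by omega) _
    exact_mod_cast a1.trans a2
  refine (pow_le_pow_iff_left₀ (abs_nonneg _) (by positivity) (Nat.succ_ne_zero n)).1 (h.trans ?_)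
  rw [show ((B : ℤ) ^ (C + 2) * P) ^ n.succ =
    ((B : ℤ) ^ C) ^ (n + 1) * (B : ℤ) ^ (n + 1) * (B : ℤ) ^ (n + 1) * P ^ (n + 1) by
      rw [Nat.succ_eq_add_one]; ring]
  gcongr

end STEPc

theorem p_STEP (hQUOT : S_QUOT) :
    S_STEP := by
  intro n
  obtain ⟨C, hC⟩ := hQUOT (n + 1)
  refine ⟨C + 2, fun p B l k x x' g g' hp hB hx hg hg' => ?_⟩
  have hp' : (1 : ℤ) ≤ p := by exact_mod_cast hp
  have hP : (0 : ℤ) < (p : ℤ) ^ k := by positivity
  have hP1 : |(1 : ℤ)| ≤ (p : ℤ) ^ k := by rw [abs_one]; exact hP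
  have hP0 : |(0 : ℤ)| ≤ (p : ℤ) ^ k := by rw [abs_zero]; exact hP.le
  have hPP : |(p : ℤ) ^ k| ≤ (p : ℤ) ^ k := (abs_of_pos hP).le
  have hd : ∀ j, |x' j % (p : ℤ) ^ k| ≤ (p : ℤ) ^ k := fun j => by
    rw [abs_of_nonneg (Int.emod_nonneg _ hP.ne')]
    exact (Int.emod_lt_of_pos _ hP).le
  have ex : ∀ j, x' j % (p : ℤ) ^ k = x' j - (p : ℤ) ^ k * x j := fun j => by
    rw [← hx, Int.emod_def]
    rfl
  refine ⟨fun i j => ?_, fun i j => ?_⟩
  · have h1 := hC (((p : ℤ) ^ k) • ((g' * g⁻¹ : Gl (n + 1)) : Mt (n + 1))) _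
      (((p : ℤ) ^ k) • ((g' : Mt (n + 1)) * Tm p l x)) _
      ((2 * (p : ℤ) ^ k) ^ (n + 1) * (B * (p : ℤ) ^ (n * (l + k)))) (by
        rw [smul_mul_assoc, ← mul_assoc, ← Units.val_mul, inv_mul_cancel_right]) hg
      (fun i j => by
        refine Fin.cases ?_ (fun j => ?_) j
        · convert STEPc.comb (hg' i 0) (hg' i 0) hPP hP0 using 3
          rw [Matrix.smul_apply, mul_Tm_zero, mul_Tm_zero, smul_eq_mul]
          ring
        · convert STEPc.comb (hg' i j.succ) (hg' i 0) hP1 ((abs_neg _).trans_le (hd j)) using 3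
          rw [Matrix.smul_apply, mul_Tm_zero, mul_Tm_succ, mul_Tm_succ, smul_eq_mul, ex]
          ring) i j
    rw [det_frame, Matrix.smul_apply, smul_eq_mul, abs_mul, abs_of_pos hP, Nat.add_sub_cancel] at h1
    rw [Nat.cast_mul, Nat.cast_pow, Nat.cast_pow]
    refine STEPc.fin (n := n) hB hP.le (le_of_mul_le_mul_right (a := ((p : ℤ) ^ k) ^ (n + 1) *
      ((p : ℤ) ^ (n * l)) ^ (n + 1)) ?_ (by positivity))
    calc _ = _ := by ring
      _ ≤ _ := h1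
      _ = C * 2 ^ (n + 1) * (B : ℤ) ^ (n + 1) * (((p : ℤ) ^ k) ^ n * 1) *
        (((p : ℤ) ^ k) ^ (n + 1) * ((p : ℤ) ^ (n * l)) ^ (n + 1)) := by ring
      _ ≤ _ := by
        rw [pow_succ ((p : ℤ) ^ k) n]
        gcongr
        exact hP
  · have h1 := hC (((g' * g⁻¹)⁻¹ : Gl (n + 1)) : Mt (n + 1)) _
      ((g : Mt (n + 1)) * Tm p (l + k) x') _
      ((2 * (p : ℤ) ^ k) ^ (n + 1) * (B * (p : ℤ) ^ (n * l))) (by
        rw [← mul_assoc, ← Units.val_mul, _root_.mul_inv_rev, inv_inv, inv_mul_cancel_right]) hg'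
      (fun i j => by
        refine Fin.cases ?_ (fun j => ?_) j
        · convert STEPc.comb (hg i 0) (hg i 0) hP1 hP0 using 3
          rw [mul_Tm_zero, mul_Tm_zero]
          ring
        · convert STEPc.comb (hg i j.succ) (hg i 0) hPP (hd j) using 3
          rw [mul_Tm_zero, mul_Tm_succ, mul_Tm_succ, ex]
          ring) i j
    rw [det_frame, Nat.add_sub_cancel] at h1
    rw [Nat.cast_mul, Nat.cast_pow, Nat.cast_pow]
    refine STEPc.fin (n := n) hB hP.le (le_of_mul_le_mul_right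
      (a := ((p : ℤ) ^ (n * (l + k))) ^ (n + 1)) (h1.trans ?_) (by positivity))
    calc _ = C * 2 ^ (n + 1) * (B : ℤ) ^ (n + 1) * ((p : ℤ) ^ k) ^ (n + 1) *
        (((p : ℤ) ^ (n * (l + k))) ^ n * (p : ℤ) ^ (n * l)) := by ring
      _ ≤ _ := by
        rw [pow_succ ((p : ℤ) ^ (n * (l + k))) n]
        gcongr
        omega

end Pool.Agent.P.MP_246241_nt.EK
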