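import Pool.Agent.P.MP_246241_nt.EK.If

/-! Step TEL. -/

set_option autoImplicit false

namespace Pool.Agent.P.MP_246241_nt.EK

open Finset Matrix Real
open Pool.Agent.P.MP_bf60a1_an.RA

namespace TELc

theorem step {Ω α β γ : Type} [Fintype Ω] (P : FP Ω) {Y Y1 y y' : Ω → α} {c : Ω → β}
    {g A : Ω → γ} {E : ℝ} (dY : P.Det c Y) (d1 : P.Det (fun ω => (y ω, c ω)) Y1)
    (d2 : P.Det (fun ω => (c ω, Y1 ω)) y) (b1 : P.Hc c Y ≤ E) (b2 : P.Hc c Y1 ≤ E)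
    (b3 : P.Hc g (fun ω => (A ω, c ω)) ≤ E) (e1 : P.Det (fun ω => (y' ω, g ω, c ω)) y) :
    P.H Y1 + (MI P y g c + MI P y' g c) ≤
      P.H Y + P.H y' + 2 * (P.Hc A Y - P.Hc A Y1) + 5 * E := by
  have h1 := P.H_le_add Y1 c
  have h2 : P.Hc Y1 c ≤ P.Hc y c := P.Hc_mono_left d1
  have h3 := P.H_le_add c Y
  have h4 := P.Hc_le_H y' c
  have h5 : P.Hc y (fun ω => (g ω, c ω)) ≤ P.Hc y' fun ω => (g ω, c ω) := P.Hc_mono_left e1
  have h6 : P.Hc y (fun ω => (g ω, A ω, c ω)) ≤ P.Hc y fun ω => (g ω, c ω) :=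
    P.Hc_mono_right y fun _ _ _ _ h => by simp_all
  have h7 := P.Hc_symm y g fun ω => (A ω, c ω)
  have h8 := P.Hc_nonneg g fun ω => (y ω, A ω, c ω)
  have h9 := P.Hc_symm y A c
  have h10 : P.Hc A c ≤ P.Hc A Y := P.Hc_mono_right A dY
  have h11 : P.Hc A (fun ω => (c ω, Y1 ω)) ≤ P.Hc A fun ω => (y ω, c ω) :=
    P.Hc_mono_right A fun ω ω' a b h => Prod.ext (d2 ω ω' a b h) (congrArg Prod.fst h :)
  have h12 := P.Hc_le_add A c Y1
  unfold MI
  linarith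

theorem mem_next {D p e L : ℕ} (hp : 0 < p) {u v : Vc D} {c : Mt D}
    (h : c *ᵥ u = (p : ℤ) ^ e • v) (σ : Vc D) : σ ᵥ* c ∈ Dl p (e + L) u ↔ σ ∈ Dl p L v := by
  have : ((p : ℤ) ^ e) ≠ 0 := by positivity
  rw [mem_Dl, mem_Dl, ← dotProduct_mulVec, h, dotProduct_smul, smul_eq_mul, pow_add,
    mul_dvd_mul_iff_left this]

theorem next_eq {D p B e L : ℕ} (hp : 0 < p) {u v : Vc D} {c : Mt D}
    (hb : Bas p B e (Dl p e u) c) (h : c *ᵥ u = (p : ℤ) ^ e • v) :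
    Dl p (e + L) u = {ρ | ∃ σ ∈ Dl p L v, ρ = σ ᵥ* c} := by
  ext ρ
  constructor
  · intro hρ
    obtain ⟨σ, rfl⟩ := (hb.1 ρ).1 ((pow_dvd_pow _ (Nat.le_add_right e L)).trans hρ)
    exact ⟨σ, (mem_next hp h σ).1 hρ, rfl⟩
  · rintro ⟨σ, hσ, rfl⟩
    exact (mem_next hp h σ).2 hσ

theorem bas_le {Ω β : Type} [Fintype Ω] (P : FP Ω) {D p B e : ℕ} {M : ℝ}
    (hM : ∀ X, ∃ F : Finset (Mt D), (#F : ℝ) ≤ M ∧ ∀ c, Bas p B e X c → c ∈ F)
    {X : Ω → Set (Vc D)} {c : Ω → Mt D} {V : Ω → β}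
    (hb : ∀ ω, 0 < P.p ω → Bas p B e (X ω) (c ω)) (hV : P.Det V X) : P.Hc c V ≤ log M := by
  have := P.Hc_le_E (Z := c) (V := V) (N := fun _ => M) fun ω hω => by
    obtain ⟨F, h1, h2⟩ := hM (X ω)
    exact ⟨F, h1, fun ω' hω' h => h2 _ (hV ω' ω hω' hω h ▸ hb ω' hω')⟩
  rwa [P.E_const] at this

end TELc

open TELc in
theorem p_TEL :
    S_TEL := by
  intro D p B L N M Ω _ P u u' γ c c' hp hM hF h
  have key : ∀ j < N, (P.H fun ω => Dl p ((j + 1) * L) (u 0 ω)) +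
      (MI P (fun ω => Dl p L (u j ω)) (γ j) (c j) + MI P (fun ω => Dl p L (u' j ω)) (γ j) (c j)) ≤
      (P.H fun ω => Dl p (j * L) (u 0 ω)) + (P.H fun ω => Dl p L (u' j ω)) +
        2 * (P.Hc (γ 0) (fun ω => Dl p (j * L) (u 0 ω)) -
          P.Hc (γ 0) fun ω => Dl p ((j + 1) * L) (u 0 ω)) + 5 * log M := by
    intro j hj
    have hh := h j hj.le
    have h0 := h 0 (Nat.zero_le N)
    have dY : P.Det (c j) fun ω => Dl p (j * L) (u 0 ω) := fun ω ω' a b e => by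
      ext ρ
      rw [(hh ω a).2.1.1, (hh ω' b).2.1.1, e]
    rw [Nat.succ_mul]
    refine step P dY (fun ω ω' a b e => ?_) (fun ω ω' a b e => ?_) ?_ ?_ ?_ fun ω ω' a b e => ?_
    · obtain ⟨e1, e2⟩ := Prod.mk.inj e
      rw [next_eq hp (hh ω a).2.1 (hh ω a).2.2.2.1, next_eq hp (hh ω' b).2.1 (hh ω' b).2.2.2.1,
        e1, e2]
    · obtain ⟨e1, e2⟩ := Prod.mk.inj e
      ext σ
      rw [← mem_next hp (hh ω a).2.2.2.1, ← mem_next hp (hh ω' b).2.2.2.1, e1, e2]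
    · exact bas_le P (hF _) (fun ω a => (hh ω a).2.1) fun _ _ _ _ e => e
    · exact bas_le P (hF _) (fun ω a => (hh ω a).2.1) fun _ _ _ _ e =>
        Dl_of_le hp (Nat.le_add_right _ _) e
    · refine (P.Hc_mono_left (Z := c' j) fun ω ω' a b e => ?_).trans
        (bas_le P (hF _) (fun ω a => (hh ω a).2.2.1) fun ω ω' a b e => ?_)
      · obtain ⟨e1, e2⟩ := Prod.mk.inj e
        obtain ⟨e2, e3⟩ := Prod.mk.inj e2
        have hd : (c j ω).det ≠ 0 := fun z => by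
          have := (hh ω a).2.1.2.1
          rw [z, abs_zero] at this
          exact absurd this.symm (by positivity)
        refine Units.ext ((Matrix.isRegular_of_isLeftRegular_det
          (IsRegular.of_ne_zero hd).left).right ?_)
        beta_reduce
        rw [← (hh ω a).2.2.2.2, e1, e2, (hh ω' b).2.2.2.2, e3]
      · obtain ⟨e1, e2⟩ := Prod.mk.inj e
        have e3 := dY ω ω' a b e2
        beta_reduce at e3 ⊢
        rw [(h0 ω a).1, (h0 ω' b).1, ← act_Dl, ← act_Dl, e1, e3]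
    · obtain ⟨e1, e2⟩ := Prod.mk.inj e
      obtain ⟨e2, -⟩ := Prod.mk.inj e2
      rw [(hh ω a).1, (hh ω' b).1, ← act_Dl, ← act_Dl, e2] at e1
      exact act_inj _ e1
  have ind : ∀ n ≤ N, (P.H fun ω => Dl p (n * L) (u 0 ω)) +
      ∑ j ∈ range n, (MI P (fun ω => Dl p L (u j ω)) (γ j) (c j) +
        MI P (fun ω => Dl p L (u' j ω)) (γ j) (c j)) ≤
      ∑ j ∈ range n, (P.H fun ω => Dl p L (u' j ω)) + 2 * (P.H (γ 0) -
        P.Hc (γ 0) fun ω => Dl p (n * L) (u 0 ω)) + 5 * n * log M := by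
    intro n
    induction n with
    | zero =>
      intro _
      have := P.Hc_le_H (γ 0) fun ω => Dl p (0 * L) (u 0 ω)
      have e : (P.H fun ω => Dl p (0 * L) (u 0 ω)) = 0 := by
        simp only [zero_mul, Dl_zero, P.H_const]
      rw [e, sum_range_zero, sum_range_zero, Nat.cast_zero]
      linarith
    | succ n ih =>
      intro hn
      have h1 := ih (by omega)
      have h2 := key n (by omega)
      rw [sum_range_succ, sum_range_succ, Nat.cast_succ]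
      linarith
  have h1 := ind N le_rfl
  have h2 := P.Hc_nonneg (γ 0) fun ω => Dl p (N * L) (u 0 ω)
  linarith

end Pool.Agent.P.MP_246241_nt.EK
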