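import Pool.Agent.P.MP_246241_nt.EK.If

/-! Step TELC. -/

set_option autoImplicit false

namespace Pool.Agent.P.MP_246241_nt.EK

open Finset Matrix Real
open Pool.Agent.P.MP_bf60a1_an.RA

namespace TELCc

theorem bas_mono {D p B B' e : ℕ} {X : Set (Vc D)} {c : Mt D} (h : Bas p B e X c) (hB : B ≤ B') :
    Bas p B' e X c :=
  ⟨h.1, h.2.1, fun i j => (h.2.2 i j).trans
    (mul_le_mul_of_nonneg_right (by exact_mod_cast hB) (by positivity))⟩

theorem comm {n : ℕ} (p e : ℕ) (g0 gj h0 hj : Gl (n + 1)) :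
    lv p e h0 hj * ((h0 * g0⁻¹ : Gl (n + 1)) : Mt (n + 1)) =
      ((hj * gj⁻¹ : Gl (n + 1)) : Mt (n + 1)) * lv p e g0 gj := by
  simp only [lv, Units.val_mul, mul_assoc, Units.inv_mul_cancel_left]

theorem log_le_self' {B : ℕ} : log (B : ℝ) ≤ B :=
  Real.log_le_self (Nat.cast_nonneg B)

theorem num {K B : ℕ} (hB : 2 ≤ B) : (K : ℝ) * B ≤ (B : ℝ) ^ (K + 1) := by
  have h1 : K ≤ B ^ K := (Nat.lt_pow_self (by omega)).le
  have h2 : (K : ℝ) ≤ (B : ℝ) ^ K := by exact_mod_cast h1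
  rw [pow_succ]
  exact mul_le_mul_of_nonneg_right h2 (Nat.cast_nonneg B)

theorem logR {p B s k : ℕ} (hp : 0 < p) (hB : p ≤ B) (hk : 1 ≤ k) :
    log ((2 * (B ^ s * p ^ k) + 1 : ℕ) : ℝ) ≤ (3 + s) * B * k := by
  have hp' : (1 : ℝ) ≤ p := by exact_mod_cast hp
  have hpB : (p : ℝ) ≤ B := by exact_mod_cast hB
  have hB' : (1 : ℝ) ≤ B := hp'.trans hpB
  have hk' : (1 : ℝ) ≤ k := by exact_mod_cast hk
  have h1 : (1 : ℝ) ≤ (B : ℝ) ^ s * (p : ℝ) ^ k :=
    one_le_mul_of_one_le_of_one_le (one_le_pow₀ hB') (one_le_pow₀ hp')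
  have h2 : ((2 * (B ^ s * p ^ k) + 1 : ℕ) : ℝ) ≤ 3 * ((B : ℝ) ^ s * (p : ℝ) ^ k) := by
    push_cast; linarith
  have h3 : log ((2 * (B ^ s * p ^ k) + 1 : ℕ) : ℝ) ≤ log (3 * ((B : ℝ) ^ s * (p : ℝ) ^ k)) :=
    log_le_log (by positivity) h2
  rw [log_mul (by norm_num) (by positivity), log_mul (by positivity) (by positivity), log_pow,
    log_pow] at h3
  have h4 : log (3 : ℝ) ≤ 2 := by
    have := Real.log_le_sub_one_of_pos (show (0 : ℝ) < 3 by norm_num); linarith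
  have h5 : (s : ℝ) * log B ≤ s * (B * k) :=
    mul_le_mul_of_nonneg_left (log_le_self'.trans (by nlinarith)) (Nat.cast_nonneg s)
  have h6 : (k : ℝ) * log p ≤ k * B :=
    mul_le_mul_of_nonneg_left (log_le_self'.trans hpB) (Nat.cast_nonneg k)
  have h7 : (1 : ℝ) ≤ B * k := one_le_mul_of_one_le_of_one_le hB' hk'
  nlinarith

end TELCc

open TELCc in
theorem p_TELC (hTEL : S_TEL) (hSTEP : S_STEP) (hLEVEL : S_LEVEL) (hAMB : S_AMB) (hBOX : S_BOX) :
    S_TELC := by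
  intro n
  obtain ⟨aS, hS⟩ := hSTEP n
  obtain ⟨aL, hL⟩ := hLEVEL n
  obtain ⟨aA, hA⟩ := hAMB (n + 1)
  refine ⟨2 * ((n + 1) * (n + 1)) * (3 + aS) + 5 * (aA * (aL + 1)) + 1, ?_⟩
  intro p B T t k L N M Ω _ P a hp hpB hk htk hM hG
  have hp0 := hp.pos
  have hB : 2 ≤ B := hp.two_le.trans hpB
  have hBB : B ^ aL ≤ B ^ (aL + 1) := Nat.pow_le_pow_right (by omega) (by omega)
  have hB2 : 2 ≤ B ^ (aL + 1) := hB.trans (Nat.le_self_pow (by omega) B)
  have lev : ∀ s, s ≤ T → t ≤ s → ∀ j ≤ N, ∀ ω, 0 < P.p ω →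
      Bas p (B ^ (aL + 1)) (j * L) (Dl p (j * L) (col (gg p B T a s M ω)))
        (lv p (j * L) (gg p B T a s M ω) (gg p B T a s (M + j * L) ω)) ∧
      lv p (j * L) (gg p B T a s M ω) (gg p B T a s (M + j * L) ω) *ᵥ col (gg p B T a s M ω) =
        (p : ℤ) ^ (j * L) • col (gg p B T a s (M + j * L) ω) := by
    intro s hs hts j hj ω hω
    have h1 : j * L ≤ N * L := Nat.mul_le_mul_right L hj
    have f0 := (hG ω hω).frame hs M
    have fj := (hG ω hω).frame hs (M + j * L)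
    rw [show s - M = s - (M + j * L) + j * L by omega] at f0
    obtain ⟨h2, h3⟩ := hL p B _ _ _ _ _ hp0 hB f0 fj
    exact ⟨bas_mono h2 hBB, h3⟩
  have h0 : M + 0 * L = M := by simp
  have key := hTEL (n + 1) p (B ^ (aL + 1)) L N (((B ^ (aL + 1)) ^ aA : ℕ) : ℝ) Ω P
    (fun j ω => col (gg p B T a t (M + j * L) ω))
    (fun j ω => col (gg p B T a (t + k) (M + j * L) ω))
    (fun j => ga p B T a k t (M + j * L))
    (fun j ω => lv p (j * L) (gg p B T a t M ω) (gg p B T a t (M + j * L) ω))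
    (fun j ω => lv p (j * L) (gg p B T a (t + k) M ω) (gg p B T a (t + k) (M + j * L) ω))
    hp0 (by exact_mod_cast Nat.one_le_pow _ _ (by omega))
    (fun e X => by
      obtain ⟨F, h1, h2⟩ := hA p (B ^ (aL + 1)) e X hp0 hB2
      exact ⟨F, by exact_mod_cast h1, h2⟩)
    (fun j hj ω hω => by
      simp only [h0]
      exact ⟨col_gg .., (lev t (by omega) le_rfl j hj ω hω).1,
        (lev (t + k) htk (by omega) j hj ω hω).1, (lev t (by omega) le_rfl j hj ω hω).2,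
        comm ..⟩)
  simp only [h0] at key
  refine ⟨fun j ω => lv p (j * L) (gg p B T a t M ω) (gg p B T a t (M + j * L) ω),
    fun j ω ω' _ _ h => by simp only [gg, h], ?_⟩
  refine key.trans ?_
  rw [add_assoc]
  refine add_le_add le_rfl ?_
  obtain ⟨F, hF, hF'⟩ := hBOX (n + 1) (B ^ aS * p ^ k)
  have hγ : P.H (ga p B T a k t M) ≤ ((n + 1) * (n + 1) : ℕ) * ((3 + aS) * B * k) := by
    have h1 : P.H (ga p B T a k t M) ≤ P.H fun ω => (ga p B T a k t M ω : Mt (n + 1)) :=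
      P.H_mono fun ω ω' _ _ h => Units.ext h
    have h2 := P.H_le_log (Z := fun ω => (ga p B T a k t M ω : Mt (n + 1))) F
      (c := (((2 * (B ^ aS * p ^ k) + 1) ^ ((n + 1) * (n + 1)) : ℕ) : ℝ))
      (fun ω hω => hF' _ (by
        have f0 := (hG ω hω).frame (show t ≤ T by omega) M
        have f1 := (hG ω hω).frame htk M
        rw [show t + k - M = t - M + k by omega] at f1
        exact (hS p B _ _ _ _ _ _ hp0 hB (pre_xx a htk ω) f0 f1).1))
      (by exact_mod_cast hF)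
    rw [Nat.cast_pow, log_pow] at h2
    exact (h1.trans h2).trans
      (mul_le_mul_of_nonneg_left (logR hp0 hpB hk) (Nat.cast_nonneg _))
  have hM' : log (((B ^ (aL + 1)) ^ aA : ℕ) : ℝ) ≤ (aA * (aL + 1) : ℕ) * B := by
    rw [← pow_mul, Nat.cast_pow, log_pow, mul_comm (aL + 1)]
    exact mul_le_mul_of_nonneg_left log_le_self' (Nat.cast_nonneg _)
  have hn := num (K := 2 * ((n + 1) * (n + 1)) * (3 + aS) + 5 * (aA * (aL + 1))) hB
  have h5 : 5 * (N : ℝ) * log (((B ^ (aL + 1)) ^ aA : ℕ) : ℝ) ≤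
      5 * N * ((aA * (aL + 1) : ℕ) * B) := mul_le_mul_of_nonneg_left hM' (by positivity)
  have h6 := mul_le_mul_of_nonneg_right hn (show (0 : ℝ) ≤ k + N by positivity)
  refine le_trans ?_ h6
  have e1 : (0 : ℝ) ≤ 2 * ((n + 1) * (n + 1) : ℕ) * (3 + aS) * B * N := by positivity
  have e2 : (0 : ℝ) ≤ 5 * (aA * (aL + 1) : ℕ) * B * k := by positivity
  push_cast at *
  nlinarith

end Pool.Agent.P.MP_246241_nt.EK
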