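import Pool.Agent.P.MP_246241_nt.EK.If

/-! Step TV. -/

set_option autoImplicit false

namespace Pool.Agent.P.MP_246241_nt.EK

open Finset Matrix Real
open Pool.Agent.P.MP_bf60a1_an.RA

namespace TVc

variable {Ω α β : Type} [Fintype Ω]

theorem sumE (P : FP Ω) (W : Ω → α) (F : Finset α) (hF : ∀ ω, W ω ∈ F) (g : α → ℝ) :
    ∑ a ∈ F, (P.pr fun ω => W ω = a) * g a = P.E fun ω => g (W ω) := by
  have h1 : (P.E fun ω => g (W ω)) = P.E fun ω => ∑ a ∈ F, ind (W ω = a) * g a :=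
    P.E_congr fun ω _ => (sum_ind_eq F g (hF ω)).symm
  rw [h1, P.E_sum]
  exact sum_congr rfl fun a _ => (P.E_mul_right _ _).symm

theorem mass (P : FP Ω) (W : Ω → α) (F : Finset β) (φ : β → α) (hφ : Function.Injective φ) :
    ∑ x ∈ F, (P.pr fun ω => W ω = φ x) ≤ 1 := by
  unfold FP.pr
  rw [← P.E_sum]
  refine P.E_le fun ω _ => ?_
  by_cases h : ∃ x ∈ F, W ω = φ x
  · obtain ⟨x, hx, e⟩ := h
    rw [sum_eq_single x]
    · exact ind_le_one _
    · intro b _ hb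
      exact ind_neg fun e' => hb (hφ (e'.symm.trans e))
    · intro h'; exact absurd hx h'
  · rw [sum_eq_zero fun x hx => ind_neg fun e => h ⟨x, hx, e⟩]
    norm_num

theorem shift (f : α → ℝ) (S : Finset α) (T : Finset β) (φ : β → α) (hφ : Function.Injective φ)
    (h0 : ∀ w, 0 ≤ f w) (hS : ∀ w, f w ≠ 0 → w ∈ S) : ∑ x ∈ T, f (φ x) ≤ ∑ w ∈ S, f w := by
  classical
  rw [← sum_image (s := T) (g := φ) (f := f) fun a _ b _ h => hφ h, ← sum_filter_ne_zero]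
  exact sum_le_sum_of_subset_of_nonneg (fun w hw => hS w (mem_filter.1 hw).2) fun w _ _ => h0 w

theorem joint (hPINS : S_PINS) (P : FP Ω) (Γ : Ω → α) (Z : Ω → β) (GS : Finset α) (S : Finset β)
    (hG : ∀ ω, Γ ω ∈ GS) (hS : ∀ ω, Z ω ∈ S) (φ : α → β → β)
    (hφ : ∀ g, Function.Injective (φ g)) :
    ∑ j ∈ GS ×ˢ S, |(P.pr fun ω => (Γ ω, Z ω) = j) -
      (P.pr fun ω => Γ ω = j.1) * P.pr fun ω => φ (Γ ω) (Z ω) = φ j.1 j.2| ≤
      2 * √(MI0 P (fun ω => φ (Γ ω) (Z ω)) Γ) := by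
  have hm : ∀ ω, (Γ ω, Z ω) ∈ GS ×ˢ S := fun ω => mem_product.2 ⟨hG ω, hS ω⟩
  have h := hPINS (α × β) (GS ×ˢ S) (fun j => P.pr fun ω => (Γ ω, Z ω) = j)
    (fun j => (P.pr fun ω => Γ ω = j.1) * P.pr fun ω => φ (Γ ω) (Z ω) = φ j.1 j.2)
    (fun j _ => ⟨P.pr_nonneg _, mul_nonneg (P.pr_nonneg _) (P.pr_nonneg _), fun hp => by
      obtain ⟨ω, hω, e⟩ := P.exists_of_pr_pos hp
      subst e
      exact mul_pos (P.pr_pos hω rfl) (P.pr_pos hω rfl)⟩)
    (by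
      have := sumE P (fun ω => (Γ ω, Z ω)) _ hm fun _ => 1
      simpa only [mul_one, P.E_const] using this)
    (by
      rw [sum_product]
      have h1 := sumE P Γ GS hG fun _ => 1
      rw [P.E_const] at h1
      rw [← h1]
      refine sum_le_sum fun g _ => ?_
      simp only [← mul_sum]
      exact mul_le_mul_of_nonneg_left (mass P _ S (φ g) (hφ g)) (P.pr_nonneg _))
  rw [sumE P (fun ω => (Γ ω, Z ω)) _ hm fun j => log ((P.pr fun ω => (Γ ω, Z ω) = j) /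
    ((P.pr fun ω => Γ ω = j.1) * P.pr fun ω => φ (Γ ω) (Z ω) = φ j.1 j.2))] at h
  have e1 : (P.H fun ω => (φ (Γ ω) (Z ω), Γ ω)) = P.H fun ω => (Γ ω, Z ω) :=
    P.H_congr (fun ω ω' _ _ e => by
      simp only [Prod.mk.injEq] at e ⊢
      rw [e.1, e.2]; exact ⟨rfl, rfl⟩) fun ω ω' _ _ e => by
      simp only [Prod.mk.injEq] at e ⊢
      obtain ⟨e1, e2⟩ := e
      rw [e2] at e1
      exact ⟨e2, hφ _ e1⟩
  have e2 : (P.E fun ω => log ((P.pr fun ω' => (Γ ω', Z ω') = (Γ ω, Z ω)) /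
      ((P.pr fun ω' => Γ ω' = Γ ω) * P.pr fun ω' => φ (Γ ω') (Z ω') = φ (Γ ω) (Z ω)))) =
      MI0 P (fun ω => φ (Γ ω) (Z ω)) Γ := by
    rw [MI0, FP.Hc, e1]
    unfold FP.H
    rw [← P.E_sub, ← P.E_sub]
    refine P.E_congr fun ω hω => ?_
    have a1 := P.cl_pos (fun ω => (Γ ω, Z ω)) hω
    have a2 := P.cl_pos Γ hω
    have a3 := P.cl_pos (fun ω => φ (Γ ω) (Z ω)) hω
    change log (P.cl (fun ω => (Γ ω, Z ω)) ω / (P.cl Γ ω * P.cl (fun ω => φ (Γ ω) (Z ω)) ω)) = _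
    rw [log_div a1.ne' (mul_pos a2 a3).ne', log_mul a2.ne' a3.ne']
    ring
  rw [e2] at h
  have h4 : (2 : ℝ) * √(MI0 P (fun ω => φ (Γ ω) (Z ω)) Γ) =
      √(4 * MI0 P (fun ω => φ (Γ ω) (Z ω)) Γ) := by
    rw [sqrt_mul (by norm_num), show (4 : ℝ) = 2 ^ 2 by norm_num, sqrt_sq (by norm_num)]
  rw [h4]
  exact le_sqrt_of_sq_le h

theorem pair {G X : Type} [Group G] (ac : G → X → X) (h1 : ∀ x, ac 1 x = x)
    (hm : ∀ g h x, ac (g * h) x = ac g (ac h x)) (ν ν' : X → ℝ) (S : Finset X) (A : Set X) (K : ℕ)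
    (g₁ g₂ : G) (hν : ∀ x, 0 ≤ ν x) (hS : ∀ x, 0 < ν x → x ∈ S) (hA : ∀ x, 0 < ν x → x ∈ A)
    (hS' : ∀ y, 0 < ν' y → ac g₂⁻¹ y ∈ S) (hone : ∑ x ∈ S, ν x = 1)
    (hev : ∀ x, 0 < ν x → ∃ j ≤ K, ac ((g₂⁻¹ * g₁) ^ j) x ∉ A) :
    1 ≤ K * (∑ x ∈ S, |ν x - ν' (ac g₁ x)| + ∑ x ∈ S, |ν x - ν' (ac g₂ x)|) := by
  have hinj : ∀ g, Function.Injective (ac g) := fun g x y e => by
    have := congrArg (ac g⁻¹) e
    rwa [← hm, ← hm, inv_mul_cancel, h1, h1] at this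
  set g := g₂⁻¹ * g₁ with hg
  let err : X → ℝ := fun x => max (ν x - ν (ac g x)) 0
  let f : X → ℝ := fun w => max (ν' (ac g₂ w) - ν w) 0
  have herr : ∀ x, 0 ≤ err x := fun x => le_max_right _ _
  have hA1 : ∑ x ∈ S, err x ≤
      ∑ x ∈ S, |ν x - ν' (ac g₁ x)| + ∑ x ∈ S, |ν x - ν' (ac g₂ x)| := by
    have a1 : ∑ x ∈ S, f (ac g x) ≤ ∑ w ∈ S, f w :=
      shift f S S (ac g) (hinj g) (fun w => le_max_right _ _) fun w hw => by
        have : 0 < ν' (ac g₂ w) := by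
          by_contra hc
          exact hw (max_eq_right (by linarith [hν w, not_lt.1 hc]))
        have := hS' _ this
        rwa [← hm, inv_mul_cancel, h1] at this
    have a2 : ∑ w ∈ S, f w ≤ ∑ x ∈ S, |ν x - ν' (ac g₂ x)| :=
      sum_le_sum fun w _ => max_le (by rw [abs_sub_comm]; exact le_abs_self _) (abs_nonneg _)
    have a3 : ∑ x ∈ S, err x ≤ ∑ x ∈ S, (|ν x - ν' (ac g₁ x)| + f (ac g x)) :=
      sum_le_sum fun x _ => by
        have e : ac g₂ (ac g x) = ac g₁ x := by rw [← hm, hg, mul_inv_cancel_left]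
        have b1 : ν' (ac g₁ x) - ν (ac g x) ≤ f (ac g x) := by
          rw [← e]; exact le_max_left _ _
        have b2 : 0 ≤ f (ac g x) := le_max_right _ _
        exact max_le (by linarith [le_abs_self (ν x - ν' (ac g₁ x))])
          (add_nonneg (abs_nonneg _) b2)
    rw [sum_add_distrib] at a3
    linarith
  have tel : ∀ x j, ν x ≤ ν (ac (g ^ j) x) + ∑ i ∈ range j, err (ac (g ^ i) x) := by
    intro x j
    induction j with
    | zero => simp [h1]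
    | succ j ih =>
      rw [sum_range_succ, pow_succ', hm]
      have : ν (ac (g ^ j) x) - ν (ac g (ac (g ^ j) x)) ≤ err (ac (g ^ j) x) := le_max_left _ _
      linarith
  have hB : ∀ x, ν x ≤ ∑ i ∈ range K, err (ac (g ^ i) x) := fun x => by
    rcases (hν x).eq_or_lt with h0 | h0
    · rw [← h0]; exact sum_nonneg fun i _ => herr _
    · obtain ⟨j, hj, hn⟩ := hev x h0
      have a1 : ν (ac (g ^ j) x) ≤ 0 := not_lt.1 fun hc => hn (hA _ hc)
      have a2 : ∑ i ∈ range j, err (ac (g ^ i) x) ≤ ∑ i ∈ range K, err (ac (g ^ i) x) :=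
        sum_le_sum_of_subset_of_nonneg (range_mono hj) fun i _ _ => herr _
      linarith [tel x j]
  have hC : (1 : ℝ) ≤ K * ∑ x ∈ S, err x := by
    calc (1 : ℝ) = ∑ x ∈ S, ν x := hone.symm
      _ ≤ ∑ x ∈ S, ∑ i ∈ range K, err (ac (g ^ i) x) := sum_le_sum fun x _ => hB x
      _ = ∑ i ∈ range K, ∑ x ∈ S, err (ac (g ^ i) x) := sum_comm
      _ ≤ ∑ i ∈ range K, ∑ x ∈ S, err x := sum_le_sum fun i _ =>
          shift err S S _ (hinj _) herr fun w hw => hS w (by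
            by_contra hc
            exact hw (max_eq_right (by linarith [hν (ac g w), not_lt.1 hc])))
      _ = K * ∑ x ∈ S, err x := by rw [sum_const, card_range, nsmul_eq_mul]
  exact hC.trans (mul_le_mul_of_nonneg_left hA1 (Nat.cast_nonneg _))

end TVc

open TVc in
theorem p_TV (hPINS : S_PINS) :
    S_TV := by
  intro Ω G X _ _ P ac Γ Z A K h1 hm hA
  classical
  have hinj : ∀ g, Function.Injective (ac g) := fun g x y e => by
    have := congrArg (ac g⁻¹) e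
    rwa [← hm, ← hm, inv_mul_cancel, h1, h1] at this
  let GS : Finset G := univ.image Γ
  let S : Finset X := univ.image Z ∪
    (univ : Finset (Ω × Ω)).image fun x => ac (Γ x.1)⁻¹ (ac (Γ x.2) (Z x.2))
  have hG : ∀ ω, Γ ω ∈ GS := fun ω => mem_image_of_mem _ (mem_univ ω)
  have hS : ∀ ω, Z ω ∈ S := fun ω => mem_union_left _ (mem_image_of_mem _ (mem_univ ω))
  let ν : X → ℝ := fun x => P.pr fun ω => Z ω = x
  let ν' : X → ℝ := fun x => P.pr fun ω => ac (Γ ω) (Z ω) = x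
  let e : G → ℝ := fun g => ∑ x ∈ S, |ν x - ν' (ac g x)|
  have he : ∀ g, 0 ≤ e g := fun g => sum_nonneg fun _ _ => abs_nonneg _
  have j1 := joint hPINS P Γ Z GS S hG hS (fun _ x => x) fun _ => Function.injective_id
  have j2 := joint hPINS P Γ Z GS S hG hS ac hinj
  have a1 : (P.E fun ω => e (Γ ω)) ≤
      2 * √(MI0 P Z Γ) + 2 * √(MI0 P (fun ω => ac (Γ ω) (Z ω)) Γ) := by
    refine le_trans ?_ (add_le_add j1 j2)
    rw [← sumE P Γ GS hG e, ← sum_add_distrib, sum_product]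
    refine sum_le_sum fun g _ => ?_
    rw [mul_sum]
    refine sum_le_sum fun x _ => ?_
    have hp := P.pr_nonneg fun ω => Γ ω = g
    rw [← abs_of_nonneg hp, ← abs_mul, abs_of_nonneg hp, mul_sub]
    exact (abs_sub_le _ (P.pr fun ω => (Γ ω, Z ω) = (g, x)) _).trans
      (add_le_add (le_of_eq (abs_sub_comm _ _)) le_rfl)
  have a2 : ∀ x : Ω × Ω,
      ind (∀ ω, 0 < P.p ω → ∃ j ≤ K, ac (((Γ x.2)⁻¹ * Γ x.1) ^ j) (Z ω) ∉ A) ≤
        K * (e (Γ x.1) + e (Γ x.2)) := fun x => by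
    by_cases hx : ∀ ω, 0 < P.p ω → ∃ j ≤ K, ac (((Γ x.2)⁻¹ * Γ x.1) ^ j) (Z ω) ∉ A
    · rw [ind_pos hx]
      refine pair ac h1 hm ν ν' S A K (Γ x.1) (Γ x.2) (fun _ => P.pr_nonneg _) ?_ ?_ ?_ ?_ ?_
      · intro y hy
        obtain ⟨ω, _, rfl⟩ := P.exists_of_pr_pos hy
        exact hS ω
      · intro y hy
        obtain ⟨ω, hω, rfl⟩ := P.exists_of_pr_pos hy
        exact hA ω hω
      · intro y hy
        obtain ⟨ω, _, rfl⟩ := P.exists_of_pr_pos hy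
        exact mem_union_right _ (mem_image.2 ⟨(x.2, ω), mem_univ _, rfl⟩)
      · have := sumE P Z S hS fun _ => 1
        simpa only [mul_one, P.E_const] using this
      · intro y hy
        obtain ⟨ω, hω, rfl⟩ := P.exists_of_pr_pos hy
        exact hx ω hω
    · rw [ind_neg hx]
      exact mul_nonneg (Nat.cast_nonneg _) (add_nonneg (he _) (he _))
  refine ((P.prod P).E_mono fun x _ => a2 x).trans ?_
  rw [FP.E_mul_left, FP.E_add, P.prod_fst P fun ω => e (Γ ω), P.prod_snd P fun ω => e (Γ ω)]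
  have hK : (0 : ℝ) ≤ K := Nat.cast_nonneg _
  nlinarith [mul_le_mul_of_nonneg_left a1 hK]

end Pool.Agent.P.MP_246241_nt.EK
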