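import Pool.Agent.P.MP_246241_nt.EK.If

/-! Step TWO. -/

set_option autoImplicit false

namespace Pool.Agent.P.MP_246241_nt.EK

open Finset Matrix Real
open Pool.Agent.P.MP_bf60a1_an.RA

namespace TWOc

theorem arith {k N C b X Y S D H0 Hm : ℝ} (hC : 0 < C) (hb : 0 < b) (hX : 0 < X) (hY : 0 < Y)
    (hk : 32 * b * X * Y ≤ k) (hN : 32 * b * X * Y ≤ N) (h1 : N * (D - k / (4 * b)) ≤ X * S)
    (h2 : H0 + S ≤ N * Hm + Y * (k + N)) :
    H0 / (N * (C * k)) ≤ Hm / (C * k) - (D / k - 1 / b / 4) / (C * X) + 1 / b / (16 * (C * X)) := by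
  have k0 : 0 < k := lt_of_lt_of_le (by positivity) hk
  have N0 : 0 < N := lt_of_lt_of_le (by positivity) hN
  have a1 : N * (D - k / (4 * b)) / X ≤ S := by rw [div_le_iff₀ hX]; linarith
  have a2 : Y * (k + N) ≤ N * k / (16 * b * X) := by
    rw [le_div_iff₀ (by positivity)]
    nlinarith [mul_le_mul_of_nonneg_left hk N0.le, mul_le_mul_of_nonneg_left hN k0.le]
  rw [div_le_iff₀ (by positivity)]
  calc H0 ≤ N * Hm - N * (D - k / (4 * b)) / X + N * k / (16 * b * X) := by linarith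
    _ = _ := by field_simp

end TWOc

theorem p_TWO (hONE : S_ONE) (hTELC : S_TELC) :
    S_TWO := by
  intro n
  obtain ⟨C₀, A₁, hC, h1⟩ := hONE n
  obtain ⟨A₂, h2⟩ := hTELC n
  refine ⟨C₀, A₁ + A₂ + C₀ + 6, hC, fun p B hp hB => ?_⟩
  have B2 : 2 ≤ B := hp.two_le.trans hB
  have b2 : (2 : ℝ) ≤ B := by exact_mod_cast B2
  have b1 : (1 : ℝ) ≤ B := by linarith
  have c1 : (1 : ℝ) ≤ C₀ := by exact_mod_cast hC
  have c2 : (C₀ : ℝ) ≤ (B : ℝ) ^ C₀ := by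
    exact_mod_cast (Nat.lt_pow_self (by omega : 1 < B)).le
  have x1 : (1 : ℝ) ≤ (B : ℝ) ^ A₁ := one_le_pow₀ b1
  have big : 32 * (B : ℝ) * B ^ A₁ * B ^ A₂ ≤ (B : ℝ) ^ (A₁ + A₂ + C₀ + 6) := by
    have e : (32 : ℝ) ≤ (B : ℝ) ^ 5 := le_trans (by norm_num) (pow_le_pow_left₀ zero_le_two b2 5)
    calc 32 * (B : ℝ) * B ^ A₁ * B ^ A₂ ≤ B ^ 5 * B * B ^ A₁ * B ^ A₂ := by gcongr
      _ = (B : ℝ) ^ (A₁ + A₂ + 6) := by ring
      _ ≤ _ := pow_le_pow_right₀ b1 (by omega)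
  refine ⟨C₀ * (B : ℝ) ^ A₁, one_le_mul_of_one_le_of_one_le c1 x1, ?_,
    fun T t k N M Ω _ P a hk hN ht hM hg => ?_⟩
  · calc (C₀ : ℝ) * B ^ A₁ ≤ B ^ C₀ * B ^ A₁ := by gcongr
      _ = (B : ℝ) ^ (A₁ + C₀) := by ring
      _ ≤ _ := pow_le_pow_right₀ b1 (by omega)
  have k1 : B ^ A₁ ≤ k := (Nat.pow_le_pow_right (by omega) (by omega)).trans hk
  have N0 : 0 < N := lt_of_lt_of_le (by positivity) hN
  obtain ⟨c, hc, h3⟩ := h2 p B T t k (C₀ * k) N M Ω P a hp hB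
    (le_trans (Nat.one_le_pow _ _ (by omega)) k1) ht hM hg
  have lev : ∀ j ∈ range N, M + j * (C₀ * k) + C₀ * k ≤ M + N * (C₀ * k) := fun j hj => by
    have := Nat.mul_le_mul_right (C₀ * k) (Nat.succ_le_of_lt (mem_range.1 hj))
    rw [Nat.succ_mul] at this
    omega
  obtain ⟨j, hj, hmax⟩ := (range N).exists_max_image
    (fun j => P.H (yy p B T a (C₀ * k) (t + k) (M + j * (C₀ * k)))) ⟨0, mem_range.2 N0⟩
  refine ⟨_, lev j hj, ?_⟩
  have s1 := sum_le_card_nsmul _ _ _ hmax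
  have s2 := sum_le_sum fun i hi => sub_le_iff_le_add'.2
    (h1 p B T t k (M + i * (C₀ * k)) Ω _ P a (c i) hp hB k1 ht ((lev i hi).trans hM) hg (hc i))
  rw [sum_const, ← mul_sum] at s2
  rw [card_range, nsmul_eq_mul] at s1 s2
  push_cast
  exact TWOc.arith (by linarith) (by linarith) (by linarith) (by positivity)
    (big.trans (by exact_mod_cast hk)) (big.trans (by exact_mod_cast hN)) s2
    (h3.trans (add_le_add_left s1 _))

end Pool.Agent.P.MP_246241_nt.EK
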