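import Pool.Agent.P.MP_246241_nt.EK.TPINS
import Pool.Agent.P.MP_246241_nt.EK.TTV
import Pool.Agent.P.MP_246241_nt.EK.TFANO
import Pool.Agent.P.MP_246241_nt.EK.TALOC
import Pool.Agent.P.MP_246241_nt.EK.TCLOC
import Pool.Agent.P.MP_246241_nt.EK.TOVER
import Pool.Agent.P.MP_246241_nt.EK.TPROJ
import Pool.Agent.P.MP_246241_nt.EK.TPOR
import Pool.Agent.P.MP_246241_nt.EK.TFEW
import Pool.Agent.P.MP_246241_nt.EK.THD
import Pool.Agent.P.MP_246241_nt.EK.TSUM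
import Pool.Agent.P.MP_246241_nt.EK.TEIG
import Pool.Agent.P.MP_246241_nt.EK.TCOEF
import Pool.Agent.P.MP_246241_nt.EK.TSING
import Pool.Agent.P.MP_246241_nt.EK.TCHAR
import Pool.Agent.P.MP_246241_nt.EK.TCNT
import Pool.Agent.P.MP_246241_nt.EK.TFIB
import Pool.Agent.P.MP_246241_nt.EK.TQUOT
import Pool.Agent.P.MP_246241_nt.EK.TFRAME
import Pool.Agent.P.MP_246241_nt.EK.TSTEP
import Pool.Agent.P.MP_246241_nt.EK.TBOX
import Pool.Agent.P.MP_246241_nt.EK.TMULT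
import Pool.Agent.P.MP_246241_nt.EK.TLEVEL
import Pool.Agent.P.MP_246241_nt.EK.TREG
import Pool.Agent.P.MP_246241_nt.EK.TAMB
import Pool.Agent.P.MP_246241_nt.EK.TTEL
import Pool.Agent.P.MP_246241_nt.EK.TLIO
import Pool.Agent.P.MP_246241_nt.EK.TONE
import Pool.Agent.P.MP_246241_nt.EK.TTELC
import Pool.Agent.P.MP_246241_nt.EK.TTWO
import Pool.Agent.P.MP_246241_nt.EK.TITER
import Pool.Agent.P.MP_246241_nt.EK.THP
import Pool.Agent.P.MP_246241_nt.EK.TNUM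
import Pool.Agent.P.MP_246241_nt.EK.TENT
import Pool.Agent.P.MP_246241_nt.EK.TCORE
import Pool.Agent.P.MP_246241_nt.EK.TFIN
import Pool.Agent.P.MP_246241_nt.EK.TDIM
import Pool.Agent.P.MP_246241_nt.EK.TPIECE
import Pool.Agent.P.MP_246241_nt.EK.TMAIN

/-! Assembly. -/

set_option autoImplicit false

namespace Pool.Agent.P.MP_246241_nt.EK

theorem f_PINS : S_PINS := p_PINS
theorem f_TV : S_TV := p_TV f_PINS
theorem f_FANO : S_FANO := p_FANO
theorem f_ALOC : S_ALOC := p_ALOC f_TV f_FANO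
theorem f_CLOC : S_CLOC := p_CLOC f_ALOC
theorem f_OVER : S_OVER := p_OVER
theorem f_PROJ : S_PROJ := p_PROJ
theorem f_POR : S_POR := p_POR f_PROJ
theorem f_FEW : S_FEW := p_FEW f_PROJ
theorem f_HD : S_HD := p_HD
theorem f_SUM : S_SUM := p_SUM f_CLOC f_POR f_FEW f_OVER f_HD
theorem f_EIG : S_EIG := p_EIG
theorem f_COEF : S_COEF := p_COEF
theorem f_SING : S_SING := p_SING f_EIG f_COEF
theorem f_CHAR : S_CHAR := p_CHAR
theorem f_CNT : S_CNT := p_CNT f_EIG f_COEF f_CHAR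
theorem f_FIB : S_FIB := p_FIB f_PROJ f_SING f_CNT
theorem f_QUOT : S_QUOT := p_QUOT
theorem f_FRAME : S_FRAME := p_FRAME
theorem f_STEP : S_STEP := p_STEP f_QUOT
theorem f_BOX : S_BOX := p_BOX
theorem f_MULT : S_MULT := p_MULT f_QUOT
theorem f_LEVEL : S_LEVEL := p_LEVEL f_QUOT
theorem f_REG : S_REG := p_REG f_LEVEL
theorem f_AMB : S_AMB := p_AMB f_QUOT f_BOX
theorem f_TEL : S_TEL := p_TEL
theorem f_LIO : S_LIO := p_LIO f_FIB f_STEP f_MULT f_REG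
theorem f_ONE : S_ONE := p_ONE f_LIO f_SUM f_REG
theorem f_TELC : S_TELC := p_TELC f_TEL f_STEP f_LEVEL f_AMB f_BOX
theorem f_TWO : S_TWO := p_TWO f_ONE f_TELC
theorem f_ITER : S_ITER := p_ITER
theorem f_HP : S_HP := p_HP
theorem f_NUM : S_NUM := p_NUM
theorem f_ENT : S_ENT := p_ENT f_TWO f_ITER f_HP f_HD f_NUM
theorem f_CORE : S_CORE := p_CORE f_ENT f_FRAME
theorem f_FIN : S_FIN := p_FIN
theorem f_DIM : S_DIM := p_DIM
theorem f_PIECE : S_PIECE := p_PIECE f_CORE f_FIN f_DIM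
theorem f_MAIN : S_MAIN := p_MAIN f_PIECE

end Pool.Agent.P.MP_246241_nt.EK
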