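import Pool.Agent.P.MP_246241_nt.EK.If

/-! Step MULT. -/

set_option autoImplicit false

namespace Pool.Agent.P.MP_246241_nt.EK

open Finset Matrix Real
open Pool.Agent.P.MP_bf60a1_an.RA

namespace MULTc

/-- the translation matrix -/
def U {n : ℕ} (d : Vc n) : Mt (n + 1) :=
  Matrix.of fun i j => Fin.cases (Fin.cases 1 d j)
    (fun i' => Fin.cases 0 (fun j' => if i' = j' then 1 else 0) j) i

theorem mul_U {n : ℕ} (p l : ℕ) (x x0 : Vc n) (g : Mt (n + 1)) :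
    g * Tm p l x0 * U (x - x0) = g * Tm p l x := by
  ext i j
  rw [Matrix.mul_apply, Fin.sum_univ_succ]
  refine Fin.cases ?_ (fun j => ?_) j
  · simp [U, mul_Tm_zero]
  · simp [U, mul_Tm_zero, mul_Tm_succ]
    ring

end MULTc

theorem p_MULT (hQUOT : S_QUOT) :
    S_MULT := by
  intro n
  obtain ⟨C, hC⟩ := hQUOT (n + 1)
  refine ⟨(2 * C + 4) * n, fun p B l g hp hB => ?_⟩
  by_cases h : ∃ x0, Frame p B l x0 g
  swap
  · exact ⟨∅, by simp, fun x hx => absurd ⟨x, hx⟩ h⟩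
  obtain ⟨x0, h0⟩ := h
  refine ⟨Fintype.piFinset fun j => Finset.Icc (x0 j - ((C + 1) * B : ℕ)) (x0 j + ((C + 1) * B : ℕ)),
    ?_, fun x hx => Fintype.mem_piFinset.2 fun j => ?_⟩
  · rw [Fintype.card_piFinset, pow_mul]
    refine (Finset.prod_le_pow_card _ _ (B ^ (2 * C + 4)) fun j _ => ?_).trans (by simp)
    rw [Int.card_Icc, show x0 j + ((C + 1) * B : ℕ) + 1 - (x0 j - ((C + 1) * B : ℕ)) =
      ((2 * ((C + 1) * B) + 1 : ℕ) : ℤ) by push_cast; ring, Int.toNat_natCast]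
    have h1 : 2 * C + 3 ≤ B ^ (2 * C + 3) :=
      (Nat.lt_two_pow_self.le).trans (Nat.pow_le_pow_left hB _)
    calc 2 * ((C + 1) * B) + 1 ≤ (2 * C + 3) * B := by nlinarith
      _ ≤ B ^ (2 * C + 3) * B := Nat.mul_le_mul_right _ h1
      _ = B ^ (2 * C + 4) := by ring
  · have h1 := hC (MULTc.U (x - x0))ᵀ ((g : Mt (n + 1)) * Tm p l x0)ᵀ ((g : Mt (n + 1)) * Tm p l x)ᵀ
      _ _ (by rw [← transpose_mul, MULTc.mul_U]) (fun i j => h0 j i) (fun i j => hx j i) j.succ 0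
    rw [det_transpose, det_frame, Nat.add_sub_cancel] at h1
    change |x j - x0 j| ^ (n + 1) * _ ≤ _ at h1
    have hq : (0 : ℤ) < ((p : ℤ) ^ (n * l)) ^ (n + 1) := by positivity
    have h2 : |x j - x0 j| ^ (n + 1) ≤ C * (B : ℤ) ^ (n + 1) :=
      le_of_mul_le_mul_right (h1.trans_eq (by ring)) hq
    have h3 : (C : ℤ) ≤ ((C : ℤ) + 1) ^ (n + 1) :=
      (Int.le_add_one le_rfl).trans (le_self_pow₀ (by omega) (Nat.succ_ne_zero n))
    have h4 : |x j - x0 j| ^ (n + 1) ≤ (((C + 1) * B : ℕ) : ℤ) ^ (n + 1) := by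
      push_cast
      rw [mul_pow]
      exact h2.trans (mul_le_mul_of_nonneg_right h3 (by positivity))
    have h5 := abs_le.1 (le_of_pow_le_pow_left₀ (Nat.succ_ne_zero n) (by positivity) h4)
    exact Finset.mem_Icc.2 ⟨by linarith [h5.1], by linarith [h5.2]⟩

end Pool.Agent.P.MP_246241_nt.EK
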