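import Pool.Agent.P.MP_246241_nt.EK.If

/-! Step NUM. -/

set_option autoImplicit false

namespace Pool.Agent.P.MP_246241_nt.EK

open Finset Matrix Real
open Pool.Agent.P.MP_bf60a1_an.RA

theorem p_NUM :
    S_NUM := by
  intro n C A hC
  obtain ⟨c, hc⟩ : ∃ c, c = 16 * (C + 2) * (n + 1) := ⟨_, rfl⟩
  refine ⟨1 + (c + 2 * A + 2 + A * (8 * (n + 1)) + (A + 2)), fun B T Q hB h1 h2 hT => ?_⟩
  obtain ⟨r, hr⟩ : ∃ r, r = 8 * (n + 1) * B ^ (A + 2) := ⟨_, rfl⟩
  have pw : ∀ x, x ≤ B ^ x := fun x => (Nat.lt_pow_self hB).le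
  have b1 : 1 ≤ B ^ (A + 2) := Nat.one_le_pow _ _ (by omega)
  have H : c * (B ^ A * (B ^ A) ^ r) * B ^ (A + 2) ≤ T :=
    calc _ ≤ B ^ c * (B ^ A * (B ^ A) ^ r) * B ^ (A + 2) := by gcongr; exact pw c
      _ = B ^ (c + 2 * A + 2 + A * r) := by ring
      _ ≤ (2 ^ B) ^ ((c + 2 * A + 2 + A * (8 * (n + 1))) * B ^ (A + 2)) := by
        refine (Nat.pow_le_pow_left Nat.lt_two_pow_self.le _).trans
          (Nat.pow_le_pow_right (by positivity) ?_)
        rw [hr, add_mul _ (A * _), mul_assoc A]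
        exact Nat.add_le_add_right (Nat.le_mul_of_pos_right _ b1) _
      _ ≤ _ := by
        rw [← pow_mul]
        refine (Nat.pow_le_pow_right two_pos ?_).trans hT
        rw [pow_add B 1, pow_one, pow_add B _ (A + 2)]
        gcongr
        exact pw _
  refine ⟨_, r, le_rfl, ?_⟩
  generalize B ^ A * (B ^ A) ^ r = K at H ⊢
  have B0 : (0 : ℝ) < B := by exact_mod_cast (by omega : 0 < B)
  have H' : (16 * (C + 2) * (n + 1) * K * (B ^ A * B ^ 2) : ℝ) ≤ T := by
    rw [hc, pow_add] at H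
    exact_mod_cast H
  have p : (0 : ℝ) ≤ (n + 1) * K * B ^ 2 := by positivity
  have p' : (0 : ℝ) ≤ C + 1 := by positivity
  have q := h1.trans h2
  rw [one_div, inv_mul_eq_div, div_div, div_div, le_div_iff₀ (by positivity),
    le_div_iff₀ (by positivity), ← div_eq_mul_inv, le_div_iff₀ B0, hr]
  push_cast
  refine ⟨le_trans ?_ H', le_trans ?_ H', ?_⟩
  · nlinarith [mul_le_mul_of_nonneg_left q (mul_nonneg p (add_nonneg p' zero_le_one)),
      mul_nonneg p (add_nonneg p' zero_le_one)]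
  · nlinarith [mul_le_mul_of_nonneg_left h2 p, mul_nonneg (mul_nonneg p p') (zero_le_one.trans q)]
  · calc _ = 8 * (n + 1) * (Q * B ^ 2) := by ring
      _ ≤ _ := by rw [pow_add]; gcongr

end Pool.Agent.P.MP_246241_nt.EK
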