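import Pool.Agent.P.MP_246241_nt.EK.If

/-! Step PINS. -/

set_option autoImplicit false

namespace Pool.Agent.P.MP_246241_nt.EK

open Finset Matrix Real
open Pool.Agent.P.MP_bf60a1_an.RA

theorem p_PINS :
    S_PINS := by
  intro ι J p q h hp hq
  have k1 : ∀ j ∈ J, 2 * p j - 2 * (√(p j) * √(q j)) ≤ p j * log (p j / q j) := by
    intro j hj
    obtain ⟨a, b, c⟩ := h j hj
    rcases a.eq_or_lt with a0 | a0
    · rw [← a0]; simp
    · have b0 := c a0
      have sp : 0 < √(p j) := sqrt_pos.2 a0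
      have sq' : 0 < √(q j) := sqrt_pos.2 b0
      have l := log_le_sub_one_of_pos (div_pos sq' sp)
      have e : log (p j / q j) = -2 * log (√(q j) / √(p j)) := by
        rw [log_div a0.ne' b0.ne', log_div sq'.ne' sp.ne', log_sqrt a, log_sqrt b]; ring
      have e2 : p j * (√(q j) / √(p j)) = √(p j) * √(q j) := by
        rw [← mul_div_assoc, div_eq_iff sp.ne']
        linear_combination (-√(q j)) * mul_self_sqrt a
      rw [e]
      nlinarith [mul_le_mul_of_nonneg_left l a]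
  have k2 := sum_le_sum k1
  rw [sum_sub_distrib, ← mul_sum, ← mul_sum, hp] at k2
  have e1 : ∑ j ∈ J, |√(p j) - √(q j)| ^ 2 =
      ∑ j ∈ J, p j + ∑ j ∈ J, q j - 2 * ∑ j ∈ J, √(p j) * √(q j) := by
    rw [mul_sum, ← sum_add_distrib, ← sum_sub_distrib]
    refine sum_congr rfl fun j hj => ?_
    rw [sq_abs]
    linear_combination mul_self_sqrt (h j hj).1 + mul_self_sqrt (h j hj).2.1
  have e2 : ∑ j ∈ J, (√(p j) + √(q j)) ^ 2 ≤ 4 := by
    have : ∑ j ∈ J, (√(p j) + √(q j)) ^ 2 ≤ ∑ j ∈ J, (2 * p j + 2 * q j) := sum_le_sum fun j hj => by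
      nlinarith [mul_self_sqrt (h j hj).1, mul_self_sqrt (h j hj).2.1, sq_nonneg (√(p j) - √(q j))]
    rw [sum_add_distrib, ← mul_sum, ← mul_sum] at this
    linarith
  have e3 : ∑ j ∈ J, |p j - q j| = ∑ j ∈ J, |√(p j) - √(q j)| * (√(p j) + √(q j)) := by
    refine sum_congr rfl fun j hj => ?_
    rw [← abs_of_nonneg (by positivity : 0 ≤ √(p j) + √(q j)), ← abs_mul]
    congr 1
    linear_combination (-1 : ℝ) * mul_self_sqrt (h j hj).1 + mul_self_sqrt (h j hj).2.1
  have c := sum_mul_sq_le_sq_mul_sq J (fun j => |√(p j) - √(q j)|) fun j => √(p j) + √(q j)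
  have n1 : 0 ≤ ∑ j ∈ J, |√(p j) - √(q j)| ^ 2 := sum_nonneg fun _ _ => sq_nonneg _
  have := mul_le_mul_of_nonneg_left e2 n1
  rw [e3]
  linarith

end Pool.Agent.P.MP_246241_nt.EK
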