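import Pool.Agent.P.MP_246241_nt.EK.If

/-! Step SUM. -/

set_option autoImplicit false

namespace Pool.Agent.P.MP_246241_nt.EK

open Finset Matrix Real
open Pool.Agent.P.MP_bf60a1_an.RA

namespace SUMc

theorem MI_le {Ω α β γ δ : Type} [Fintype Ω] (P : FP Ω) (A : Ω → α) (B : Ω → β) {V : Ω → γ}
    {V' : Ω → δ} (h : P.Det V V') (h' : P.Det (fun ω => (B ω, V' ω)) V) :
    MI P A B V ≤ MI P A B V' :=
  sub_le_sub (P.Hc_mono_right A h) (P.Hc_mono_right A fun ω ω' h1 h2 h3 =>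
    Prod.ext (congrArg Prod.fst h3 :) (h' ω ω' h1 h2 h3))

theorem cong {D : ℕ} {g g' : Mt D} {q : ℤ} (h : (fun a b => g a b % q) = fun a b => g' a b % q)
    (a b : Fin D) : q ∣ g a b - g' a b :=
  Int.ModEq.dvd (congrFun (congrFun h a) b).symm

theorem loc (hCLOC : S_CLOC) (hPOR : S_POR) (hFEW : S_FEW) {D p G L m i : ℕ} {Ω κ κ' : Type}
    [Fintype Ω] (P : FP Ω) (Γ : Ω → Gl D) (u : Ω → Vc D) (C : Ω → κ) (W : Ω → κ') {s : ℝ}
    (hp : p.Prime) (hs : 0 < s) (hs' : s ≤ 1 / 2) (hm : 1 ≤ m) (hG : G ^ 2 ≤ p ^ m)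
    (hu : P.Det W u) (hC : P.Det W C)
    (hP : ∀ ω, 0 < P.p ω → Prim p (u ω) ∧ ∀ i ≤ L, Far p G i (Dl p i (u ω)) ∧ Span p G i (u ω))
    (hi : m ≤ i) (hL : i + m ≤ L) :
    P.Hc (fun ω => Dl p (i + 1) ((Γ ω : Mt D) *ᵥ u ω))
      (fun ω => (Dl p i ((Γ ω : Mt D) *ᵥ u ω), (fun a b => (Γ ω : Mt D) a b % (p : ℤ) ^ m), W ω)) ≤
      3 * s + 8 * ((p : ℝ) ^ m) ^ 2 * log ((p : ℝ) ^ D / s) ^ 2 / s *
        (MI P (fun ω => Dl p (i + m) (u ω)) Γ (fun ω => (Dl p i (u ω), C ω)) +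
          MI P (fun ω => Dl p (i + m) ((Γ ω : Mt D) *ᵥ u ω)) Γ
            fun ω => (Dl p i ((Γ ω : Mt D) *ᵥ u ω), C ω)) := by
  have pj : ∀ w : Vc D, {ρ : Vc D | ((p : ℤ) ^ (m - 1)) • ρ ∈ Dl p (i + m) w} = Dl p (i + 1) w :=
    fun w => by
      rw [Dl_down hp.pos (i + 1) (m - 1) w, show i + 1 + (m - 1) = i + m by omega]
  have h := hCLOC Ω (Gl D) (Set (Vc D)) (Set (Vc D)) _ P act Γ (fun ω => Dl p (i + m) (u ω))
    (fun ω => (C ω, (fun a b => (Γ ω : Mt D) a b % (p : ℤ) ^ m), Dl p i (u ω),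
      Dl p i ((Γ ω : Mt D) *ᵥ u ω))) {X | Far p G (i + m) X} (p ^ m)
    (fun X => {ρ : Vc D | ((p : ℤ) ^ (m - 1)) • ρ ∈ X}) ((p : ℝ) ^ D) s act_one act_mul hs hs'
    (fun ω hω => ⟨((hP ω hω).2 _ hL).1, by
      obtain ⟨F, h1, h2⟩ := hFEW D p i _ hp ((hP ω hω).1.mul (Γ ω))
      refine ⟨F, by exact_mod_cast h1, fun ω' hω' e => ?_⟩
      rw [act_Dl, pj]
      exact h2 _ ((hP ω' hω').1.mul (Γ ω')) (congrArg (fun x => x.2.2.2) e)⟩)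
    (fun ω₁ ω₂ ω₀ ω h1 h2 h0 hω e1 e2 e0 ne => by
      simp only [Prod.mk.injEq] at e1 e2 e0
      rw [act_Dl, act_Dl, pj, pj, ← act_Dl, ← act_Dl] at ne
      refine hPOR D p G i m _ _ (u ω₀) (u ω) hp hm hi hG (cong (e1.2.1.trans e2.2.1.symm))
        (hP _ h0).1 (hP _ hω).1 e0.2.2.1 ?_ ne ((hP _ hω).2 i (by omega)).2
      calc _ = act (Γ ω₁) (Dl p i (u ω₁)) := by rw [e1.2.2.1]
        _ = act (Γ ω₂) (Dl p i (u ω₂)) := by rw [act_Dl, act_Dl, e1.2.2.2, e2.2.2.2]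
        _ = _ := by rw [e2.2.2.1])
  simp only [act_Dl, pj, Nat.cast_pow] at h
  refine (P.Hc_mono_right _ fun ω ω' h1 h2 e => ?_).trans (h.trans (add_le_add_right
    (mul_le_mul_of_nonneg_left (add_le_add (MI_le P _ _ (fun ω ω' _ _ e => ?_) fun ω ω' _ _ e => ?_)
      (MI_le P _ _ (fun ω ω' _ _ e => ?_) fun ω ω' _ _ e => ?_)) (by positivity)) _))
  all_goals simp only [Prod.mk.injEq] at e ⊢
  · rw [hu ω ω' h1 h2 e.2.2] at e ⊢
    exact ⟨rfl, hC ω ω' h1 h2 e.2.2, e.2.1, rfl, e.1⟩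
  · exact ⟨e.2.2.1, e.1⟩
  · exact ⟨e.2.2, by rw [e.1], e.2.1, by rw [← act_Dl, ← act_Dl, e.1, e.2.1]⟩
  · exact ⟨e.2.2.2, e.1⟩
  · refine ⟨e.2.2, by rw [e.1], act_inj (Γ ω) ?_, e.2.1⟩
    rw [act_Dl, act_Dl, e.2.1, e.1]

end SUMc

theorem p_SUM (hCLOC : S_CLOC) (hPOR : S_POR) (hFEW : S_FEW) (hOVER : S_OVER) (hHD : S_HD) :
    S_SUM := by
  intro D p G L m Ω κ κ' _ P Γ u C W s hp hs hs' hm hL hG hu hC hP
  set c := 8 * ((p : ℝ) ^ m) ^ 2 * log ((p : ℝ) ^ D / s) ^ 2 / s with hc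
  have c0 : 0 ≤ c := by positivity
  have h1 : ∀ j, m ≤ j → j + m ≤ L → P.Hc (fun ω => Dl p j ((Γ ω : Mt D) *ᵥ u ω))
      (fun ω => ((fun a b => (Γ ω : Mt D) a b % (p : ℤ) ^ m), W ω)) ≤ ∑ i ∈ Ico m j, (3 * s + c *
        (MI P (fun ω => Dl p (i + m) (u ω)) Γ (fun ω => (Dl p i (u ω), C ω)) +
          MI P (fun ω => Dl p (i + m) ((Γ ω : Mt D) *ᵥ u ω)) Γ
            fun ω => (Dl p i ((Γ ω : Mt D) *ᵥ u ω), C ω))) := by
    intro j hj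
    induction j, hj using Nat.le_induction with
    | base =>
      intro _
      rw [Ico_self, sum_empty]
      refine P.Hc_nonpos fun ω ω' h1 h2 e => ?_
      simp only [Prod.mk.injEq] at e
      refine Dl_congr (l := 1) isCoprime_one_left fun j => ?_
      rw [hu ω ω' h1 h2 e.2, one_mul, mulVec, mulVec, dotProduct, dotProduct, ← sum_sub_distrib]
      exact dvd_sum fun k _ => by
        rw [← sub_mul]
        exact (SUMc.cong e.1 j k).mul_right _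
    | succ j hj ih =>
      intro h
      rw [sum_Ico_succ_top hj]
      exact (P.Hc_le_add _ _ _).trans (add_le_add (ih (by omega))
        (SUMc.loc hCLOC hPOR hFEW P Γ u C W hp hs hs' hm hG hu hC hP hj (by omega)))
  have h2 := h1 (L - m) (by omega) (by omega)
  have h3 := hOVER Ω _ _ κ P (fun i ω => Dl p i (u ω)) Γ C m m (L - m) L
    (fun i ω ω' _ _ e => Dl_of_le hp.pos i.le_succ e) (by omega)
  have h4 := hOVER Ω _ _ κ P (fun i ω => Dl p i ((Γ ω : Mt D) *ᵥ u ω)) Γ C m m (L - m) L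
    (fun i ω ω' _ _ e => Dl_of_le hp.pos i.le_succ e) (by omega)
  have h5 := (hHD D p m Ω P hp.pos).2 fun ω => (Γ ω : Mt D)
  have h6 := P.Hc_le_add (fun ω => Dl p (L - m) ((Γ ω : Mt D) *ᵥ u ω))
    (fun ω a b => (Γ ω : Mt D) a b % (p : ℤ) ^ m) W
  have h7 := P.Hc_le_H (fun ω a b => (Γ ω : Mt D) a b % (p : ℤ) ^ m) W
  rw [sum_add_distrib, ← mul_sum, ← mul_sum, sum_add_distrib, sum_const, Nat.card_Ico,
    nsmul_eq_mul] at h2
  have h8 : ((L - m - m : ℕ) : ℝ) ≤ L := by exact_mod_cast (by omega : L - m - m ≤ L)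
  have h9 := mul_le_mul_of_nonneg_left (add_le_add h3 h4) c0
  nlinarith [mul_le_mul_of_nonneg_right h8 hs.le]

end Pool.Agent.P.MP_246241_nt.EK
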